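import Pool.Agent.Lib.Pe46137.Sym.Defs

/-!
Savitch's algorithm as an invariant monotone network.
-/

namespace Pool.Agent.Lib.Pe46137.Sym

open Finset Equiv

/-- the states of the recursive network for walks of length at most `2 ^ j` -/
def St (V : Type) : ℕ → Type
  | 0 => Bool
  | j + 1 => Bool ⊕ (V × Bool × St V j)

/-- the start of the recursive network -/
def stt (V : Type) : ∀ j, St V j
  | 0 => true
  | _ + 1 => Sum.inl true

/-- the end of the recursive network -/
def enn (V : Type) : ∀ j, St V j
  | 0 => false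
  | _ + 1 => Sum.inl false

variable {V : Type}

/-- the permanently closed contacts -/
def Wi : ∀ j, V → V → St V j → St V j → Prop
  | 0, u, v, z, z' => u = v ∧ z = true ∧ z' = false
  | j + 1, u, v, z, z' => match z, z' with
    | Sum.inl b, Sum.inr (_, c, a) => b = true ∧ c = true ∧ a = stt V j
    | Sum.inr (_, c, a), Sum.inl b => c = false ∧ b = false ∧ a = enn V j
    | Sum.inr (w, c, a), Sum.inr (w', c', a') =>
      (w = w' ∧ c = true ∧ c' = false ∧ a = enn V j ∧ a' = stt V j) ∨
      (w = w' ∧ c = true ∧ c' = true ∧ Wi j u w a a') ∨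
      (w = w' ∧ c = false ∧ c' = false ∧ Wi j w v a a')
    | Sum.inl _, Sum.inl _ => False

/-- the contacts labelled by a variable -/
def Po : ∀ j, V → V → V × V → St V j → St V j → Prop
  | 0, u, v, e, z, z' => e = (u, v) ∧ z = true ∧ z' = false
  | j + 1, u, v, e, z, z' => match z, z' with
    | Sum.inr (w, c, a), Sum.inr (w', c', a') =>
      (w = w' ∧ c = true ∧ c' = true ∧ Po j u w e a a') ∨
      (w = w' ∧ c = false ∧ c' = false ∧ Po j w v e a a')
    | _, _ => False

/-- the renaming of the states -/
def act (π : Perm V) : ∀ j, Perm (St V j)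
  | 0 => Equiv.refl _
  | j + 1 => Equiv.sumCongr (Equiv.refl _) (Equiv.prodCongr π (Equiv.prodCongr (Equiv.refl _)
      (act π j)))

theorem act_inl (π : Perm V) (j : ℕ) (b : Bool) :
    act π (j + 1) (Sum.inl b : Bool ⊕ (V × Bool × St V j)) = Sum.inl b := rfl

theorem act_inr (π : Perm V) (j : ℕ) (w : V) (b : Bool) (a : St V j) :
    act π (j + 1) (Sum.inr (w, b, a) : Bool ⊕ (V × Bool × St V j)) =
      Sum.inr (π w, b, act π j a) := rfl

theorem act_stt (π : Perm V) (j : ℕ) : act π j (stt V j) = stt V j := by
  cases j <;> rfl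

theorem act_enn (π : Perm V) (j : ℕ) : act π j (enn V j) = enn V j := by
  cases j <;> rfl

theorem act_eq_stt (π : Perm V) (j : ℕ) (a : St V j) : act π j a = stt V j ↔ a = stt V j := by
  constructor
  · intro h
    apply (act π j).injective
    rw [h, act_stt]
  · rintro rfl
    exact act_stt π j

theorem act_eq_enn (π : Perm V) (j : ℕ) (a : St V j) : act π j a = enn V j ↔ a = enn V j := by
  constructor
  · intro h
    apply (act π j).injective
    rw [h, act_enn]
  · rintro rfl
    exact act_enn π j

theorem Wi_act (π : Perm V) : ∀ (j : ℕ) (u v : V) (z z' : St V j),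
    Wi j (π u) (π v) (act π j z) (act π j z') ↔ Wi j u v z z' := by
  intro j
  induction j with
  | zero =>
    intro u v z z'
    change (π u = π v ∧ z = true ∧ z' = false) ↔ (u = v ∧ z = true ∧ z' = false)
    rw [π.injective.eq_iff]
  | succ j ih =>
    intro u v z z'
    rcases z with b | ⟨w, c, a⟩ <;> rcases z' with b' | ⟨w', c', a'⟩
    · exact Iff.rfl
    · change (b = true ∧ c' = true ∧ act π j a' = stt V j) ↔ (b = true ∧ c' = true ∧ a' = stt V j)
      rw [act_eq_stt]
    · change (c = false ∧ b' = false ∧ act π j a = enn V j) ↔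
        (c = false ∧ b' = false ∧ a = enn V j)
      rw [act_eq_enn]
    · change ((π w = π w' ∧ c = true ∧ c' = false ∧ act π j a = enn V j ∧ act π j a' = stt V j) ∨
        (π w = π w' ∧ c = true ∧ c' = true ∧ Wi j (π u) (π w) (act π j a) (act π j a')) ∨
        (π w = π w' ∧ c = false ∧ c' = false ∧ Wi j (π w) (π v) (act π j a) (act π j a'))) ↔
        ((w = w' ∧ c = true ∧ c' = false ∧ a = enn V j ∧ a' = stt V j) ∨
        (w = w' ∧ c = true ∧ c' = true ∧ Wi j u w a a') ∨
        (w = w' ∧ c = false ∧ c' = false ∧ Wi j w v a a'))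
      rw [act_eq_stt, act_eq_enn, ih, ih, π.injective.eq_iff]

theorem Po_act (π : Perm V) : ∀ (j : ℕ) (u v : V) (e : V × V) (z z' : St V j),
    Po j (π u) (π v) (π e.1, π e.2) (act π j z) (act π j z') ↔ Po j u v e z z' := by
  intro j
  induction j with
  | zero =>
    intro u v e z z'
    change ((π e.1, π e.2) = (π u, π v) ∧ z = true ∧ z' = false) ↔
      (e = (u, v) ∧ z = true ∧ z' = false)
    rw [Prod.mk.injEq, π.injective.eq_iff, π.injective.eq_iff, Prod.ext_iff]
  | succ j ih =>
    intro u v e z z'
    rcases z with b | ⟨w, c, a⟩ <;> rcases z' with b' | ⟨w', c', a'⟩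
    · exact Iff.rfl
    · exact Iff.rfl
    · exact Iff.rfl
    · change ((π w = π w' ∧ c = true ∧ c' = true ∧
          Po j (π u) (π w) (π e.1, π e.2) (act π j a) (act π j a')) ∨
        (π w = π w' ∧ c = false ∧ c' = false ∧
          Po j (π w) (π v) (π e.1, π e.2) (act π j a) (act π j a'))) ↔
        ((w = w' ∧ c = true ∧ c' = true ∧ Po j u w e a a') ∨
        (w = w' ∧ c = false ∧ c' = false ∧ Po j w v e a a'))
      rw [ih, ih, π.injective.eq_iff]

/-- closed contacts of the recursive network -/
def Cl' (j : ℕ) (G : Set (V × V)) (u v : V) (z z' : St V j) : Prop :=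
  Wi j u v z z' ∨ ∃ e ∈ G, Po j u v e z z'

/-- reachability by a walk of length at most `2 ^ j` -/
def Lv (G : Set (V × V)) : ℕ → V → V → Prop
  | 0, u, v => u = v ∨ (u, v) ∈ G
  | j + 1, u, v => ∃ w, Lv G j u w ∧ Lv G j w v

theorem eqv_closed' {W : Type*} {r : W → W → Prop} (A : Set W)
    (hA : ∀ v w, r v w → (v ∈ A ↔ w ∈ A)) {v w : W} (h : Relation.EqvGen r v w) :
    v ∈ A ↔ w ∈ A := by
  induction h with
  | rel x y h => exact hA x y h
  | refl x => exact Iff.rfl
  | symm x y _ ih => exact ih.symm
  | trans x y z _ _ ih1 ih2 => exact ih1.trans ih2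

theorem eqv_map' {W W' : Type*} {r : W → W → Prop} {r' : W' → W' → Prop} (g : W → W')
    (hg : ∀ v w, r v w → r' (g v) (g w)) {v w : W} (h : Relation.EqvGen r v w) :
    Relation.EqvGen r' (g v) (g w) := by
  induction h with
  | rel x y h => exact Relation.EqvGen.rel _ _ (hg x y h)
  | refl x => exact Relation.EqvGen.refl _
  | symm x y _ ih => exact ih.symm
  | trans x y z _ _ ih1 ih2 => exact ih1.trans _ _ _ ih2

theorem eqv_iff' {W : Type*} {r : W → W → Prop} {v w : W} (h : r v w) (s : W) :
    Relation.EqvGen r s v ↔ Relation.EqvGen r s w :=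
  ⟨fun h' => h'.trans _ _ _ (Relation.EqvGen.rel _ _ h),
    fun h' => h'.trans _ _ _ ((Relation.EqvGen.rel _ _ h).symm _ _)⟩

theorem connected_iff (G : Set (V × V)) : ∀ (j : ℕ) (u v : V),
    Relation.EqvGen (Cl' j G u v) (stt V j) (enn V j) ↔ Lv G j u v := by
  intro j
  induction j with
  | zero =>
    intro u v
    constructor
    · intro h
      by_contra hc
      have hc' : ¬ (u = v ∨ (u, v) ∈ G) := hc
      rw [not_or] at hc'
      have := eqv_closed' (W := Bool) {true} (fun z z' hz => by
        rcases hz with h | ⟨e, he, h⟩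
        · exact absurd h.1 hc'.1
        · exact absurd (h.1 ▸ he) hc'.2) h
      have h2 : (true ∈ ({true} : Set Bool)) ↔ (false ∈ ({true} : Set Bool)) := this
      simp at h2
    · rintro (h | h)
      · exact Relation.EqvGen.rel _ _ (Or.inl ⟨h, rfl, rfl⟩)
      · exact Relation.EqvGen.rel _ _ (Or.inr ⟨(u, v), h, rfl, rfl, rfl⟩)
  | succ j ih =>
    intro u v
    constructor
    · intro h
      by_contra hc
      have hc' : ∀ w, Lv G j u w → ¬ Lv G j w v := fun w h1 h2 => hc ⟨w, h1, h2⟩
      set A : Set (Bool ⊕ (V × Bool × St V j)) := {z | z = Sum.inl true ∨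
        (∃ w a, z = Sum.inr (w, true, a) ∧ Relation.EqvGen (Cl' j G u w) (stt V j) a) ∨
        (∃ w a, z = Sum.inr (w, false, a) ∧ Lv G j u w ∧
          Relation.EqvGen (Cl' j G w v) (stt V j) a)} with hA
      have m1 : ∀ b, Sum.inl b ∈ A ↔ b = true := by
        intro b
        simp [hA]
      have m2 : ∀ w a, Sum.inr (w, true, a) ∈ A ↔
          Relation.EqvGen (Cl' j G u w) (stt V j) a := by
        intro w a
        simp [hA]
      have m3 : ∀ w a, Sum.inr (w, false, a) ∈ A ↔ (Lv G j u w ∧
          Relation.EqvGen (Cl' j G w v) (stt V j) a) := by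
        intro w a
        simp [hA]
      have := eqv_closed' (W := Bool ⊕ (V × Bool × St V j)) A (fun z z' hz => ?_) h
      · have h2 : ((Sum.inl true : Bool ⊕ (V × Bool × St V j)) ∈ A) ↔ (Sum.inl false ∈ A) := this
        rw [m1, m1] at h2
        simp at h2
      · rcases z with b | ⟨w, c, a⟩ <;> rcases z' with b' | ⟨w', c', a'⟩
        · rcases hz with h | ⟨e, _, h⟩
          · exact h.elim
          · exact h.elim
        · rcases hz with h | ⟨e, _, h⟩
          · obtain ⟨rfl, rfl, rfl⟩ : b = true ∧ c' = true ∧ a' = stt V j := h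
            rw [m1, m2]
            simp [Relation.EqvGen.refl]
          · exact h.elim
        · rcases hz with h | ⟨e, _, h⟩
          · obtain ⟨rfl, rfl, rfl⟩ : c = false ∧ b' = false ∧ a = enn V j := h
            rw [m1, m3, ih]
            simp only [iff_false, not_and, Bool.false_eq_true]
            exact hc' w
          · exact h.elim
        · rcases hz with h | ⟨e, he, h⟩
          · have h' : (w = w' ∧ c = true ∧ c' = false ∧ a = enn V j ∧ a' = stt V j) ∨
              (w = w' ∧ c = true ∧ c' = true ∧ Wi j u w a a') ∨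
              (w = w' ∧ c = false ∧ c' = false ∧ Wi j w v a a') := h
            rcases h' with ⟨rfl, rfl, rfl, rfl, rfl⟩ | ⟨rfl, rfl, rfl, h'⟩ | ⟨rfl, rfl, rfl, h'⟩
            · rw [m2, m3, ih]
              simp [Relation.EqvGen.refl]
            · rw [m2, m2]
              exact eqv_iff' (r := Cl' j G u w) (Or.inl h') _
            · rw [m3, m3, eqv_iff' (r := Cl' j G w v) (Or.inl h')]
          · have h' : (w = w' ∧ c = true ∧ c' = true ∧ Po j u w e a a') ∨
              (w = w' ∧ c = false ∧ c' = false ∧ Po j w v e a a') := h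
            rcases h' with ⟨rfl, rfl, rfl, h'⟩ | ⟨rfl, rfl, rfl, h'⟩
            · rw [m2, m2]
              exact eqv_iff' (r := Cl' j G u w) (Or.inr ⟨e, he, h'⟩) _
            · rw [m3, m3, eqv_iff' (r := Cl' j G w v) (Or.inr ⟨e, he, h'⟩)]
    · rintro ⟨w, h1, h2⟩
      rw [← ih] at h1 h2
      have e1 : Relation.EqvGen (Cl' (j + 1) G u v) (Sum.inr (w, true, stt V j))
          (Sum.inr (w, true, enn V j)) := by
        refine eqv_map' (r := Cl' j G u w) (fun a => (Sum.inr (w, true, a) : St V (j + 1)))
          (fun a b hab => ?_) h1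
        rcases hab with h | ⟨e, he, h⟩
        · exact Or.inl (Or.inr (Or.inl ⟨rfl, rfl, rfl, h⟩))
        · exact Or.inr ⟨e, he, Or.inl ⟨rfl, rfl, rfl, h⟩⟩
      have e2 : Relation.EqvGen (Cl' (j + 1) G u v) (Sum.inr (w, false, stt V j))
          (Sum.inr (w, false, enn V j)) := by
        refine eqv_map' (r := Cl' j G w v) (fun a => (Sum.inr (w, false, a) : St V (j + 1)))
          (fun a b hab => ?_) h2
        rcases hab with h | ⟨e, he, h⟩
        · exact Or.inl (Or.inr (Or.inr ⟨rfl, rfl, rfl, h⟩))
        · exact Or.inr ⟨e, he, Or.inr ⟨rfl, rfl, rfl, h⟩⟩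
      have c1 : Cl' (j + 1) G u v (Sum.inl true) (Sum.inr (w, true, stt V j)) :=
        Or.inl ⟨rfl, rfl, rfl⟩
      have c2 : Cl' (j + 1) G u v (Sum.inr (w, true, enn V j)) (Sum.inr (w, false, stt V j)) :=
        Or.inl (Or.inl ⟨rfl, rfl, rfl, rfl, rfl⟩)
      have c3 : Cl' (j + 1) G u v (Sum.inr (w, false, enn V j)) (Sum.inl false) :=
        Or.inl ⟨rfl, rfl, rfl⟩
      exact (Relation.EqvGen.rel _ _ c1).trans _ _ _ (e1.trans _ _ _
        ((Relation.EqvGen.rel _ _ c2).trans _ _ _ (e2.trans _ _ _ (Relation.EqvGen.rel _ _ c3))))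

theorem reach_of_Lv {G : Set (V × V)} : ∀ (j : ℕ) {u v : V}, Lv G j u v → Reachable G u v := by
  intro j
  induction j with
  | zero =>
    rintro u v (h | h)
    · rw [h]; exact Relation.ReflTransGen.refl
    · exact Relation.ReflTransGen.single h
  | succ j ih =>
    rintro u v ⟨w, h1, h2⟩
    exact (ih h1).trans (ih h2)

/-- a walk with `k` arcs -/
def Chain (G : Set (V × V)) (k : ℕ) (u v : V) : Prop :=
  ∃ p : ℕ → V, p 0 = u ∧ p k = v ∧ ∀ i < k, (p i, p (i + 1)) ∈ G

theorem Lv_of_chain {G : Set (V × V)} :
    ∀ (j k : ℕ) {u v : V}, k ≤ 2 ^ j → Chain G k u v → Lv G j u v := by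
  intro j
  induction j with
  | zero =>
    rintro k u v hk ⟨p, h0, h1, h3⟩
    rcases Nat.eq_zero_or_pos k with h | h
    · subst h
      exact Or.inl (h0.symm.trans h1)
    · have : k = 1 := by simp at hk; omega
      subst this
      have := h3 0 one_pos
      rw [h0] at this
      right; rw [← h1]; exact this
  | succ j ih =>
    rintro k u v hk ⟨p, h0, h1, h3⟩
    have hk2 : k ≤ 2 * 2 ^ j := by rwa [← pow_succ']
    refine ⟨p (min k (2 ^ j)), ?_, ?_⟩
    · exact ih (min k (2 ^ j)) (min_le_right _ _) ⟨p, h0, rfl,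
        fun i hi => h3 i (lt_of_lt_of_le hi (min_le_left _ _))⟩
    · refine ih (k - min k (2 ^ j)) (by omega) ⟨fun i => p (min k (2 ^ j) + i), by simp,
        ?_, fun i hi => ?_⟩
      · simp only
        rw [← h1]; congr 1; omega
      · exact h3 _ (by omega)

theorem chain_of_reach {G : Set (V × V)} {u v : V} (h : Reachable G u v) :
    ∃ k, Chain G k u v := by
  induction h with
  | refl => exact ⟨0, fun _ => u, rfl, rfl, fun i hi => by omega⟩
  | @tail b c _ hbc ih =>
    obtain ⟨k, p, h0, h1, h3⟩ := ih
    refine ⟨k + 1, fun i => if i ≤ k then p i else c, by simp [h0], by simp, ?_⟩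
    intro i hi
    simp only
    by_cases hik : i < k
    · rw [if_pos (by omega), if_pos (by omega)]
      exact h3 i hik
    · have : i = k := by omega
      rw [if_pos (by omega), if_neg (by omega), this, h1]
      exact hbc

theorem short_chain' [Fintype V] {G : Set (V × V)} {u v : V} (h : ∃ k, Chain G k u v) :
    ∃ k, k + 1 ≤ Fintype.card V ∧ Chain G k u v := by
  classical
  obtain ⟨p, h0, h1, h3⟩ := Nat.find_spec h
  set m := Nat.find h with hm
  refine ⟨m, ?_, p, h0, h1, h3⟩
  by_contra hc
  push Not at hc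
  obtain ⟨i, hi, j, hj, hij, hpp⟩ := exists_ne_map_eq_of_card_lt_of_maps_to
    (s := range (m + 1)) (t := (univ : Finset V)) (f := p) (by rw [card_range, card_univ]; omega)
    (fun i _ => mem_univ _)
  have hi' := mem_range.mp hi
  have hj' := mem_range.mp hj
  have key : ∀ i j, i < j → j ≤ m → p i = p j → False := by
    intro i j hij hjm hpp
    have hlt : m - (j - i) < m := by omega
    refine Nat.find_min h hlt ⟨fun r => if r ≤ i then p r else p (r + (j - i)), ?_, ?_, ?_⟩
    · simp [h0]
    · simp only
      split_ifs with h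
      · have : j = m := by omega
        have hri : m - (j - i) = i := by omega
        rw [hri, hpp, this, h1]
      · rw [Nat.sub_add_cancel (by omega), h1]
    · intro r hr
      simp only
      by_cases hri : r < i
      · rw [if_pos (by omega), if_pos (by omega)]
        exact h3 r (by omega)
      · by_cases hri' : r = i
        · rw [if_pos (by omega), if_neg (by omega), hri', hpp]
          have : i + 1 + (j - i) = j + 1 := by omega
          rw [this]
          exact h3 j (by omega)
        · rw [if_neg (by omega), if_neg (by omega)]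
          have : r + 1 + (j - i) = r + (j - i) + 1 := by omega
          rw [this]
          exact h3 _ (by omega)
  rcases lt_or_gt_of_ne hij with h | h
  · exact key i j h (by omega) hpp
  · exact key j i h (by omega) hpp.symm

theorem Lv_iff [Fintype V] {G : Set (V × V)} {j : ℕ} (hj : Fintype.card V ≤ 2 ^ j) (u v : V) :
    Lv G j u v ↔ Reachable G u v := by
  refine ⟨reach_of_Lv j, fun h => ?_⟩
  obtain ⟨k, h1, h2⟩ := short_chain' (chain_of_reach h)
  exact Lv_of_chain j k (by omega) h2

instance instFintypeSt [Fintype V] : ∀ j, Fintype (St V j)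
  | 0 => inferInstanceAs (Fintype Bool)
  | j + 1 =>
    haveI := instFintypeSt j
    inferInstanceAs (Fintype (Bool ⊕ (V × Bool × St V j)))

theorem card_St_zero [Fintype V] : Fintype.card (St V 0) = 2 := rfl

theorem card_St_succ [Fintype V] (j : ℕ) :
    Fintype.card (St V (j + 1)) = 2 + Fintype.card V * (2 * Fintype.card (St V j)) := by
  have : Fintype.card (St V (j + 1)) = Fintype.card (Bool ⊕ (V × Bool × St V j)) := rfl
  rw [this, Fintype.card_sum, Fintype.card_prod, Fintype.card_prod, Fintype.card_bool]

theorem card_St_le [Fintype V] (j : ℕ) :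
    Fintype.card (St V j) ≤ 2 * (2 * Fintype.card V + 1) ^ j := by
  have h2 : ∀ j, 2 ≤ Fintype.card (St V j) := by
    intro j
    cases j with
    | zero => rw [card_St_zero]
    | succ j => rw [card_St_succ]; omega
  induction j with
  | zero => rw [card_St_zero]; simp
  | succ j ih =>
    rw [card_St_succ]
    calc 2 + Fintype.card V * (2 * Fintype.card (St V j))
        ≤ Fintype.card (St V j) + Fintype.card V * (2 * Fintype.card (St V j)) := by
          have := h2 j
          omega
      _ = (2 * Fintype.card V + 1) * Fintype.card (St V j) := by ring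
      _ ≤ (2 * Fintype.card V + 1) * (2 * (2 * Fintype.card V + 1) ^ j) :=
          Nat.mul_le_mul_left _ ih
      _ = 2 * (2 * Fintype.card V + 1) ^ (j + 1) := by ring

/-- Savitch's network -/
def savitch (s t : V) (j : ℕ) : Network V (St V j) where
  source := stt V j
  sink := enn V j
  free z z' := {_G | Wi j s t z z'}
  guard e z z' := {_G | Po j s t e z z'}
  free_lower _ _ := fun _ _ _ h => h
  guard_lower _ _ _ := fun _ _ _ h => h

theorem savitch_accepts [Fintype V] {s t : V} {j : ℕ} (hj : Fintype.card V ≤ 2 ^ j)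
    (G : Set (V × V)) : (savitch s t j).Accepts G ↔ Reachable G s t := by
  rw [← Lv_iff hj s t, ← connected_iff G j s t]
  rfl

theorem savitch_invariant (s t : V) (j : ℕ) : (savitch s t j).Invariant s t := by
  intro π hs ht
  refine ⟨act π j, act_stt π j, act_enn π j, fun v w G => ?_, fun e v w G => ?_⟩
  · have := Wi_act π j s t v w
    rw [hs, ht] at this
    exact this
  · have := Po_act π j s t e v w
    rw [hs, ht] at this
    exact this

theorem savitch_monotone (s t : V) (j : ℕ) : (savitch s t j).Monotone := by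
  constructor
  · intro v w
    by_cases h : Wi j s t v w
    · right; ext G; simp [savitch, h]
    · left; ext G; simp [savitch, h]
  · intro e v w
    by_cases h : Po j s t e v w
    · right; ext G; simp [savitch, h]
    · left; ext G; simp [savitch, h]

end Pool.Agent.Lib.Pe46137.Sym
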