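import Pool.Agent.Lib.Pe46137.Sym.Main
import Pool.Agent.Lib.Pe46137.Sym.Upper

/-!
Asymptotics.
-/

namespace Pool.Agent.Lib.Pe46137.Sym

open Finset Equiv

open scoped Nat in
theorem two_pow_pred_le_factorial : ∀ y : ℕ, 2 ^ (y - 1) ≤ y !
  | 0 => by simp
  | 1 => by simp
  | y + 2 => by
    have ih := two_pow_pred_le_factorial (y + 1)
    simp only [Nat.add_sub_cancel] at ih
    have e : y + 2 - 1 = y + 1 := by omega
    rw [e, pow_succ, Nat.factorial_succ (y + 1), mul_comm]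
    exact Nat.mul_le_mul (by omega) ih

theorem quad {N d : ℕ} (h : 8 * (d + 1) ^ 2 ≤ N) :
    N * (d * (d + 1)) ≤ (N - (d - 1)) * (N - d) := by
  have h0 : d + 1 ≤ (d + 1) ^ 2 := Nat.le_self_pow (by norm_num) _
  have h1 : N ≤ 2 * (N - d) := by omega
  have h2 : N - d ≤ N - (d - 1) := by omega
  have h3 : d * (d + 1) ≤ (d + 1) ^ 2 := by nlinarith
  have h4 : N * N ≤ 4 * ((N - d) * (N - d)) := by
    calc N * N ≤ (2 * (N - d)) * (2 * (N - d)) := Nat.mul_le_mul h1 h1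
      _ = _ := by ring
  have h5 : 8 * (N * (d * (d + 1))) ≤ N * N := by
    calc 8 * (N * (d * (d + 1))) = N * (8 * (d * (d + 1))) := by ring
      _ ≤ N * (8 * (d + 1) ^ 2) := by gcongr
      _ ≤ N * N := Nat.mul_le_mul_left _ h
  have h6 : (N - d) * (N - d) ≤ (N - (d - 1)) * (N - d) := Nat.mul_le_mul_right _ h2
  omega

theorem growth (δ : ℝ) (hδ : 0 < δ) : ∃ n₀ : ℕ, ∀ n : ℕ, n₀ ≤ n →
    64 * (Real.logb 2 n) ^ 4 ≤ (n : ℝ) ^ δ ∧ 100 / δ ≤ Real.logb 2 n := by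
  have h1 := isLittleO_log_rpow_rpow_atTop (s := δ) 4 hδ
  have hl2 : 0 < Real.log 2 := Real.log_pos (by norm_num)
  have h2 := (Asymptotics.isLittleO_iff.mp h1) (c := (Real.log 2) ^ 4 / 64) (by positivity)
  rw [Filter.eventually_atTop] at h2
  obtain ⟨a, ha⟩ := h2
  obtain ⟨n₀, hn₀⟩ := exists_nat_ge (max a (max 1 ((2 : ℝ) ^ (100 / δ))))
  refine ⟨n₀, fun n hn => ?_⟩
  have hn' : max a (max 1 ((2 : ℝ) ^ (100 / δ))) ≤ n := le_trans hn₀ (by exact_mod_cast hn)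
  have hna : a ≤ n := le_trans (le_max_left _ _) hn'
  have hn1 : (1 : ℝ) ≤ n := le_trans (le_trans (le_max_left _ _) (le_max_right _ _)) hn'
  have hn2 : (2 : ℝ) ^ (100 / δ) ≤ n := le_trans (le_trans (le_max_right _ _) (le_max_right _ _)) hn'
  constructor
  · have h3 := ha n hna
    have e1 : Real.log n ^ (4 : ℝ) = Real.log n ^ 4 := by
      rw [← Real.rpow_natCast]; norm_num
    rw [e1] at h3
    have hln : 0 ≤ Real.log n := Real.log_nonneg hn1
    rw [Real.norm_of_nonneg (by positivity), Real.norm_of_nonneg (by positivity)] at h3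
    have e2 : Real.logb 2 n = Real.log n / Real.log 2 := rfl
    rw [e2, div_pow]
    have h4 : 64 * (Real.log n ^ 4 / Real.log 2 ^ 4) = 64 / Real.log 2 ^ 4 * Real.log n ^ 4 := by
      ring
    rw [h4]
    calc 64 / Real.log 2 ^ 4 * Real.log n ^ 4
        ≤ 64 / Real.log 2 ^ 4 * (Real.log 2 ^ 4 / 64 * (n : ℝ) ^ δ) := by gcongr
      _ = (n : ℝ) ^ δ := by field_simp
  · rw [Real.le_logb_iff_rpow_le (by norm_num) (by linarith)]
    exact hn2

/-- the choice of the parameters -/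
theorem choice {δ : ℝ} (hδ : 0 < δ) (hδ8 : δ ≤ 1 / 8) {n : ℕ} {L X : ℝ}
    (hnL : (n : ℝ) = (2 : ℝ) ^ L) (hX : X = (n : ℝ) ^ δ) (hXL : 64 * L ^ 4 ≤ X)
    (hL : 100 / δ ≤ L) : ∃ d : ℕ, 2 ≤ d ∧ 2 ^ d * (2 * (2 * d)) ≤ n - 2 ∧
      ((n : ℝ)) ^ (d - 1 : ℕ) ≤ (2 : ℝ) ^ ((n - 2) / (d + 1) - 1 : ℕ) ∧
      8 * (d + 1) ^ 2 ≤ n - 2 ∧
      (n : ℝ) ^ ((1 - 8 * δ) * L) ≤ ((((n - 2) + 1 - (d - 1) : ℕ) : ℝ) / (d - 1 : ℕ)) ^ (d - 1) := by
  have hL800 : 800 ≤ L := by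
    have h1 : (800 : ℝ) ≤ 100 / δ := by
      rw [le_div_iff₀ hδ]; linarith
    linarith
  have hL5 : 2 ≤ 5 * δ * L := by
    rw [div_le_iff₀ hδ] at hL
    have : 5 * δ * L = 5 * (L * δ) := by ring
    linarith
  have hn1 : (1 : ℝ) ≤ n := by
    rw [hnL]; exact Real.one_le_rpow (by norm_num) (by linarith)
  have hn0 : (0 : ℝ) < n := by linarith
  have hX1 : 1 ≤ X := by
    rw [hX]; exact Real.one_le_rpow hn1 hδ.le
  have hX0 : 0 < X := by linarith
  have hXn : X ≤ n := by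
    rw [hX]
    calc (n : ℝ) ^ δ ≤ (n : ℝ) ^ (1 : ℝ) := Real.rpow_le_rpow_of_exponent_le hn1 (by linarith)
      _ = n := Real.rpow_one _
  have hL4 : L ≤ L ^ 4 := le_self_pow₀ (by linarith) (by norm_num)
  have hL2 : L ^ 2 ≤ L ^ 4 := pow_le_pow_right₀ (by linarith) (by norm_num)
  have hL3 : L ^ 4 = L ^ 3 * L := by ring
  have hL24 : (800 : ℝ) ^ 2 ≤ L ^ 2 := by gcongr
  have hnbig : 64 * L ^ 4 ≤ n := le_trans hXL hXn
  -- the number of levels
  set d : ℕ := ⌊(1 - 2 * δ) * L⌋₊ with hd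
  have hδL : 0 ≤ δ * L := by positivity
  have hδL8 : δ * L ≤ L / 8 := by
    have := mul_le_mul_of_nonneg_right hδ8 (show 0 ≤ L by linarith)
    linarith
  have hexp : (1 - 2 * δ) * L = L - 2 * (δ * L) := by ring
  have hpos : 0 ≤ (1 - 2 * δ) * L := by rw [hexp]; linarith
  have hdle : (d : ℝ) ≤ (1 - 2 * δ) * L := Nat.floor_le hpos
  have hdge : (1 - 2 * δ) * L - 1 < d := by
    have := Nat.lt_floor_add_one ((1 - 2 * δ) * L)
    rw [← hd] at this
    linarith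
  have hdL : (d : ℝ) ≤ L := by linarith
  have hd599 : (599 : ℝ) ≤ d := by linarith
  have hd2 : 2 ≤ d := by
    have : (2 : ℝ) ≤ d := by linarith
    exact_mod_cast this
  have hn2 : 2 ≤ n := by
    have : (2 : ℝ) ≤ n := by linarith
    exact_mod_cast this
  have hN : ((n - 2 : ℕ) : ℝ) = n - 2 := by
    rw [Nat.cast_sub hn2]; norm_num
  have hNhalf : (n : ℝ) / 2 ≤ n - 2 := by linarith
  have hd1 : ((d - 1 : ℕ) : ℝ) = d - 1 := by
    rw [Nat.cast_sub (by omega)]; norm_num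
  have h2d : (2 : ℝ) ^ d ≤ n / X ^ 2 := by
    have e1 : (2 : ℝ) ^ d ≤ (2 : ℝ) ^ ((1 - 2 * δ) * L) := by
      rw [← Real.rpow_natCast 2 d]
      exact Real.rpow_le_rpow_of_exponent_le (by norm_num) hdle
    have e2 : (2 : ℝ) ^ ((1 - 2 * δ) * L) = n / X ^ 2 := by
      rw [hX, ← Real.rpow_natCast, ← Real.rpow_mul hn0.le]
      conv_rhs => rw [← Real.rpow_one (n : ℝ)]
      rw [Real.rpow_one, ← Real.rpow_one (n : ℝ), ← Real.rpow_mul (by positivity),
        Real.rpow_one]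
      have e3 : (n : ℝ) / (n : ℝ) ^ (δ * ((2 : ℕ) : ℝ)) = (n : ℝ) ^ (1 - δ * ((2 : ℕ) : ℝ)) := by
        rw [Real.rpow_sub hn0, Real.rpow_one]
      rw [one_mul, e3, hnL, ← Real.rpow_mul (by norm_num)]
      congr 1
      push_cast
      ring
    rw [← e2]; exact e1
  refine ⟨d, hd2, ?_, ?_, ?_, ?_⟩
  · -- the grid fits
    have h1 : ((2 ^ d * (2 * (2 * d)) : ℕ) : ℝ) ≤ ((n - 2 : ℕ) : ℝ) := by
      rw [hN]
      push_cast
      have h2 : (2 : ℝ) ^ d * (2 * (2 * d)) ≤ n / X ^ 2 * (4 * L) := by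
        have : (2 * (2 * (d : ℝ))) ≤ 4 * L := by linarith
        gcongr
      have h3 : n / X ^ 2 * (4 * L) ≤ n / 2 := by
        rw [div_mul_eq_mul_div, div_le_div_iff₀ (by positivity) (by norm_num)]
        have h4 : 8 * L ≤ X ^ 2 := by
          have : X ≤ X ^ 2 := le_self_pow₀ hX1 (by norm_num)
          linarith
        calc (n : ℝ) * (4 * L) * 2 = n * (8 * L) := by ring
          _ ≤ n * X ^ 2 := by gcongr
      linarith
    exact_mod_cast h1
  · -- the factorial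
    set y : ℕ := (n - 2) / (d + 1) with hy
    have h1 : n - 2 < (y + 1) * (d + 1) := by
      rw [hy]
      have := Nat.lt_mul_div_succ (n - 2) (show 0 < d + 1 by omega)
      rw [mul_comm]
      exact this
    have h2 : ((n - 2 : ℕ) : ℝ) < (y + 1) * (d + 1) := by exact_mod_cast h1
    rw [hN] at h2
    have h3 : 16 * L ^ 3 ≤ (y : ℝ) + 1 := by
      have h4 : ((y : ℝ) + 1) * (d + 1) ≤ ((y : ℝ) + 1) * (2 * L) := by
        have : (d : ℝ) + 1 ≤ 2 * L := by linarith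
        gcongr
      have h5 : 16 * L ^ 3 * (2 * L) ≤ ((y : ℝ) + 1) * (2 * L) := by
        have : 16 * L ^ 3 * (2 * L) = 32 * L ^ 4 := by ring
        rw [this]
        linarith
      exact le_of_mul_le_mul_right h5 (by linarith)
    have h4 : L ^ 2 + 2 ≤ (y : ℝ) := by
      have h5 : L ^ 2 ≤ L ^ 3 := pow_le_pow_right₀ (by linarith) (by norm_num)
      have h6 : L ≤ L ^ 3 := le_self_pow₀ (by linarith) (by norm_num)
      linarith
    have hy1 : ((y - 1 : ℕ) : ℝ) = y - 1 := by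
      have : 1 ≤ y := by
        have : (1 : ℝ) ≤ y := by linarith [sq_nonneg L]
        exact_mod_cast this
      rw [Nat.cast_sub this]; norm_num
    rw [hnL, ← Real.rpow_natCast, ← Real.rpow_mul (by norm_num), ← Real.rpow_natCast 2, hy1]
    refine Real.rpow_le_rpow_of_exponent_le (by norm_num) ?_
    rw [hd1]
    have h5 : L * ((d : ℝ) - 1) ≤ L * L := by
      have : (d : ℝ) - 1 ≤ L := by linarith
      have : 0 ≤ L := by linarith
      gcongr
    have h6 : L ^ 2 = L * L := by ring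
    linarith
  · have h1 : ((8 * (d + 1) ^ 2 : ℕ) : ℝ) ≤ ((n - 2 : ℕ) : ℝ) := by
      rw [hN]
      push_cast
      have h2 : ((d : ℝ) + 1) ^ 2 ≤ (2 * L) ^ 2 := by
        have : (d : ℝ) + 1 ≤ 2 * L := by linarith
        gcongr
      have h3 : (2 * L) ^ 2 = 4 * L ^ 2 := by ring
      linarith
    exact_mod_cast h1
  · -- the binomial coefficient
    have h1 : ((n - 2 + 1 - (d - 1) : ℕ) : ℝ) = n - 2 + 1 - (d - 1) := by
      have : d - 1 ≤ n - 2 + 1 := by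
        have h2 : (d : ℝ) ≤ n := by linarith
        have : d ≤ n := by exact_mod_cast h2
        omega
      rw [Nat.cast_sub this, hd1]
      push_cast
      rw [hN]
    have hdpos : (0 : ℝ) < ((d - 1 : ℕ) : ℝ) := by rw [hd1]; linarith
    have h2 : (n : ℝ) ^ (1 - δ) ≤ ((n - 2 + 1 - (d - 1) : ℕ) : ℝ) / (d - 1 : ℕ) := by
      rw [Real.rpow_sub hn0, Real.rpow_one, ← hX, h1, hd1, div_le_div_iff₀ hX0 (by linarith)]
      have h3 : (n : ℝ) * (d - 1) ≤ n * L := by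
        have : (d : ℝ) - 1 ≤ L := by linarith
        gcongr
      have h4 : (n : ℝ) / 2 ≤ n - 2 + 1 - (d - 1) := by linarith
      have h5 : (n : ℝ) / 2 * X ≤ (n - 2 + 1 - (d - 1)) * X := by gcongr
      have h6 : n * L ≤ (n : ℝ) / 2 * X := by
        have : L ≤ X / 2 := by linarith
        calc (n : ℝ) * L ≤ n * (X / 2) := by gcongr
          _ = (n : ℝ) / 2 * X := by ring
      linarith
    have h3 : ((n : ℝ) ^ (1 - δ)) ^ (d - 1) ≤
        (((n - 2 + 1 - (d - 1) : ℕ) : ℝ) / (d - 1 : ℕ)) ^ (d - 1) := by gcongr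
    refine le_trans ?_ h3
    rw [← Real.rpow_natCast, ← Real.rpow_mul hn0.le]
    refine Real.rpow_le_rpow_of_exponent_le hn1 ?_
    rw [hd1]
    have h4 : (1 - 2 * δ) * L - 2 ≤ (d : ℝ) - 1 := by linarith
    have h5 : (1 - δ) * ((1 - 2 * δ) * L - 2) ≤ (1 - δ) * ((d : ℝ) - 1) := by
      have : 0 ≤ 1 - δ := by linarith
      gcongr
    refine le_trans ?_ h5
    have e : (1 - δ) * ((1 - 2 * δ) * L - 2) - (1 - 8 * δ) * L =
        (5 * δ * L - 2) + 2 * (δ * (δ * L)) + 2 * δ := by ring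
    have e' : 0 ≤ δ * (δ * L) := by positivity
    linarith

end Pool.Agent.Lib.Pe46137.Sym
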