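import Pool.Agent.Lib.Pe46137.Defs

/-!
Guarded switching networks for directed reachability, and their invariance under renaming.
-/

namespace Pool.Agent.Lib.Pe46137.Sym

/-- A guarded switching network on the digraphs with vertex set `V`, with set of states `W`: an
undirected graph on `W` with two distinguished states, whose contacts are closed or open depending
on the input digraph `G` (a set of arcs). A contact is labelled either by a decreasing property of
digraphs (`free v w`: the digraphs on which some contact of this kind between `v` and `w` is
closed), or by the conjunction of one arc variable and a decreasing property (`guard e v w`: the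
digraphs which, if they contain the arc `e`, close the contact). The properties may depend on the
pair of states and are otherwise arbitrary; a negated variable is a decreasing property. -/
structure Network (V W : Type*) where
  source : W
  sink : W
  free : W → W → Set (Set (V × V))
  guard : V × V → W → W → Set (Set (V × V))
  free_lower : ∀ v w, IsLowerSet (free v w)
  guard_lower : ∀ e v w, IsLowerSet (guard e v w)

namespace Network

variable {V W : Type*}

/-- some contact between `v` and `w` is closed on the digraph `G` -/
def Closed (N : Network V W) (G : Set (V × V)) (v w : W) : Prop :=
  G ∈ N.free v w ∨ ∃ e ∈ G, G ∈ N.guard e v w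

/-- source and sink are joined by an undirected walk along closed contacts -/
def Accepts (N : Network V W) (G : Set (V × V)) : Prop :=
  Relation.EqvGen (N.Closed G) N.source N.sink

/-- the network only has permanently closed contacts and contacts labelled by variables -/
def Monotone (N : Network V W) : Prop :=
  (∀ v w, N.free v w = ∅ ∨ N.free v w = Set.univ) ∧
    ∀ e v w, N.guard e v w = ∅ ∨ N.guard e v w = Set.univ

/-- `ρ` is an automorphism of the network over the renaming `π` of the vertices: the digraph `G`
closes the contacts between `ρ v` and `ρ w` exactly as the renamed digraph, with an arc from `a`
to `b` whenever `G` has one from `π a` to `π b`, closes those between `v` and `w` -/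
structure Lifts (N : Network V W) (π : Equiv.Perm V) (ρ : Equiv.Perm W) : Prop where
  source : ρ N.source = N.source
  sink : ρ N.sink = N.sink
  free : ∀ v w G, G ∈ N.free (ρ v) (ρ w) ↔ {e : V × V | (π e.1, π e.2) ∈ G} ∈ N.free v w
  guard : ∀ e v w G, G ∈ N.guard (π e.1, π e.2) (ρ v) (ρ w) ↔
    {e : V × V | (π e.1, π e.2) ∈ G} ∈ N.guard e v w

/-- the network is invariant: every renaming of the vertices other than `s` and `t` extends to an
automorphism of the network -/
def Invariant (N : Network V W) (s t : V) : Prop :=
  ∀ π : Equiv.Perm V, π s = s → π t = t → ∃ ρ : Equiv.Perm W, N.Lifts π ρ

end Network

/-- the digraph has no directed cycle -/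
def Acyclic {V : Type*} (G : Set (V × V)) : Prop :=
  ∀ v, ¬ Relation.TransGen (fun a b => (a, b) ∈ G) v v

end Pool.Agent.Lib.Pe46137.Sym
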