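import Pool.Agent.Lib.Pe46137.Sym.Asymp

/-!
The exact exponent of the invariant network size of directed reachability.
-/

namespace Pool.Agent.Lib.Pe46137.Sym

open Finset Equiv

theorem card_Mov {n : ℕ} {s t : Fin n} (hst : s ≠ t) : Fintype.card (Mov s t) = n - 2 := by
  rw [Fintype.card_subtype]
  have : univ.filter (fun x : Fin n => x ≠ s ∧ x ≠ t) = (univ.erase s).erase t := by
    ext x
    simp only [mem_filter, mem_univ, true_and, mem_erase, and_true]
    tauto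
  rw [this, card_erase_of_mem (by simp [hst.symm]), card_erase_of_mem (mem_univ _), card_univ,
    Fintype.card_fin]
  omega

theorem lower_asymp (ε : ℝ) (hε : 0 < ε) : ∃ n₀ : ℕ, ∀ n : ℕ, n₀ ≤ n → ∀ s t : Fin n, s ≠ t →
    ∀ (W : Type) [Fintype W] (N : Network (Fin n) W), N.Invariant s t →
      (∀ G : Set (Fin n × Fin n), Acyclic G → (N.Accepts G ↔ Reachable G s t)) →
      (n : ℝ) ^ ((1 - ε) * Real.logb 2 n) ≤ Fintype.card W := by
  set δ : ℝ := min ε 1 / 8 with hδ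
  have hδ0 : 0 < δ := by
    have : 0 < min ε 1 := lt_min hε one_pos
    rw [hδ]; positivity
  have hδ8 : δ ≤ 1 / 8 := by
    have : min ε 1 ≤ 1 := min_le_right _ _
    rw [hδ]; linarith
  have hδε : 8 * δ ≤ ε := by
    have : min ε 1 ≤ ε := min_le_left _ _
    rw [hδ]; linarith
  obtain ⟨n₀, hn₀⟩ := growth δ hδ0
  refine ⟨n₀, fun n hn s t hst W _ N hN hdec => ?_⟩
  obtain ⟨hg1, hg2⟩ := hn₀ n hn
  set L := Real.logb 2 n with hL
  have hLpos : 0 < L := lt_of_lt_of_le (by positivity) hg2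
  have hnpos : (0 : ℝ) < n := by
    rcases Nat.eq_zero_or_pos n with h | h
    · rw [hL, h] at hLpos; simp at hLpos
    · exact_mod_cast h
  have hnL : (n : ℝ) = (2 : ℝ) ^ L := (Real.rpow_logb (by norm_num) (by norm_num) hnpos).symm
  have hn1 : (1 : ℝ) ≤ n := by
    rw [hnL]; exact Real.one_le_rpow (by norm_num) hLpos.le
  obtain ⟨d, hd2, hgrid, hfac, hquad, hbin⟩ := choice hδ0 hδ8 hnL rfl hg1 hg2
  have hM := card_Mov hst
  have hemb : Nonempty (Fin (2 ^ d) × Fin (2 * (2 * d)) ↪ Mov s t) := by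
    refine Function.Embedding.nonempty_of_card_le ?_
    rw [Fintype.card_prod, Fintype.card_fin, Fintype.card_fin, hM]
    exact hgrid
  obtain ⟨ι⟩ := hemb
  have hchoose : (Fintype.card (Mov s t)).choose (d - 1) ≤
      Nat.factorial ((n - 2) / (d + 1)) := by
    rw [hM]
    refine le_trans (Nat.choose_le_pow _ _) ?_
    have h1 : (n - 2) ^ (d - 1) ≤ n ^ (d - 1) := Nat.pow_le_pow_left (Nat.sub_le _ _) _
    have h2 : n ^ (d - 1) ≤ 2 ^ ((n - 2) / (d + 1) - 1) := by exact_mod_cast hfac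
    exact le_trans h1 (le_trans h2 (two_pow_pred_le_factorial _))
  have hlow := lower_param ι hst hd2 le_rfl le_rfl N hN hdec hchoose
    (by rw [hM]; exact Nat.div_mul_le_self _ _)
    (by rw [hM]; exact quad hquad)
  rw [hM] at hlow
  have h1 : (((n - 2).choose (d - 1) : ℕ) : ℝ) ≤ Fintype.card W := by exact_mod_cast hlow
  refine le_trans ?_ h1
  have h2 := Nat.pow_le_choose (α := ℝ) (d - 1) (n - 2)
  refine le_trans ?_ h2
  have h3 : (n : ℝ) ^ ((1 - ε) * L) ≤ (n : ℝ) ^ ((1 - 8 * δ) * L) := by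
    refine Real.rpow_le_rpow_of_exponent_le hn1 ?_
    have : (1 - ε) ≤ (1 - 8 * δ) := by linarith
    gcongr
  refine le_trans h3 (le_trans hbin ?_)
  rw [div_pow]
  have h4 : ((d - 1).factorial : ℝ) ≤ ((d - 1 : ℕ) : ℝ) ^ (d - 1) := by
    exact_mod_cast Nat.factorial_le_pow (d - 1)
  have h5 : (0 : ℝ) < (d - 1).factorial := by exact_mod_cast Nat.factorial_pos _
  gcongr

theorem upper_asymp (ε : ℝ) (hε : 0 < ε) : ∃ n₀ : ℕ, ∀ n : ℕ, n₀ ≤ n → ∀ s t : Fin n, s ≠ t →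
    ∃ (W : Type) (_ : Fintype W) (N : Network (Fin n) W), N.Invariant s t ∧ N.Monotone ∧
      (∀ G : Set (Fin n × Fin n), N.Accepts G ↔ Reachable G s t) ∧
      (Fintype.card W : ℝ) ≤ (n : ℝ) ^ ((1 + ε) * Real.logb 2 n) := by
  obtain ⟨n₀, hn₀⟩ := exists_nat_ge (max 2 ((2 : ℝ) ^ (6 / ε)))
  refine ⟨n₀, fun n hn s t hst => ?_⟩
  have hn' : max 2 ((2 : ℝ) ^ (6 / ε)) ≤ n := le_trans hn₀ (by exact_mod_cast hn)
  have hn2 : (2 : ℝ) ≤ n := le_trans (le_max_left _ _) hn'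
  have hn2' : 2 ≤ n := by exact_mod_cast hn2
  have hnε : (2 : ℝ) ^ (6 / ε) ≤ n := le_trans (le_max_right _ _) hn'
  have hnpos : (0 : ℝ) < n := by linarith
  set L := Real.logb 2 n with hL
  have hnL : (n : ℝ) = (2 : ℝ) ^ L := (Real.rpow_logb (by norm_num) (by norm_num) hnpos).symm
  have hL1 : 1 ≤ L := by
    rw [hL, Real.le_logb_iff_rpow_le (by norm_num) hnpos, Real.rpow_one]; exact hn2
  have hLε : 6 / ε ≤ L := by
    rw [hL, Real.le_logb_iff_rpow_le (by norm_num) hnpos]; exact hnε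
  have hεL : 6 ≤ ε * L := by
    rw [div_le_iff₀ hε] at hLε; linarith
  set J := Nat.clog 2 n with hJ
  have hJ1 : (J : ℝ) ≤ L + 1 := by
    have h1 : 2 ^ (J - 1) < n := Nat.pow_pred_clog_lt_self (by norm_num) (by omega)
    have h2 : ((2 : ℝ) ^ (J - 1)) ≤ (2 : ℝ) ^ L := by
      rw [← hnL]; exact_mod_cast h1.le
    rw [← Real.rpow_natCast] at h2
    have h3 := (Real.rpow_le_rpow_left_iff (by norm_num : (1 : ℝ) < 2)).mp h2
    have h4 : (J : ℝ) ≤ ((J - 1 : ℕ) : ℝ) + 1 := by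
      have : J ≤ (J - 1) + 1 := by omega
      exact_mod_cast this
    linarith
  refine ⟨St (Fin n) J, inferInstance, savitch s t J, savitch_invariant s t J,
    savitch_monotone s t J, fun G => savitch_accepts (by
      rw [Fintype.card_fin]; exact Nat.le_pow_clog (by norm_num) n) G, ?_⟩
  have h1 : ((Fintype.card (St (Fin n) J) : ℕ) : ℝ) ≤ 2 * (2 * (n : ℝ) + 1) ^ J := by
    have := card_St_le (V := Fin n) J
    rw [Fintype.card_fin] at this
    exact_mod_cast this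
  refine le_trans h1 ?_
  have h2 : 2 * (n : ℝ) + 1 ≤ (2 : ℝ) ^ (L + 2) := by
    rw [Real.rpow_add (by norm_num), ← hnL]
    norm_num
    linarith
  have h3 : (2 * (n : ℝ) + 1) ^ J ≤ (2 : ℝ) ^ ((L + 2) * (L + 1)) := by
    calc (2 * (n : ℝ) + 1) ^ J ≤ ((2 : ℝ) ^ (L + 2)) ^ J := by gcongr
      _ = (2 : ℝ) ^ ((L + 2) * J) := by
          rw [← Real.rpow_natCast, ← Real.rpow_mul (by norm_num)]
      _ ≤ (2 : ℝ) ^ ((L + 2) * (L + 1)) := by
          refine Real.rpow_le_rpow_of_exponent_le (by norm_num) ?_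
          gcongr
  calc 2 * (2 * (n : ℝ) + 1) ^ J ≤ 2 * (2 : ℝ) ^ ((L + 2) * (L + 1)) := by gcongr
    _ = (2 : ℝ) ^ (1 + (L + 2) * (L + 1)) := by
        rw [Real.rpow_add (by norm_num), Real.rpow_one]
    _ ≤ (2 : ℝ) ^ (L * ((1 + ε) * L)) := by
        refine Real.rpow_le_rpow_of_exponent_le (by norm_num) ?_
        nlinarith
    _ = (n : ℝ) ^ ((1 + ε) * L) := by
        rw [Real.rpow_mul (by norm_num), ← hnL]

end Pool.Agent.Lib.Pe46137.Sym
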