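import Pool.Agent.Lib.Pe46137.Nice

/-!
The dual vector does not see juntas.
-/

namespace Pool.Agent.Lib.Pe46137.Sym

open Finset

variable {l : ℕ}

theorem avg_cross_junta {d : ℕ} (hl : 2 ^ d ≤ l) {i : ℕ} (hi : i ≤ l) (Z : Finset (Fin l)) :
    ∀ (T : Finset (Fin l)) (g : (Fin l → Bool) → ℝ),
      (∀ y y', (∀ j ∈ Z, y j = y' j) → g y = g y') → Z.card + T.card + 2 ≤ d →
      avg (fun y => (if Cross i y then vec d y else 0) * (g y * mono T y)) = 0 := by
  induction Z using Finset.induction_on with
  | empty =>
    intro T g hg hc
    have h1 : (fun y : Fin l → Bool => (if Cross i y then vec d y else 0) * (g y * mono T y)) =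
        fun y => g (fun _ => false) * ((if Cross i y then vec d y else 0) * mono T y) := by
      funext y
      rw [hg y (fun _ => false) (fun j hj => absurd hj (notMem_empty j))]
      ring
    rw [h1, avg_const_mul, avg_cross hl hi (by simp at hc; omega), mul_zero]
  | insert z Z hz ih =>
    intro T g hg hc
    rw [card_insert_of_notMem hz] at hc
    set g0 : (Fin l → Bool) → ℝ := fun y => g (Function.update y z false) with hg0
    set g1 : (Fin l → Bool) → ℝ := fun y =>
      g (Function.update y z true) - g (Function.update y z false) with hg1
    have key : ∀ (b : Bool) (y y' : Fin l → Bool), (∀ j ∈ Z, y j = y' j) →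
        g (Function.update y z b) = g (Function.update y' z b) := by
      intro b y y' h
      refine hg _ _ fun j hj => ?_
      by_cases hjz : j = z
      · rw [hjz]; simp
      · rw [Function.update_of_ne hjz, Function.update_of_ne hjz]
        exact h j (mem_of_mem_insert_of_ne hj hjz)
    have h1 : (fun y : Fin l → Bool => (if Cross i y then vec d y else 0) * (g y * mono T y)) =
        fun y => (if Cross i y then vec d y else 0) * (g0 y * mono T y) +
          (if Cross i y then vec d y else 0) * (g1 y * mono (insert z T) y) := by
      funext y
      rw [← ind_mul_mono z]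
      have h2 : g y = g0 y + (if y z then (1 : ℝ) else 0) * g1 y := by
        simp only [hg0, hg1]
        by_cases hy : y z = true
        · rw [if_pos hy]
          have : Function.update y z true = y := by
            rw [← hy]; exact Function.update_eq_self z y
          rw [this]; ring
        · rw [if_neg hy]
          have hy' : y z = false := by simpa using hy
          have : Function.update y z false = y := by
            rw [← hy']; exact Function.update_eq_self z y
          rw [this]; ring
      rw [h2]
      ring
    have hcT : (insert z T).card ≤ T.card + 1 := card_insert_le _ _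
    rw [h1, avg_add, ih T g0 (fun y y' h => key false y y' h) (by omega),
      ih (insert z T) g1 (fun y y' h => by
        simp only [hg1]
        rw [key true y y' h, key false y y' h]) (by omega), add_zero]

theorem avg_gfun_junta {d : ℕ} (hl : 2 ^ d ≤ l) {i : ℕ} (hi : i ≤ l) (Z : Finset (Fin l))
    (g : (Fin l → Bool) → ℝ) (hg : ∀ y y', (∀ j ∈ Z, y j = y' j) → g y = g y')
    (hZ : Z.card + 2 ≤ d) : avg (fun y => gfun d i y * g y) = avg (fun y => vec d y * g y) := by
  have h1 := avg_cross_junta hl hi Z ∅ g hg (by simpa using hZ)
  have h2 : (fun y : Fin l → Bool => gfun d i y * g y) =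
      fun y => vec d y * g y - (if Cross i y then vec d y else 0) * (g y * mono ∅ y) := by
    funext y
    have : mono (∅ : Finset (Fin l)) y = 1 := by simp [mono]
    rw [gfun_eq, this]
    ring
  rw [h2, avg_sub, h1, sub_zero]

end Pool.Agent.Lib.Pe46137.Sym
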