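import Pool.Agent.Lib.Pe46137.Sym.Lower

/-!
The complete layered digraph and its cuts.
-/

namespace Pool.Agent.Lib.Pe46137.Sym

open Finset Equiv

set_option linter.unusedSectionVars false

variable {V : Type*} [Fintype V] [DecidableEq V] {s t : V} {l p : ℕ}

/-- the layer of a vertex: `0` for the source, `l + 1` for the target, `1, …, l` for the vertices
of the grid, `l + 3` for all others -/
noncomputable def lay (ι : Fin l × Fin (2 * p) ↪ Mov s t) : V → ℕ :=
  Function.extend (fun ij => (ι ij : V)) (fun ij => (ij.1 : ℕ) + 1)
    (fun a => if a = s then 0 else if a = t then l + 1 else l + 3)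

variable (ι : Fin l × Fin (2 * p) ↪ Mov s t)

theorem inj_ι : Function.Injective (fun ij => (ι ij : V)) :=
  Subtype.val_injective.comp ι.injective

theorem lay_ι (ij : Fin l × Fin (2 * p)) : lay ι (ι ij) = (ij.1 : ℕ) + 1 :=
  (inj_ι ι).extend_apply _ _ ij

theorem lay_s : lay ι s = 0 := by
  unfold lay
  rw [Function.extend_apply' _ _ _ (by rintro ⟨ij, h⟩; exact (ι ij).2.1 h)]
  simp

theorem lay_t (hst : s ≠ t) : lay ι t = l + 1 := by
  unfold lay
  rw [Function.extend_apply' _ _ _ (by rintro ⟨ij, h⟩; exact (ι ij).2.2 h)]
  simp [hst.symm]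

theorem lay_cases (a : V) : a = s ∨ a = t ∨ (∃ ij, a = ι ij) ∨ lay ι a = l + 3 := by
  by_cases h1 : a = s
  · exact Or.inl h1
  by_cases h2 : a = t
  · exact Or.inr (Or.inl h2)
  by_cases h3 : ∃ ij, (ι ij : V) = a
  · obtain ⟨ij, h⟩ := h3
    exact Or.inr (Or.inr (Or.inl ⟨ij, h.symm⟩))
  · right; right; right
    unfold lay
    rw [Function.extend_apply' _ _ _ h3, if_neg h1, if_neg h2]

theorem exists_of_lay (hst : s ≠ t) {a : V} {i : ℕ} (hi : i < l) (h : lay ι a = i + 1) :
    ∃ j, a = ι (⟨i, hi⟩, j) := by
  rcases lay_cases ι a with h1 | h1 | ⟨ij, h1⟩ | h1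
  · rw [h1, lay_s] at h; omega
  · rw [h1, lay_t ι hst] at h; omega
  · rw [h1, lay_ι] at h
    refine ⟨ij.2, ?_⟩
    rw [h1]
    congr 2
    exact Prod.ext (Fin.ext (by simp only; omega)) rfl
  · omega

/-- the complete layered digraph -/
def K : Set (V × V) := {e | lay ι e.2 = lay ι e.1 + 1}

/-- the arcs of the complete layered digraph that do not leave the cut -/
def Gx (x : V → Bool) : Set (V × V) :=
  {e | lay ι e.2 = lay ι e.1 + 1 ∧ ¬ (x e.1 = true ∧ x e.2 = false)}

theorem Gx_subset (x : V → Bool) : Gx ι x ⊆ K ι := fun _ h => h.1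

theorem acyclic_of_subset {G : Set (V × V)} (h : G ⊆ K ι) : Acyclic G := by
  intro v hv
  have key : ∀ a b, Relation.TransGen (fun a b => (a, b) ∈ G) a b → lay ι a < lay ι b := by
    intro a b hab
    induction hab with
    | single hb =>
      have h1 : lay ι _ = lay ι _ + 1 := h hb
      simp only at h1
      omega
    | tail _ hb ih =>
      have h1 : lay ι _ = lay ι _ + 1 := h hb
      simp only at h1
      omega
  exact absurd (key v v hv) (lt_irrefl _)

theorem reach_K (hst : s ≠ t) (hl : 1 ≤ l) (hp : 1 ≤ p) : Reachable (K ι) s t := by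
  have key : ∀ i (hi : i < l), Reachable (K ι) s (ι (⟨i, hi⟩, ⟨0, by omega⟩)) := by
    intro i
    induction i with
    | zero =>
      intro hi
      refine Relation.ReflTransGen.single ?_
      change lay ι _ = lay ι _ + 1
      simp only
      rw [lay_ι, lay_s]
    | succ i ih =>
      intro hi
      refine (ih (by omega)).tail ?_
      change lay ι _ = lay ι _ + 1
      simp only
      rw [lay_ι, lay_ι]
  refine (key (l - 1) (by omega)).tail ?_
  change lay ι _ = lay ι _ + 1
  simp only
  rw [lay_ι, lay_t ι hst]
  simp only
  omega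

theorem not_reach_Gx {x : V → Bool} (hs : x s = true) (ht : x t = false) :
    ¬ Reachable (Gx ι x) s t := by
  intro h
  have key : ∀ v, Reachable (Gx ι x) s v → x v = true := by
    intro v hv
    induction hv with
    | refl => exact hs
    | tail _ hb ih =>
      by_contra hc
      exact hb.2 ⟨ih, by simpa using hc⟩
  have := key t h
  rw [ht] at this
  exact absurd this (by simp)

/-- a cut with half of the vertices of every layer on the source side -/
structure Bal (x : V → Bool) : Prop where
  hs : x s = true
  ht : x t = false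
  left : ∀ a, lay ι a = l + 3 → x a = false
  cnt : ∀ i < l, (univ.filter (fun a => lay ι a = i + 1 ∧ x a = true)).card = p

theorem card_layer (hst : s ≠ t) {i : ℕ} (hi : i < l) :
    (univ.filter (fun a => lay ι a = i + 1)).card = 2 * p := by
  have : univ.filter (fun a => lay ι a = i + 1) =
      (univ : Finset (Fin (2 * p))).image (fun j => (ι (⟨i, hi⟩, j) : V)) := by
    ext a
    simp only [mem_filter, mem_univ, true_and, mem_image]
    constructor
    · intro h
      obtain ⟨j, hj⟩ := exists_of_lay ι hst hi h
      exact ⟨j, hj.symm⟩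
    · rintro ⟨j, rfl⟩
      rw [lay_ι]
  rw [this, card_image_of_injective, card_univ, Fintype.card_fin]
  intro j j' h
  have := (inj_ι ι) h
  exact (Prod.ext_iff.mp this).2

/-- a balanced cut with prescribed values that are constant on every layer -/
theorem exists_cut (hst : s ≠ t) (Z : Finset V) (hZ : Z.card ≤ p) (y : Fin l → Bool) :
    ∃ x : V → Bool, Bal ι x ∧ ∀ a ∈ Z, x a = ext y (lay ι a) := by
  classical
  have hA : ∀ i : Fin l, ∃ A : Finset V, A ⊆ univ.filter (fun a => lay ι a = (i : ℕ) + 1) ∧
      A.card = p ∧ ∀ a ∈ Z, lay ι a = (i : ℕ) + 1 → (a ∈ A ↔ y i = true) := by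
    intro i
    have hL := card_layer ι hst i.2
    by_cases hy : y i = true
    · obtain ⟨A, h1, h2, h3⟩ := exists_subsuperset_card_eq
        (s := Z ∩ univ.filter (fun a => lay ι a = (i : ℕ) + 1))
        (t := univ.filter (fun a => lay ι a = (i : ℕ) + 1)) (n := p) inter_subset_right
        (le_trans (card_le_card inter_subset_left) hZ) (by rw [hL]; omega)
      refine ⟨A, h2, h3, fun a ha hla => ⟨fun _ => hy, fun _ => h1 ?_⟩⟩
      rw [mem_inter, mem_filter]
      exact ⟨ha, mem_univ _, hla⟩
    · have hc : p ≤ (univ.filter (fun a => lay ι a = (i : ℕ) + 1) \ Z).card := by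
        have := le_card_sdiff Z (univ.filter (fun a => lay ι a = (i : ℕ) + 1))
        omega
      obtain ⟨A, h2, h3⟩ := exists_subset_card_eq hc
      refine ⟨A, h2.trans sdiff_subset, h3, fun a ha _ => ⟨fun h => ?_, fun h => absurd h hy⟩⟩
      exact absurd ha (mem_sdiff.mp (h2 h)).2
  choose A hA1 hA2 hA3 using hA
  have hx : ∀ a, (a ≠ s) → ∀ i : Fin l, lay ι a = (i : ℕ) + 1 →
      ((a = s ∨ ∃ i : Fin l, lay ι a = (i : ℕ) + 1 ∧ a ∈ A i) ↔ a ∈ A i) := by
    intro a ha i hi
    constructor
    · rintro (h | ⟨j, h1, h2⟩)
      · exact absurd h ha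
      · have : j = i := Fin.ext (by omega)
        rw [← this]; exact h2
    · intro h
      exact Or.inr ⟨i, hi, h⟩
  have hnl : ∀ a, (∀ i : Fin l, lay ι a ≠ (i : ℕ) + 1) → a ≠ s →
      ¬ (a = s ∨ ∃ i : Fin l, lay ι a = (i : ℕ) + 1 ∧ a ∈ A i) := by
    rintro a h1 h2 (h | ⟨i, h3, _⟩)
    · exact h2 h
    · exact h1 i h3
  refine ⟨fun a => decide (a = s ∨ ∃ i : Fin l, lay ι a = (i : ℕ) + 1 ∧ a ∈ A i), ?_, ?_⟩
  · refine ⟨by simp, ?_, ?_, ?_⟩
    · rw [decide_eq_false_iff_not]
      refine hnl t (fun i h => ?_) hst.symm
      rw [lay_t ι hst] at h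
      have := i.2
      omega
    · intro a ha
      rw [decide_eq_false_iff_not]
      refine hnl a (fun i h => ?_) (fun h => ?_)
      · have := i.2
        omega
      · rw [h, lay_s] at ha
        omega
    · intro i hi
      have : univ.filter (fun a => lay ι a = i + 1 ∧
          decide (a = s ∨ ∃ i : Fin l, lay ι a = (i : ℕ) + 1 ∧ a ∈ A i) = true) = A ⟨i, hi⟩ := by
        ext a
        simp only [mem_filter, mem_univ, true_and, decide_eq_true_eq]
        constructor
        · rintro ⟨h1, h2⟩
          have has : a ≠ s := by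
            intro h
            rw [h, lay_s] at h1
            omega
          exact (hx a has ⟨i, hi⟩ h1).mp h2
        · intro h
          have h1 := (mem_filter.mp (hA1 _ h)).2
          exact ⟨h1, Or.inr ⟨⟨i, hi⟩, h1, h⟩⟩
      rw [this, hA2]
  · intro a ha
    rcases lay_cases ι a with h1 | h1 | ⟨ij, h1⟩ | h1
    · subst h1
      rw [lay_s, ext_zero]
      simp
    · rw [h1, lay_t ι hst, ext_last y le_rfl, decide_eq_false_iff_not]
      refine hnl t (fun i h => ?_) hst.symm
      rw [lay_t ι hst] at h
      have := i.2
      omega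
    · have hla : lay ι a = (ij.1 : ℕ) + 1 := by rw [h1, lay_ι]
      have has : a ≠ s := by
        intro h
        rw [h, lay_s] at hla
        omega
      rw [hla, ext_succ y ij.1.2]
      have e1 := hx a has ij.1 hla
      have e2 := hA3 ij.1 a ha hla
      simp only [Fin.eta]
      by_cases hy : y ij.1 = true
      · rw [hy, decide_eq_true_eq]
        exact e1.mpr (e2.mpr hy)
      · have hy' : y ij.1 = false := by simpa using hy
        rw [hy', decide_eq_false_iff_not]
        exact fun h => hy (e2.mp (e1.mp h))
    · rw [h1, ext_last y (by omega), decide_eq_false_iff_not]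
      refine hnl a (fun i h => ?_) (fun h => ?_)
      · have := i.2
        omega
      · rw [h, lay_s] at h1
        omega

variable {W : Type*} {N : Network V W}

theorem ren_Gx {π : Perm V} (hπ : ∀ a, lay ι (π a) = lay ι a) (x : V → Bool) :
    ren π (Gx ι x) = Gx ι (fun a => x (π a)) := by
  ext e
  change (lay ι (π e.2) = lay ι (π e.1) + 1 ∧ _) ↔ _
  rw [hπ, hπ]
  rfl

/-- a step that reduces the number of disagreements of two cuts -/
theorem known_congr (hst : s ≠ t) {v : W} {T : Finset (Mov s t)}
    (hT : ∀ a b c, a ∉ T → b ∉ T → c ∉ T → a ≠ b → b ≠ c → a ≠ c → cyc a b c ∈ stab N v)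
    (hTp : T.card + 3 ≤ 2 * p) : ∀ (m : ℕ) (x x' : V → Bool), Bal ι x → Bal ι x' →
      (∀ a ∈ T, x a = x' a) → (univ.filter (fun a => x a ≠ x' a)).card ≤ m →
      (Known N (Gx ι x) v ↔ Known N (Gx ι x') v) := by
  intro m
  induction m using Nat.strong_induction_on with
  | _ m ih =>
    intro x x' hx hx' hag hm
    by_cases hD : ∀ a, x a = x' a
    · have : x = x' := funext hD
      rw [this]
    · push Not at hD
      obtain ⟨a₀, ha₀⟩ := hD
      -- the layer of the disagreement
      obtain ⟨i, hi⟩ : ∃ i : Fin l, lay ι a₀ = (i : ℕ) + 1 := by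
        rcases lay_cases ι a₀ with h1 | h1 | ⟨ij, h1⟩ | h1
        · exact absurd (by rw [h1, hx.hs, hx'.hs]) ha₀
        · exact absurd (by rw [h1, hx.ht, hx'.ht]) ha₀
        · exact ⟨ij.1, by rw [h1, lay_ι]⟩
        · exact absurd (by rw [hx.left _ h1, hx'.left _ h1]) ha₀
      set A := univ.filter (fun a => lay ι a = (i : ℕ) + 1 ∧ x a = true) with hA
      set A' := univ.filter (fun a => lay ι a = (i : ℕ) + 1 ∧ x' a = true) with hA'
      have hcA : A.card = p := hx.cnt i i.2
      have hcA' : A'.card = p := hx'.cnt i i.2
      have hne : A ≠ A' := by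
        intro h
        have h1 : a₀ ∈ A ↔ a₀ ∈ A' := by rw [h]
        simp only [hA, hA', mem_filter, mem_univ, true_and, hi] at h1
        apply ha₀
        cases h2 : x a₀ <;> cases h3 : x' a₀ <;> simp_all
      have h1 : (A \ A').Nonempty := by
        rw [sdiff_nonempty]
        intro h
        exact hne (eq_of_subset_of_card_le h (by omega))
      have h2 : (A' \ A).Nonempty := by
        rw [sdiff_nonempty]
        intro h
        exact hne (eq_of_subset_of_card_le h (by omega)).symm
      obtain ⟨a, ha⟩ := h1
      obtain ⟨b, hb⟩ := h2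
      simp only [hA, hA', mem_sdiff, mem_filter, mem_univ, true_and, not_and] at ha hb
      obtain ⟨⟨hla, hxa⟩, hx'a⟩ := ha
      obtain ⟨⟨hlb, hx'b⟩, hxb⟩ := hb
      have hx'a' : x' a = false := by simpa using hx'a hla
      have hxb' : x b = false := by simpa using hxb hlb
      have hab : a ≠ b := by
        intro h
        rw [h, hxb'] at hxa
        exact absurd hxa (by simp)
      -- a third vertex of the layer
      obtain ⟨c, hcm⟩ : ((univ.filter (fun a => lay ι a = (i : ℕ) + 1)) \
          (insert a (insert b (T.image Subtype.val)))).Nonempty := by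
        rw [← card_pos]
        have h1 := le_card_sdiff (insert a (insert b (T.image Subtype.val)))
          (univ.filter (fun a => lay ι a = (i : ℕ) + 1))
        rw [card_layer ι hst i.2] at h1
        have h2 := card_insert_le a (insert b (T.image Subtype.val))
        have h3 := card_insert_le b (T.image Subtype.val)
        have h4 : (T.image Subtype.val).card ≤ T.card := card_image_le
        omega
      rw [mem_sdiff, mem_filter, mem_insert, mem_insert, not_or, not_or] at hcm
      obtain ⟨⟨_, hlc⟩, hca, hcb, hcT⟩ := hcm
      -- as movable vertices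
      have hmov : ∀ z, lay ι z = (i : ℕ) + 1 → z ≠ s ∧ z ≠ t := by
        intro z hz
        constructor
        · intro h
          rw [h, lay_s] at hz
          omega
        · intro h
          rw [h, lay_t ι hst] at hz
          have := i.2
          omega
      set a' : Mov s t := ⟨a, hmov a hla⟩ with ha'
      set b' : Mov s t := ⟨b, hmov b hlb⟩ with hb'
      set c' : Mov s t := ⟨c, hmov c hlc⟩ with hc'
      have hab' : a' ≠ b' := fun h => hab (congrArg Subtype.val h)
      have hac' : a' ≠ c' := fun h => hca (congrArg Subtype.val h).symm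
      have hbc' : b' ≠ c' := fun h => hcb (congrArg Subtype.val h).symm
      have haT : a' ∉ T := by
        intro h
        have := hag a' h
        simp only [ha'] at this
        rw [hxa, hx'a'] at this
        exact absurd this (by simp)
      have hbT : b' ∉ T := by
        intro h
        have := hag b' h
        simp only [hb'] at this
        rw [hxb', hx'b] at this
        exact absurd this (by simp)
      have hcT' : c' ∉ T := fun h => hcT (mem_image_of_mem _ h)
      -- the renaming
      obtain ⟨π, hπs, hπa, hπb, hπc, hπo⟩ : ∃ π : Perm (Mov s t), π ∈ stab N v ∧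
          x (π a') = false ∧ x (π b') = true ∧ x (π c') = x c' ∧
          (∀ z, z ≠ a' → z ≠ b' → z ≠ c' → π z = z) ∧
          (∀ z, lay ι (π z) = lay ι z) := by
        cases hxc : x c with
        | true =>
          refine ⟨cyc a' b' c', hT a' b' c' haT hbT hcT' hab' hbc' hac', ?_, ?_, ?_, ?_, ?_⟩
          · rw [cyc_a hab' hac']; exact hxb'
          · rw [cyc_b hac' hbc']; exact hxc
          · rw [cyc_c]; simp only [ha', hxa]
          · intro z h1 h2 h3
            exact cyc_other h1 h2 h3
          · intro z
            by_cases h1 : z = a'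
            · rw [h1, cyc_a hab' hac']; simp only [ha', hb']; rw [hla, hlb]
            by_cases h2 : z = b'
            · rw [h2, cyc_b hac' hbc']; simp only [hb', hc']; rw [hlb, hlc]
            by_cases h3 : z = c'
            · rw [h3, cyc_c]; simp only [ha', hc']; rw [hla, hlc]
            · rw [cyc_other h1 h2 h3]
        | false =>
          refine ⟨cyc a' c' b', hT a' c' b' haT hcT' hbT hac' hbc'.symm hab', ?_, ?_, ?_, ?_, ?_⟩
          · rw [cyc_a hac' hab']; exact hxc
          · rw [cyc_c]; exact hxa
          · rw [cyc_b hab' hbc'.symm]; simp only [hb', hxb']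
          · intro z h1 h2 h3
            exact cyc_other h1 h3 h2
          · intro z
            by_cases h1 : z = a'
            · rw [h1, cyc_a hac' hab']; simp only [ha', hc']; rw [hla, hlc]
            by_cases h2 : z = b'
            · rw [h2, cyc_c]; simp only [ha', hb']; rw [hla, hlb]
            by_cases h3 : z = c'
            · rw [h3, cyc_b hab' hbc'.symm]; simp only [hb', hc']; rw [hlb, hlc]
            · rw [cyc_other h1 h3 h2]
      obtain ⟨hπo, hπl⟩ := hπo
      set σ := Perm.ofSubtype π with hσ
      have hσm : ∀ z : Mov s t, σ z = π z := fun z => Perm.ofSubtype_apply_coe π z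
      have hσn : ∀ z : V, ¬ (z ≠ s ∧ z ≠ t) → σ z = z := fun z hz =>
        Perm.ofSubtype_apply_of_not_mem π hz
      have hσl : ∀ z, lay ι (σ z) = lay ι z := by
        intro z
        by_cases hz : z ≠ s ∧ z ≠ t
        · have := hσm ⟨z, hz⟩
          simp only at this
          rw [this]
          exact hπl ⟨z, hz⟩
        · rw [hσn z hz]
      have hσo : ∀ z : V, z ≠ a → z ≠ b → z ≠ c → σ z = z := by
        intro z h1 h2 h3
        by_cases hz : z ≠ s ∧ z ≠ t
        · have := hσm ⟨z, hz⟩
          simp only at this
          rw [this, hπo ⟨z, hz⟩ (fun h => h1 (congrArg Subtype.val h))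
            (fun h => h2 (congrArg Subtype.val h)) (fun h => h3 (congrArg Subtype.val h))]
        · exact hσn z hz
      have hσa : x (σ a) = false := by
        have := hσm a'
        simp only [ha'] at this
        rw [this]; exact hπa
      have hσb : x (σ b) = true := by
        have := hσm b'
        simp only [hb'] at this
        rw [this]; exact hπb
      have hσc : x (σ c) = x c := by
        have := hσm c'
        simp only [hc'] at this
        rw [this]; exact hπc
      have hk1 : Known N (Gx ι x) v ↔ Known N (Gx ι (fun z => x (σ z))) v := by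
        obtain ⟨ρ, hρ, hρv⟩ := hπs
        have := hρ.known (Gx ι x) v
        rw [hρv, ren_Gx ι hσl] at this
        exact this
      rw [hk1]
      have hlt : (univ.filter (fun z => x (σ z) ≠ x' z)).card <
          (univ.filter (fun z => x z ≠ x' z)).card := by
        refine card_lt_card ?_
        rw [ssubset_iff_of_subset]
        · refine ⟨a, ?_, ?_⟩
          · rw [mem_filter, hxa, hx'a']; simp
          · rw [mem_filter, hσa, hx'a']; simp
        · intro z hz
          rw [mem_filter] at hz ⊢
          refine ⟨mem_univ _, ?_⟩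
          by_cases h1 : z = a
          · rw [h1, hxa, hx'a']; simp
          by_cases h2 : z = b
          · rw [h2, hxb', hx'b]; simp
          by_cases h3 : z = c
          · rw [h3] at hz ⊢
            rw [← hσc]; exact hz.2
          · rw [hσo z h1 h2 h3] at hz
            exact hz.2
      refine ih (univ.filter (fun z => x (σ z) ≠ x' z)).card (by omega) _ x' ?_ hx' ?_ le_rfl
      · refine ⟨?_, ?_, ?_, ?_⟩
        · simp only [hσn s (fun h => h.1 rfl)]; exact hx.hs
        · simp only [hσn t (fun h => h.2 rfl)]; exact hx.ht
        · intro z hz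
          exact hx.left _ (by rw [hσl]; exact hz)
        · intro j hj
          refine Eq.trans ?_ (hx.cnt j hj)
          refine card_bijective σ σ.bijective ?_
          intro z
          simp only [mem_filter, mem_univ, true_and, hσl]
      · intro z hz
        have h1 : (z : V) ≠ a := fun h => haT (by
          have : z = a' := Subtype.ext h
          rw [← this]; exact hz)
        have h2 : (z : V) ≠ b := fun h => hbT (by
          have : z = b' := Subtype.ext h
          rw [← this]; exact hz)
        have h3 : (z : V) ≠ c := fun h => hcT' (by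
          have : z = c' := Subtype.ext h
          rw [← this]; exact hz)
        simp only [hσo z h1 h2 h3]
        exact hag z hz

end Pool.Agent.Lib.Pe46137.Sym
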