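import Mathlib

/-!
Subgroups of small index in a symmetric group contain all 3-cycles outside a small set.
-/

namespace Pool.Agent.Lib.Pe46137.Sym

open Finset Equiv

variable {Ω : Type*} [DecidableEq Ω]

omit [DecidableEq Ω] in
theorem app_inv (x : Perm Ω) (z : Ω) : x (x⁻¹ z) = z := by simp

omit [DecidableEq Ω] in
theorem inv_app (x : Perm Ω) (z : Ω) : x⁻¹ (x z) = z := by simp

/-- the 3-cycle `a → b → c → a` -/
def cyc (a b c : Ω) : Perm Ω := swap a b * swap b c

theorem cyc_a {a b c : Ω} (hab : a ≠ b) (hac : a ≠ c) : cyc a b c a = b := by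
  unfold cyc
  rw [Perm.mul_apply, swap_apply_of_ne_of_ne hab hac, swap_apply_left]

theorem cyc_b {a b c : Ω} (hac : a ≠ c) (hbc : b ≠ c) : cyc a b c b = c := by
  unfold cyc
  rw [Perm.mul_apply, swap_apply_left, swap_apply_of_ne_of_ne hac.symm hbc.symm]

theorem cyc_c {a b c : Ω} : cyc a b c c = a := by
  unfold cyc
  rw [Perm.mul_apply, swap_apply_right, swap_apply_right]

theorem cyc_other {a b c z : Ω} (ha : z ≠ a) (hb : z ≠ b) (hc : z ≠ c) : cyc a b c z = z := by
  unfold cyc
  rw [Perm.mul_apply, swap_apply_of_ne_of_ne hb hc, swap_apply_of_ne_of_ne ha hb]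

theorem cyc_conj (g : Perm Ω) (a b c : Ω) : g * cyc a b c * g⁻¹ = cyc (g a) (g b) (g c) := by
  unfold cyc
  rw [swap_apply_apply, swap_apply_apply]
  group

theorem cyc_rot {a b c : Ω} (hab : a ≠ b) (hbc : b ≠ c) (hac : a ≠ c) :
    cyc a b c = cyc b c a := by
  ext z
  by_cases ha : z = a
  · subst ha; rw [cyc_a hab hac, cyc_c]
  by_cases hb : z = b
  · subst hb; rw [cyc_b hac hbc, cyc_a hbc hab.symm]
  by_cases hc : z = c
  · subst hc; rw [cyc_c, cyc_b hab.symm hac.symm]
  · rw [cyc_other ha hb hc, cyc_other hb hc ha]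

theorem cyc_inv {a b c : Ω} (hab : a ≠ b) (hbc : b ≠ c) (hac : a ≠ c) :
    (cyc a b c)⁻¹ = cyc b a c := by
  rw [inv_eq_iff_mul_eq_one]
  ext z
  rw [Perm.mul_apply, Perm.one_apply]
  by_cases ha : z = a
  · subst ha; rw [cyc_b hbc hac, cyc_c]
  by_cases hb : z = b
  · subst hb; rw [cyc_a hab.symm hbc, cyc_a hab hac]
  by_cases hc : z = c
  · subst hc; rw [cyc_c, cyc_b hac hbc]
  · rw [cyc_other hb ha hc, cyc_other ha hb hc]

/-- commutator of two permutations whose supports meet in one point -/
theorem commutator_cyc {x g : Perm Ω} {α : Ω} (hx : x α ≠ α) (hg : g α ≠ α)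
    (h : ∀ z, x z ≠ z → g z ≠ z → z = α) : x * g * x⁻¹ * g⁻¹ = cyc α (x α) (g α) := by
  have hgx : g (x α) = x α := by
    by_contra hc
    have h1 : x (x α) ≠ x α := fun h' => hx (x.injective h')
    exact hx (h _ h1 hc)
  have hxg : x (g α) = g α := by
    by_contra hc
    have h1 : g (g α) ≠ g α := fun h' => hg (g.injective h')
    exact hg (h _ hc h1)
  have hne : x α ≠ g α := by
    intro h'
    apply hx
    apply x.injective
    rw [h', hxg]
  have hxi : ∀ z, x z = z → x⁻¹ z = z := fun z hz => by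
    rw [Perm.inv_eq_iff_eq]; exact hz.symm
  have hgi : ∀ z, g z = z → g⁻¹ z = z := fun z hz => by
    rw [Perm.inv_eq_iff_eq]; exact hz.symm
  ext z
  simp only [Perm.mul_apply]
  by_cases h1 : z = g α
  · subst h1
    rw [cyc_c]
    have e1 : g⁻¹ (g α) = α := by simp
    rw [e1]
    -- x⁻¹ α is moved by x, and is not α, so it is fixed by g
    have e2 : g (x⁻¹ α) = x⁻¹ α := by
      by_contra hc
      have h2 : x (x⁻¹ α) ≠ x⁻¹ α := by
        intro h'
        rw [app_inv] at h'
        apply hx
        conv_lhs => rw [h']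
        rw [app_inv]
      have h3 := h _ h2 hc
      apply hx
      conv_lhs => rw [← h3]
      rw [app_inv]
    rw [e2, app_inv]
  by_cases h2 : z = α
  · subst h2
    rw [cyc_a hx.symm hg.symm]
    -- g⁻¹ z is moved by g and is not z, so it is fixed by x
    have e1 : x (g⁻¹ z) = g⁻¹ z := by
      by_contra hc
      have h2 : g (g⁻¹ z) ≠ g⁻¹ z := by
        intro h'
        rw [app_inv] at h'
        apply hg
        conv_lhs => rw [h']
        rw [app_inv]
      have h3 := h _ hc h2
      apply hg
      conv_lhs => rw [← h3]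
      rw [app_inv]
    rw [hxi _ e1, app_inv]
  by_cases h3 : z = x α
  · subst h3
    rw [cyc_b hg.symm hne]
    have e1 : g⁻¹ (x α) = x α := hgi _ hgx
    rw [e1, inv_app, hxg]
  · rw [cyc_other h2 h3 h1]
    by_cases hgz : g z = z
    · rw [hgi z hgz]
      by_cases hxz : g (x⁻¹ z) = x⁻¹ z
      · rw [hxz, app_inv]
      · exfalso
        have h4 : x (x⁻¹ z) ≠ x⁻¹ z := by
          intro h'
          apply hxz
          rw [app_inv] at h'
          rw [← h']
          exact hgz
        have h5 := h _ h4 hxz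
        apply h3
        rw [← h5, app_inv]
    · have hxz : x z = z := by
        by_contra hc
        exact h2 (h z hc hgz)
      have e1 : g⁻¹ z ≠ α := by
        intro h'
        rw [Perm.inv_eq_iff_eq] at h'
        exact h1 h'
      have e2 : x (g⁻¹ z) = g⁻¹ z := by
        by_contra hc
        have h4 : g (g⁻¹ z) ≠ g⁻¹ z := by
          intro h'
          rw [app_inv] at h'
          apply hgz
          conv_lhs => rw [h']
          rw [app_inv]
        exact e1 (h _ hc h4)
      rw [hxi _ e2, app_inv, hxz]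

/-- a 3-cycle of the subgroup -/
def Tri (H : Subgroup (Perm Ω)) (a b c : Ω) : Prop := a ≠ b ∧ b ≠ c ∧ a ≠ c ∧ cyc a b c ∈ H

variable {H : Subgroup (Perm Ω)}

theorem Tri.rot {a b c : Ω} (h : Tri H a b c) : Tri H b c a := by
  obtain ⟨h1, h2, h3, h4⟩ := h
  exact ⟨h2, h3.symm, h1.symm, by rw [← cyc_rot h1 h2 h3]; exact h4⟩

theorem Tri.flip {a b c : Ω} (h : Tri H a b c) : Tri H b a c := by
  obtain ⟨h1, h2, h3, h4⟩ := h
  exact ⟨h1.symm, h3, h2, by rw [← cyc_inv h1 h2 h3]; exact H.inv_mem h4⟩

theorem Tri.map {a b c : Ω} (h : Tri H a b c) {g : Perm Ω} (hg : g ∈ H) :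
    Tri H (g a) (g b) (g c) := by
  obtain ⟨h1, h2, h3, h4⟩ := h
  exact ⟨fun h => h1 (g.injective h), fun h => h2 (g.injective h), fun h => h3 (g.injective h),
    by rw [← cyc_conj]; exact H.mul_mem (H.mul_mem hg h4) (H.inv_mem hg)⟩

/-- two triples sharing two points -/
theorem Tri.merge2 {a b p c : Ω} (h : Tri H a b p) (h' : Tri H b c p) (hac : a ≠ c) :
    Tri H a b c := by
  have h1 := h.map h'.2.2.2
  -- cyc b c p : b → c → p → b, fixes a
  rw [cyc_other h.1 hac h.2.2.1, cyc_a h'.1 h'.2.2.1, cyc_c] at h1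
  -- h1 : Tri a c b
  exact h1.rot.flip.rot.rot

theorem Tri.trans_aux {a b c p q : Ω} (h : Tri H a b p) (h' : Tri H b c q) (hac : a ≠ c) :
    Tri H a b c := by
  by_cases hpc : p = c
  · rw [hpc] at h; exact h
  by_cases hqa : q = a
  · rw [hqa] at h'; exact h'.rot.rot
  by_cases hpq : p = q
  · rw [← hpq] at h'
    exact h.merge2 h' hac
  · -- five distinct points
    have h1 := h.map h'.2.2.2
    -- cyc b c q : b → c → q → b
    rw [cyc_other h.1 hac (fun h => hqa h.symm), cyc_a h'.1 h'.2.2.1,
      cyc_other h.2.1.symm hpc hpq] at h1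
    -- h1 : Tri a c p ; h : Tri a b p
    have h2 : Tri H b a p := h.flip
    have h3 := h2.merge2 h1 h'.1
    -- Tri b a c
    exact h3.flip

/-- two points moved by a common 3-cycle of the subgroup -/
def Rel (H : Subgroup (Perm Ω)) (a b : Ω) : Prop := a = b ∨ ∃ c, Tri H a b c

theorem Rel.refl (a : Ω) : Rel H a a := Or.inl rfl

theorem Rel.symm {a b : Ω} (h : Rel H a b) : Rel H b a := by
  rcases h with h | ⟨c, h⟩
  · exact Or.inl h.symm
  · exact Or.inr ⟨c, h.flip⟩

theorem Rel.tri {a b c : Ω} (h : Rel H a b) (h' : Rel H b c) (hab : a ≠ b) (hbc : b ≠ c)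
    (hac : a ≠ c) : Tri H a b c := by
  rcases h with h | ⟨p, h⟩
  · exact absurd h hab
  rcases h' with h' | ⟨q, h'⟩
  · exact absurd h' hbc
  · exact h.trans_aux h' hac

theorem Rel.trans {a b c : Ω} (h : Rel H a b) (h' : Rel H b c) : Rel H a c := by
  by_cases hab : a = b
  · rw [hab]; exact h'
  by_cases hbc : b = c
  · rw [← hbc]; exact h
  by_cases hac : a = c
  · exact Or.inl hac
  · exact Or.inr ⟨b, ((h.tri h' hab hbc hac).rot.rot.flip)⟩

theorem Rel.map {a b : Ω} (h : Rel H a b) {g : Perm Ω} (hg : g ∈ H) : Rel H (g a) (g b) := by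
  rcases h with h | ⟨c, h⟩
  · exact Or.inl (by rw [h])
  · exact Or.inr ⟨g c, h.map hg⟩

theorem choose_mono_half {n r k : ℕ} (hrk : r ≤ k) (hk : 2 * k ≤ n) :
    n.choose r ≤ n.choose k := by
  induction k, hrk using Nat.le_induction with
  | base => exact le_rfl
  | succ k _ ih =>
    exact le_trans (ih (by omega)) (Nat.choose_le_succ_of_lt_half_left (by omega))

theorem choose_jump {n r : ℕ} (h : n * ((r + 1) * (r + 2)) ≤ (n - r) * (n - (r + 1))) :
    n.choose r * n ≤ n.choose (r + 2) := by
  have h1 := Nat.choose_succ_right_eq n r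
  have h2 := Nat.choose_succ_right_eq n (r + 1)
  have h3 : n.choose (r + 2) * ((r + 1) * (r + 2)) = n.choose r * ((n - r) * (n - (r + 1))) := by
    calc n.choose (r + 2) * ((r + 1) * (r + 2)) = (n.choose (r + 1 + 1) * (r + 1 + 1)) * (r + 1) := by
          ring
      _ = (n.choose (r + 1) * (n - (r + 1))) * (r + 1) := by rw [h2]
      _ = (n.choose (r + 1) * (r + 1)) * (n - (r + 1)) := by ring
      _ = (n.choose r * (n - r)) * (n - (r + 1)) := by rw [h1]
      _ = n.choose r * ((n - r) * (n - (r + 1))) := by ring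
  have h4 : n.choose r * n * ((r + 1) * (r + 2)) ≤ n.choose (r + 2) * ((r + 1) * (r + 2)) := by
    rw [h3, mul_assoc]
    exact Nat.mul_le_mul_left _ h
  exact Nat.le_of_mul_le_mul_right h4 (by positivity)

variable [Fintype Ω] {W : Type*} [Fintype W]

open scoped Nat in
theorem exists_in (F : Perm Ω → W) (hF : ∀ π π', F π = F π' → π'⁻¹ * π ∈ H) (Y : Finset Ω)
    (hY : Fintype.card W < (Y.card)!) : ∃ π ∈ H, π ≠ 1 ∧ ∀ x ∉ Y, π x = x := by
  obtain ⟨σ, σ', hne, h⟩ := Fintype.exists_ne_map_eq_of_card_lt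
    (fun σ : Perm {x // x ∈ Y} => F (Perm.ofSubtype σ)) (by
      rw [Fintype.card_perm, Fintype.card_coe]; exact hY)
  refine ⟨_, hF _ _ h, ?_, ?_⟩
  · intro h1
    rw [inv_mul_eq_one] at h1
    exact hne (Perm.ofSubtype_injective h1).symm
  · intro x hx
    rw [← map_inv, ← map_mul]
    exact Perm.ofSubtype_apply_of_not_mem _ hx

theorem exists_perm_image (C D : Finset Ω) (h : C.card = D.card) :
    ∃ π : Perm Ω, C.image π = D := by
  classical
  have e : {x // x ∈ C} ≃ {x // x ∈ D} := Finset.equivOfCardEq h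
  refine ⟨Equiv.extendSubtype e, ?_⟩
  refine eq_of_subset_of_card_le ?_ ?_
  · intro z hz
    obtain ⟨w, hw, rfl⟩ := mem_image.mp hz
    exact Equiv.extendSubtype_mem e w hw
  · rw [card_image_of_injective _ (Equiv.injective _), h]

open Classical in
/-- number of images of a class -/
theorem choose_le (F : Perm Ω → W) (hF : ∀ π π', F π = F π' → π'⁻¹ * π ∈ H) (a : Ω) :
    (Fintype.card Ω).choose (univ.filter (fun z => Rel H a z)).card ≤
      Fintype.card W * (Fintype.card Ω / (univ.filter (fun z => Rel H a z)).card) := by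
  set C : Finset Ω := univ.filter (fun z => Rel H a z) with hC
  set n := Fintype.card Ω with hn
  have haC : a ∈ C := by rw [hC, mem_filter]; exact ⟨mem_univ _, Rel.refl a⟩
  have hcpos : 0 < C.card := card_pos.mpr ⟨a, haC⟩
  by_contra hc
  push Not at hc
  choose! f hf using fun (D : Finset Ω) (hD : C.card = D.card) => exists_perm_image C D hD
  have hcard : (powersetCard C.card (univ : Finset Ω)).card = n.choose C.card := by
    rw [card_powersetCard, card_univ]
  obtain ⟨w, _, hw⟩ := exists_lt_card_fiber_of_mul_lt_card_of_maps_to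
    (s := powersetCard C.card (univ : Finset Ω)) (t := (univ : Finset W))
    (f := fun D => F (f D)) (n := n / C.card) (fun _ _ => mem_univ _)
    (by rw [card_univ, hcard]; exact hc)
  set 𝒟 := (powersetCard C.card (univ : Finset Ω)).filter (fun D => F (f D) = w) with h𝒟
  have hmem : ∀ D ∈ 𝒟, C.card = D.card ∧ F (f D) = w := by
    intro D hD
    rw [h𝒟, mem_filter, mem_powersetCard] at hD
    exact ⟨hD.1.2.symm, hD.2⟩
  obtain ⟨D₀, hD₀⟩ : 𝒟.Nonempty := card_pos.mp (lt_of_le_of_lt (Nat.zero_le _) hw)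
  set g : Finset Ω → Perm Ω := fun D => (f D₀)⁻¹ * f D with hg
  have hgH : ∀ D ∈ 𝒟, g D ∈ H := by
    intro D hD
    exact hF _ _ ((hmem D hD).2.trans (hmem D₀ hD₀).2.symm)
  have hgi : ∀ D ∈ 𝒟, (C.image (g D)).image (f D₀) = D := by
    intro D hD
    rw [image_image]
    have : (⇑(f D₀) ∘ ⇑(g D)) = f D := by
      funext z
      simp [hg]
    rw [this]
    exact hf D (hmem D hD).1
  have hcls : ∀ D ∈ 𝒟, ∀ z, z ∈ C.image (g D) ↔ Rel H (g D a) z := by
    intro D hD z
    constructor
    · intro hz
      obtain ⟨u, hu, rfl⟩ := mem_image.mp hz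
      rw [hC, mem_filter] at hu
      exact hu.2.map (hgH D hD)
    · intro hz
      have h1 := hz.map (H.inv_mem (hgH D hD))
      rw [inv_app] at h1
      refine mem_image.mpr ⟨(g D)⁻¹ z, ?_, app_inv _ _⟩
      rw [hC, mem_filter]
      exact ⟨mem_univ _, h1⟩
  have hdisj : ∀ D ∈ 𝒟, ∀ D' ∈ 𝒟, D ≠ D' → Disjoint (C.image (g D)) (C.image (g D')) := by
    intro D hD D' hD' hne
    rw [Finset.disjoint_left]
    intro z hz hz'
    apply hne
    rw [← hgi D hD, ← hgi D' hD']
    congr 1
    ext u
    rw [hcls D hD, hcls D' hD']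
    rw [hcls D hD] at hz
    rw [hcls D' hD'] at hz'
    exact ⟨fun h => hz'.trans (hz.symm.trans h), fun h => hz.trans (hz'.symm.trans h)⟩
  have hsum : 𝒟.card * C.card ≤ n := by
    calc 𝒟.card * C.card = ∑ D ∈ 𝒟, (C.image (g D)).card := by
          rw [sum_congr rfl fun D _ => card_image_of_injective _ (g D).injective, sum_const,
            smul_eq_mul]
      _ = (𝒟.biUnion fun D => C.image (g D)).card := (card_biUnion hdisj).symm
      _ ≤ n := card_le_univ _
  have : 𝒟.card ≤ n / C.card := (Nat.le_div_iff_mul_le hcpos).mpr hsum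
  omega

open scoped Nat Classical in
/-- **Small index forces a small support.** -/
theorem support_theorem (H : Subgroup (Perm Ω)) (F : Perm Ω → W)
    (hF : ∀ π π', F π = F π' → π'⁻¹ * π ∈ H) {r y : ℕ}
    (hW : Fintype.card W < (Fintype.card Ω).choose r) (hy : Fintype.card W < y !)
    (h1 : y * (r + 2) ≤ Fintype.card Ω)
    (h2 : Fintype.card Ω * ((r + 1) * (r + 2)) ≤
      (Fintype.card Ω - r) * (Fintype.card Ω - (r + 1))) :
    ∃ T : Finset Ω, T.card < r ∧ ∀ a b c, a ∉ T → b ∉ T → c ∉ T → a ≠ b → b ≠ c → a ≠ c →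
      cyc a b c ∈ H := by
  set n := Fintype.card Ω with hn
  have hypos : 0 < y := by
    by_contra hc
    have : y = 0 := by omega
    rw [this] at hy
    simp at hy
    have : 0 < Fintype.card W := Fintype.card_pos_iff.mpr ⟨F 1⟩
    omega
  have hfac : ∀ m, y ≤ m → Fintype.card W < m ! := fun m hm =>
    lt_of_lt_of_le hy (Nat.factorial_le hm)
  -- a maximal set without nontrivial elements of `H`
  obtain ⟨E, hE, hEmax⟩ := exists_max_image
    (univ.filter (fun E : Finset Ω => ∀ π ∈ H, (∀ x ∉ E, π x = x) → π = 1)) card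
    ⟨∅, by
      rw [mem_filter]
      exact ⟨mem_univ _, fun π _ h => Equiv.ext fun x => h x (notMem_empty x)⟩⟩
  rw [mem_filter] at hE
  have hE' := hE.2
  have hEcard : E.card < y := by
    by_contra hc
    push Not at hc
    obtain ⟨π, h1, h2, h3⟩ := exists_in F hF E (hfac _ hc)
    exact h2 (hE' π h1 h3)
  have hg : ∀ α, α ∉ E → ∃ g ∈ H, g α ≠ α ∧ ∀ x, x ∉ E → x ≠ α → g x = x := by
    intro α hα
    by_contra hc
    push Not at hc
    have : insert α E ∈ univ.filter (fun E : Finset Ω => ∀ π ∈ H, (∀ x ∉ E, π x = x) → π = 1) := by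
      rw [mem_filter]
      refine ⟨mem_univ _, fun π hπ h => ?_⟩
      by_cases hπα : π α = α
      · refine hE' π hπ fun x hx => ?_
        by_cases hxα : x = α
        · rw [hxα]; exact hπα
        · exact h x (by rw [mem_insert, not_or]; exact ⟨hxα, hx⟩)
      · obtain ⟨x, hx1, hx2, hx3⟩ := hc π hπ hπα
        exact absurd (h x (by rw [mem_insert, not_or]; exact ⟨hx2, hx1⟩)) hx3
    have := hEmax _ this
    rw [card_insert_of_notMem hα] at this
    omega
  -- representatives of the classes
  obtain ⟨X, hX, hXmax⟩ := exists_max_image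
    (univ.filter (fun X : Finset Ω => (∀ a ∈ X, a ∉ E) ∧ ∀ a ∈ X, ∀ b ∈ X, Rel H a b → a = b)) card
    ⟨∅, by
      rw [mem_filter]
      exact ⟨mem_univ _, fun a ha => absurd ha (notMem_empty a),
        fun a ha => absurd ha (notMem_empty a)⟩⟩
  rw [mem_filter] at hX
  obtain ⟨_, hXE, hXrel⟩ := hX
  have hXcard : X.card < y := by
    by_contra hc
    push Not at hc
    obtain ⟨x, hxH, hx1, hxX⟩ := exists_in F hF X (hfac _ hc)
    obtain ⟨α, hα⟩ : ∃ α, x α ≠ α := by
      by_contra hc'
      push Not at hc'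
      exact hx1 (Equiv.ext hc')
    have hαX : α ∈ X := by
      by_contra h
      exact hα (hxX α h)
    have hxαX : x α ∈ X := by
      by_contra h
      exact hα (x.injective (hxX _ h))
    obtain ⟨g, hgH, hgα, hgf⟩ := hg α (hXE α hαX)
    have hmeet : ∀ z, x z ≠ z → g z ≠ z → z = α := by
      intro z hz hz'
      by_contra hzα
      have hzX : z ∈ X := by
        by_contra h
        exact hz (hxX z h)
      exact hz' (hgf z (hXE z hzX) hzα)
    have hcomm := commutator_cyc hα hgα hmeet
    have hcH : cyc α (x α) (g α) ∈ H := by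
      rw [← hcomm]
      exact H.mul_mem (H.mul_mem (H.mul_mem hxH hgH) (H.inv_mem hxH)) (H.inv_mem hgH)
    have hne : x α ≠ g α := by
      intro h
      have h3 : g (g α) ≠ g α := fun h' => hgα (g.injective h')
      have h4 : x (g α) ≠ g α := by
        rw [← h]
        intro h'
        exact hα (x.injective h')
      exact hgα (hmeet _ h4 h3)
    have : Rel H α (x α) := Or.inr ⟨g α, hα.symm, hne, hgα.symm, hcH⟩
    exact hα (hXrel α hαX (x α) hxαX this).symm
  -- a largest class
  have hnpos : 0 < n := lt_of_lt_of_le (by positivity) h1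
  have hne : (univ : Finset Ω).Nonempty := by rw [← card_pos, card_univ]; exact hnpos
  obtain ⟨a₀, _, ha₀⟩ := exists_max_image (univ : Finset Ω)
    (fun a => (univ.filter (fun z => Rel H a z)).card) hne
  set C : Finset Ω := univ.filter (fun z => Rel H a₀ z) with hC
  have hcover : n ≤ E.card + X.card * C.card := by
    have hsub : (univ : Finset Ω) ⊆ E ∪ X.biUnion (fun a => univ.filter (fun z => Rel H a z)) := by
      intro z _
      rw [mem_union, mem_biUnion]
      by_cases hz : z ∈ E
      · exact Or.inl hz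
      · right
        by_contra hc
        push Not at hc
        have hzX : z ∉ X := fun h => hc z h (by rw [mem_filter]; exact ⟨mem_univ _, Rel.refl z⟩)
        have hrel : ∀ a ∈ X, ¬ Rel H a z := fun a ha h =>
          hc a ha (by rw [mem_filter]; exact ⟨mem_univ _, h⟩)
        have : insert z X ∈ univ.filter (fun X : Finset Ω => (∀ a ∈ X, a ∉ E) ∧
            ∀ a ∈ X, ∀ b ∈ X, Rel H a b → a = b) := by
          rw [mem_filter]
          refine ⟨mem_univ _, ?_, ?_⟩
          · intro a ha
            rcases mem_insert.mp ha with h | h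
            · rw [h]; exact hz
            · exact hXE a h
          · intro a ha b hb hab
            rcases mem_insert.mp ha with h | h <;> rcases mem_insert.mp hb with h' | h'
            · rw [h, h']
            · rw [h] at hab
              exact absurd hab.symm (hrel b h')
            · rw [h'] at hab
              exact absurd hab (hrel a h)
            · exact hXrel a h b h' hab
        have := hXmax _ this
        rw [card_insert_of_notMem hzX] at this
        omega
    have := card_le_card hsub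
    rw [card_univ] at this
    refine le_trans this (le_trans (card_union_le _ _) (Nat.add_le_add_left ?_ _))
    exact card_biUnion_le_card_mul _ _ _ fun a _ => ha₀ a (mem_univ a)
  have hcr : r + 2 ≤ C.card := by
    by_contra hc
    push Not at hc
    have h3 : X.card * C.card ≤ (y - 1) * (r + 1) := Nat.mul_le_mul (by omega) (by omega)
    have h4 : (y - 1) * (r + 1) + (y - 1) < y * (r + 2) := by
      obtain ⟨y', rfl⟩ : ∃ y', y = y' + 1 := ⟨y - 1, by omega⟩
      simp only [Nat.add_sub_cancel]
      nlinarith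
    omega
  have hcn : C.card ≤ n := card_le_univ _
  have hch := choose_le F hF a₀
  rw [← hC, ← hn] at hch
  have hcomp : (univ \ C).card = n - C.card := by
    rw [card_sdiff_of_subset (subset_univ _), card_univ]
  refine ⟨univ \ C, ?_, ?_⟩
  · rw [hcomp]
    by_contra hc
    push Not at hc
    by_cases h2c : 2 * C.card ≤ n
    · have h3 : n.choose (r + 2) ≤ n.choose C.card := choose_mono_half hcr h2c
      have h4 := choose_jump h2
      have h5 : Fintype.card W * (n / C.card) ≤ Fintype.card W * n :=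
        Nat.mul_le_mul_left _ (Nat.div_le_self _ _)
      have h6 : Fintype.card W * n < n.choose r * n := Nat.mul_lt_mul_of_pos_right hW hnpos
      omega
    · have h3 : n / C.card = 1 := by
        rw [Nat.div_eq_iff (by omega)]
        omega
      rw [h3, mul_one] at hch
      have h4 : n.choose r ≤ n.choose (n - C.card) := choose_mono_half hc (by omega)
      rw [Nat.choose_symm hcn] at h4
      omega
  · intro a b c ha hb hc hab hbc hac
    have hm : ∀ z, z ∉ univ \ C → Rel H a₀ z := by
      intro z hz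
      have : z ∈ C := by
        by_contra h
        exact hz (mem_sdiff.mpr ⟨mem_univ _, h⟩)
      rw [hC, mem_filter] at this
      exact this.2
    exact (((hm a ha).symm.trans (hm b hb)).tri ((hm b hb).symm.trans (hm c hc)) hab hbc hac).2.2.2

end Pool.Agent.Lib.Pe46137.Sym
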