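import Pool.Agent.Lib.Pe46137.Sym.Defs
import Pool.Agent.Lib.Pe46137.Sym.Support
import Pool.Agent.Lib.Pe46137.Sym.Junta

/-!
The lower bound for invariant networks.
-/

namespace Pool.Agent.Lib.Pe46137.Sym

open Finset Equiv

set_option linter.unusedSectionVars false

/-- renaming of a digraph -/
def ren {V : Type*} (π : Perm V) (G : Set (V × V)) : Set (V × V) := {e | (π e.1, π e.2) ∈ G}

theorem ren_mul {V : Type*} (π π' : Perm V) (G : Set (V × V)) :
    ren (π * π') G = ren π' (ren π G) := rfl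

theorem ren_one {V : Type*} (G : Set (V × V)) : ren (1 : Perm V) G = G := rfl

section lifts

variable {V W : Type*} {N : Network V W}

theorem lifts_one : N.Lifts 1 1 :=
  ⟨rfl, rfl, fun _ _ _ => Iff.rfl, fun _ _ _ _ => Iff.rfl⟩

theorem Network.Lifts.mul {π π' : Perm V} {ρ ρ' : Perm W} (h : N.Lifts π ρ) (h' : N.Lifts π' ρ') :
    N.Lifts (π * π') (ρ * ρ') := by
  refine ⟨?_, ?_, fun v w G => ?_, fun e v w G => ?_⟩
  · rw [Perm.mul_apply, h'.source, h.source]
  · rw [Perm.mul_apply, h'.sink, h.sink]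
  · rw [Perm.mul_apply, Perm.mul_apply, h.free]
    exact h'.free v w (ren π G)
  · have := h.guard (π' e.1, π' e.2) (ρ' v) (ρ' w) G
    exact this.trans (h'.guard e v w (ren π G))

theorem Network.Lifts.inv {π : Perm V} {ρ : Perm W} (h : N.Lifts π ρ) : N.Lifts π⁻¹ ρ⁻¹ := by
  refine ⟨?_, ?_, fun v w G => ?_, fun e v w G => ?_⟩
  · rw [Perm.inv_eq_iff_eq, h.source]
  · rw [Perm.inv_eq_iff_eq, h.sink]
  · have := h.free (ρ⁻¹ v) (ρ⁻¹ w) (ren π⁻¹ G)
    rw [app_inv, app_inv] at this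
    have e1 : {e : V × V | (π e.1, π e.2) ∈ ren π⁻¹ G} = G := by
      change ren π (ren π⁻¹ G) = G
      rw [← ren_mul, inv_mul_cancel, ren_one]
    rw [e1] at this
    exact this.symm
  · have := h.guard (π⁻¹ e.1, π⁻¹ e.2) (ρ⁻¹ v) (ρ⁻¹ w) (ren π⁻¹ G)
    have e1 : {e : V × V | (π e.1, π e.2) ∈ ren π⁻¹ G} = G := by
      change ren π (ren π⁻¹ G) = G
      rw [← ren_mul, inv_mul_cancel, ren_one]
    rw [e1] at this
    simp only [app_inv] at this
    exact this.symm

/-- the state is connected to the source on the input digraph -/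
def Known (N : Network V W) (G : Set (V × V)) (v : W) : Prop :=
  Relation.EqvGen (N.Closed G) N.source v

theorem Network.Lifts.closed {π : Perm V} {ρ : Perm W} (h : N.Lifts π ρ) (G : Set (V × V)) (v w : W) :
    N.Closed G (ρ v) (ρ w) ↔ N.Closed (ren π G) v w := by
  unfold Network.Closed
  refine or_congr (h.free v w G) ⟨?_, ?_⟩
  · rintro ⟨e, he, hg⟩
    refine ⟨(π⁻¹ e.1, π⁻¹ e.2), ?_, ?_⟩
    · change (π (π⁻¹ e.1), π (π⁻¹ e.2)) ∈ G
      rw [app_inv, app_inv]; exact he
    · have := h.guard (π⁻¹ e.1, π⁻¹ e.2) v w G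
      have e2 : (π (π⁻¹ e.1, π⁻¹ e.2).1, π (π⁻¹ e.1, π⁻¹ e.2).2) = e := by
        simp only [app_inv]
      rw [e2] at this
      exact this.mp hg
  · rintro ⟨e, he, hg⟩
    exact ⟨(π e.1, π e.2), he, (h.guard e v w G).mpr hg⟩

theorem Network.Lifts.known {π : Perm V} {ρ : Perm W} (h : N.Lifts π ρ) (G : Set (V × V)) (v : W) :
    Known N G (ρ v) ↔ Known N (ren π G) v := by
  have aux : ∀ (π : Perm V) (ρ : Perm W) (G : Set (V × V)), N.Lifts π ρ → ∀ a b,
      Relation.EqvGen (N.Closed (ren π G)) a b → Relation.EqvGen (N.Closed G) (ρ a) (ρ b) := by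
    intro π ρ G h a b hab
    induction hab with
    | rel x y hxy => exact Relation.EqvGen.rel _ _ ((h.closed G x y).mpr hxy)
    | refl x => exact Relation.EqvGen.refl _
    | symm x y _ ih => exact ih.symm
    | trans x y z _ _ ih1 ih2 => exact ih1.trans _ _ _ ih2
  constructor
  · intro hk
    have e1 : ren π⁻¹ (ren π G) = G := by rw [← ren_mul, mul_inv_cancel, ren_one]
    have := aux π⁻¹ ρ⁻¹ (ren π G) h.inv N.source (ρ v) (by rw [e1]; exact hk)
    rw [h.inv.source, inv_app] at this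
    exact this
  · intro hk
    have := aux π ρ G h N.source v hk
    rw [h.source] at this
    exact this

end lifts

section

variable {V : Type*} [Fintype V] [DecidableEq V] {s t : V}

/-- the movable vertices -/
abbrev Mov (s t : V) := {x : V // x ≠ s ∧ x ≠ t}

variable {W : Type*} [Fintype W]

theorem ofSubtype_fix (π : Perm (Mov s t)) : Perm.ofSubtype π s = s ∧ Perm.ofSubtype π t = t :=
  ⟨Perm.ofSubtype_apply_of_not_mem π (fun h => h.1 rfl),
    Perm.ofSubtype_apply_of_not_mem π (fun h => h.2 rfl)⟩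

/-- the renamings that extend to an automorphism fixing the state -/
def stab (N : Network V W) (v : W) : Subgroup (Perm (Mov s t)) where
  carrier := {π | ∃ ρ, N.Lifts (Perm.ofSubtype π) ρ ∧ ρ v = v}
  mul_mem' := by
    rintro π π' ⟨ρ, h1, h2⟩ ⟨ρ', h1', h2'⟩
    refine ⟨ρ * ρ', ?_, ?_⟩
    · rw [map_mul]; exact h1.mul h1'
    · rw [Perm.mul_apply, h2', h2]
  one_mem' := ⟨1, by rw [map_one]; exact lifts_one, rfl⟩
  inv_mem' := by
    rintro π ⟨ρ, h1, h2⟩
    refine ⟨ρ⁻¹, ?_, ?_⟩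
    · rw [map_inv]; exact h1.inv
    · rw [Perm.inv_eq_iff_eq]; exact h2.symm

open scoped Nat in
theorem exists_supports {N : Network V W} (hN : N.Invariant s t) {r y : ℕ}
    (hW : Fintype.card W < (Fintype.card (Mov s t)).choose r) (hy : Fintype.card W < y !)
    (h1 : y * (r + 2) ≤ Fintype.card (Mov s t))
    (h2 : Fintype.card (Mov s t) * ((r + 1) * (r + 2)) ≤
      (Fintype.card (Mov s t) - r) * (Fintype.card (Mov s t) - (r + 1))) (v : W) :
    ∃ T : Finset (Mov s t), T.card < r ∧ ∀ a b c, a ∉ T → b ∉ T → c ∉ T → a ≠ b → b ≠ c →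
      a ≠ c → cyc a b c ∈ stab N v := by
  choose ρ hρ using fun (π : Perm (Mov s t)) =>
    hN (Perm.ofSubtype π) (ofSubtype_fix π).1 (ofSubtype_fix π).2
  refine support_theorem (stab N v) (fun π => ρ π v) ?_ hW hy h1 h2
  intro π π' h
  refine ⟨(ρ π')⁻¹ * ρ π, ?_, ?_⟩
  · rw [map_mul, map_inv]
    exact (hρ π').inv.mul (hρ π)
  · rw [Perm.mul_apply]
    have h' : ρ π v = ρ π' v := h
    rw [h', inv_app]

end

end Pool.Agent.Lib.Pe46137.Sym
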