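import Pool.Agent.Lib.Pe46137.Sym.Layered

/-!
The lower bound for invariant networks.
-/

namespace Pool.Agent.Lib.Pe46137.Sym

open Finset Equiv

set_option linter.unusedSectionVars false

variable {V : Type*} [Fintype V] [DecidableEq V] {s t : V}
variable {W : Type*} [Fintype W]

open scoped Nat Classical in
theorem lower_param {l p d y : ℕ} (ι : Fin l × Fin (2 * p) ↪ Mov s t) (hst : s ≠ t) (hd : 2 ≤ d)
    (hl : 2 ^ d ≤ l) (hp : 2 * d ≤ p) (N : Network V W) (hN : N.Invariant s t)
    (hdec : ∀ G : Set (V × V), Acyclic G → (N.Accepts G ↔ Reachable G s t))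
    (hy : (Fintype.card (Mov s t)).choose (d - 1) ≤ y !)
    (h1 : y * (d + 1) ≤ Fintype.card (Mov s t))
    (h2 : Fintype.card (Mov s t) * (d * (d + 1)) ≤
      (Fintype.card (Mov s t) - (d - 1)) * (Fintype.card (Mov s t) - d)) :
    (Fintype.card (Mov s t)).choose (d - 1) ≤ Fintype.card W := by
  by_contra hc
  push Not at hc
  have hl1 : 1 ≤ l := le_trans Nat.one_le_two_pow hl
  have hd1 : d - 1 + 1 = d := by omega
  have hd2 : d - 1 + 2 = d + 1 := by omega
  choose T hTc hT using fun v => exists_supports (N := N) hN (r := d - 1) (y := y) hc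
    (lt_of_lt_of_le hc hy) (by rw [hd2]; exact h1) (by rw [hd1, hd2]; exact h2) v
  set Tv : W → Finset V := fun v => (T v).image Subtype.val with hTv
  have hTvc : ∀ v, (Tv v).card ≤ (T v).card := fun v => card_image_le
  -- the truth value of a state as a function of the cut of the layers
  set jj : W → (Fin l → Bool) → ℝ := fun v yy =>
    if ∃ x, Bal ι x ∧ (∀ a ∈ Tv v, x a = ext yy (lay ι a)) ∧ Known N (Gx ι x) v then 1 else 0
    with hjj
  have hwd : ∀ v yy x, Bal ι x → (∀ a ∈ Tv v, x a = ext yy (lay ι a)) →
      jj v yy = if Known N (Gx ι x) v then 1 else 0 := by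
    intro v yy x hx hxa
    have key : (∃ x, Bal ι x ∧ (∀ a ∈ Tv v, x a = ext yy (lay ι a)) ∧ Known N (Gx ι x) v) ↔
        Known N (Gx ι x) v := by
      constructor
      · rintro ⟨x', hx', hxa', hk⟩
        refine (known_congr ι hst (hT v) (by have := hTc v; omega) _ x' x hx' hx ?_ le_rfl).mp hk
        intro a ha
        have := mem_image_of_mem Subtype.val ha
        rw [hxa' a this, hxa a this]
      · intro hk
        exact ⟨x, hx, hxa, hk⟩
    simp only [hjj, key]
  set Z : W → Finset (Fin l) := fun v => univ.filter (fun j => ∃ a ∈ Tv v, lay ι a = (j : ℕ) + 1)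
    with hZ
  have hZc : ∀ v, (Z v).card + 2 ≤ d := by
    intro v
    have h3 : (Z v).card ≤ (Tv v).card := by
      have hex : ∀ j ∈ Z v, ∃ a ∈ Tv v, lay ι a = (j : ℕ) + 1 := fun j hj =>
        (mem_filter.mp hj).2
      have : Nonempty V := ⟨s⟩
      choose! f hf1 hf2 using hex
      refine card_le_card_of_injOn f (fun j hj => hf1 j hj) ?_
      intro i hi j hj hij
      have e1 := hf2 i hi
      have e2 := hf2 j hj
      rw [hij, e2] at e1
      exact Fin.ext (by omega)
    have h4 := hTc v
    have h5 := hTvc v
    omega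
  have hjunta : ∀ v yy yy', (∀ j ∈ Z v, yy j = yy' j) → jj v yy = jj v yy' := by
    intro v yy yy' h
    have : ∀ a ∈ Tv v, ext yy (lay ι a) = ext yy' (lay ι a) := by
      intro a ha
      rcases lay_cases ι a with h1 | h1 | ⟨ij, h1⟩ | h1
      · rw [h1, lay_s, ext_zero, ext_zero]
      · rw [h1, lay_t ι hst, ext_last _ le_rfl, ext_last _ le_rfl]
      · have hla : lay ι a = (ij.1 : ℕ) + 1 := by rw [h1, lay_ι]
        rw [hla, ext_succ yy ij.1.2, ext_succ yy' ij.1.2]
        simp only [Fin.eta]
        refine h ij.1 ?_
        simp only [hZ, mem_filter, mem_univ, true_and]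
        exact ⟨a, ha, hla⟩
      · rw [h1, ext_last _ (by omega), ext_last _ (by omega)]
    simp only [hjj]
    congr 1
    refine propext (exists_congr fun x => and_congr_right fun _ => and_congr_left fun _ => ?_)
    constructor
    · intro h' a ha
      rw [h' a ha, this a ha]
    · intro h' a ha
      rw [h' a ha, this a ha]
  -- closed contacts on the complete layered digraph
  have hstep : ∀ v w, N.Closed (K ι) v w →
      avg (fun yy => vec d yy * jj v yy) = avg (fun yy => vec d yy * jj w yy) := by
    intro v w hvw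
    have hkn : ∀ x, N.Closed (Gx ι x) v w → (Known N (Gx ι x) v ↔ Known N (Gx ι x) w) := by
      intro x hx
      exact ⟨fun h' => h'.trans _ _ _ (Relation.EqvGen.rel _ _ hx),
        fun h' => h'.trans _ _ _ ((Relation.EqvGen.rel _ _ hx).symm _ _)⟩
    have hcard : ∀ e : V × V, (insert e.1 (insert e.2 (Tv v ∪ Tv w))).card ≤ p := by
      intro e
      have e1 := card_insert_le e.1 (insert e.2 (Tv v ∪ Tv w))
      have e2 := card_insert_le e.2 (Tv v ∪ Tv w)
      have e3 := card_union_le (Tv v) (Tv w)
      have e4 := hTvc v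
      have e5 := hTvc w
      have e6 := hTc v
      have e7 := hTc w
      omega
    rcases hvw with hfree | ⟨e, he, hguard⟩
    · congr 1
      funext yy
      obtain ⟨x, hx, hxa⟩ := exists_cut ι hst (insert s (insert t (Tv v ∪ Tv w))) (hcard (s, t)) yy
      rw [hwd v yy x hx (fun a ha => hxa a (by simp [ha])),
        hwd w yy x hx (fun a ha => hxa a (by simp [ha]))]
      have := hkn x (Or.inl (N.free_lower v w (Gx_subset ι x) hfree))
      simp only [this]
    · have hel : lay ι e.1 ≤ l := by
        have he' : lay ι e.2 = lay ι e.1 + 1 := he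
        rcases lay_cases ι e.1 with h1 | h1 | ⟨ij, h1⟩ | h1
        · rw [h1, lay_s]; omega
        · exfalso
          rw [h1, lay_t ι hst] at he'
          rcases lay_cases ι e.2 with h2 | h2 | ⟨ij, h2⟩ | h2
          · rw [h2, lay_s] at he'; omega
          · rw [h2, lay_t ι hst] at he'; omega
          · rw [h2, lay_ι] at he'
            have := ij.1.2
            omega
          · omega
        · rw [h1, lay_ι]
          have := ij.1.2
          omega
        · exfalso
          rcases lay_cases ι e.2 with h2 | h2 | ⟨ij, h2⟩ | h2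
          · rw [h2, lay_s] at he'; omega
          · rw [h2, lay_t ι hst] at he'; omega
          · rw [h2, lay_ι] at he'
            have := ij.1.2
            omega
          · omega
      rw [← avg_gfun_junta hl hel (Z v) (jj v) (hjunta v) (hZc v),
        ← avg_gfun_junta hl hel (Z w) (jj w) (hjunta w) (hZc w)]
      congr 1
      funext yy
      by_cases hcr : Cross (lay ι e.1) yy
      · simp [gfun, hcr]
      · obtain ⟨x, hx, hxa⟩ := exists_cut ι hst (insert e.1 (insert e.2 (Tv v ∪ Tv w)))
          (hcard e) yy
        have he' : lay ι e.2 = lay ι e.1 + 1 := he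
        have hcl : N.Closed (Gx ι x) v w := by
          refine Or.inr ⟨e, ⟨he', ?_⟩, N.guard_lower e v w (Gx_subset ι x) hguard⟩
          rw [hxa e.1 (by simp), hxa e.2 (by simp), he']
          exact hcr
        rw [hwd v yy x hx (fun a ha => hxa a (by simp [ha])),
          hwd w yy x hx (fun a ha => hxa a (by simp [ha]))]
        have := hkn x hcl
        simp only [this]
  have hacc : Relation.EqvGen (N.Closed (K ι)) N.source N.sink :=
    (hdec (K ι) (acyclic_of_subset ι le_rfl)).mpr (reach_K ι hst hl1 (by omega))
  have hall : ∀ v w, Relation.EqvGen (N.Closed (K ι)) v w →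
      avg (fun yy => vec d yy * jj v yy) = avg (fun yy => vec d yy * jj w yy) := by
    intro v w h
    induction h with
    | rel x y h => exact hstep x y h
    | refl x => rfl
    | symm x y _ ih => exact ih.symm
    | trans x y z _ _ ih1 ih2 => exact ih1.trans ih2
  have hfin := hall _ _ hacc
  have hsrc : ∀ yy, jj N.source yy = 1 := by
    intro yy
    obtain ⟨x, hx, hxa⟩ := exists_cut ι hst (Tv N.source) (by
      have := hTvc N.source
      have := hTc N.source
      omega) yy
    rw [hwd _ yy x hx hxa,
      if_pos (show Known N (Gx ι x) N.source from Relation.EqvGen.refl _)]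
  have hsnk : ∀ yy, jj N.sink yy = 0 := by
    intro yy
    obtain ⟨x, hx, hxa⟩ := exists_cut ι hst (Tv N.sink) (by
      have := hTvc N.sink
      have := hTc N.sink
      omega) yy
    rw [hwd _ yy x hx hxa, if_neg]
    intro hk
    exact not_reach_Gx ι hx.hs hx.ht ((hdec _ (acyclic_of_subset ι (Gx_subset ι x))).mp hk)
  simp only [hsrc, hsnk, mul_one, mul_zero] at hfin
  have e1 : avg (fun yy : Fin l → Bool => vec d yy) = 1 := by
    have h3 := avg_vec_mono (d := d) (U := (∅ : Finset (Fin l))) (by simp)
    rw [pe_empty] at h3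
    rw [← h3]
    congr 1
    funext yy
    simp [mono]
  rw [e1, avg_const] at hfin
  exact absurd hfin one_ne_zero

end Pool.Agent.Lib.Pe46137.Sym
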