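import Pool.Agent.Lib.Pe46137.Sym.PriceFinal
import Pool.Agent.Lib.Pe46137.LogForm

/-!
The least number of states of invariant networks: the price of symmetry.
-/

namespace Pool.Agent.Lib.Pe46137.Sym

open Equiv

/-- the smallest number of states of a switching network that decides reachability from `s` to `t`
on all digraphs with vertex set `Fin n` and is invariant over `U` -/
noncomputable def symCost {n : ℕ} (s t : Fin n) (U : Set (Fin n)) : ℕ :=
  sInf {m | ∃ (W : Type) (_ : Fintype W) (N : SwitchingNetwork (Fin n × Fin n) W),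
    Fintype.card W = m ∧ N.InvariantOn U ∧ N.DecidesOn Set.univ s t}

/-- a switching network as a guarded network -/
def toNet {V W : Type*} (N : SwitchingNetwork (V × V) W) : Network V W where
  source := N.source
  sink := N.sink
  free v w := {G | N.wire v w ∨ ∃ e, e ∉ G ∧ N.neg e v w}
  guard e v w := {_G | N.pos e v w}
  free_lower v w := by
    rintro G H hHG (h | ⟨e, he, h⟩)
    · exact Or.inl h
    · exact Or.inr ⟨e, fun h' => he (hHG h'), h⟩
  guard_lower _ _ _ := fun _ _ _ h => h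

theorem toNet_accepts {V W : Type*} (N : SwitchingNetwork (V × V) W) (G : Set (V × V)) :
    (toNet N).Accepts G ↔ N.Connects G Gᶜ := by
  have h : (toNet N).Closed G = N.Closed G Gᶜ := by
    funext v w
    apply propext
    constructor
    · rintro ((h | ⟨e, he, h⟩) | ⟨e, he, h⟩)
      · exact Or.inl h
      · exact Or.inr (Or.inr ⟨e, he, h⟩)
      · exact Or.inr (Or.inl ⟨e, he, h⟩)
    · rintro (h | ⟨e, he, h⟩ | ⟨e, he, h⟩)
      · exact Or.inl (Or.inl h)
      · exact Or.inr ⟨e, he, h⟩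
      · exact Or.inl (Or.inr ⟨e, he, h⟩)
  unfold Network.Accepts SwitchingNetwork.Connects
  rw [h]
  rfl

theorem toNet_lifts {V W : Type*} {N : SwitchingNetwork (V × V) W} {π : Perm V} {ρ : Perm W}
    (h : N.Lifts π ρ) : (toNet N).Lifts π ρ := by
  refine ⟨h.source, h.sink, fun v w G => ?_, fun e v w G => h.pos e v w⟩
  change (N.wire (ρ v) (ρ w) ∨ ∃ e, e ∉ G ∧ N.neg e (ρ v) (ρ w)) ↔
    (N.wire v w ∨ ∃ e : V × V, (π e.1, π e.2) ∉ G ∧ N.neg e v w)
  rw [h.wire]
  constructor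
  · rintro (h1 | ⟨e, he, h1⟩)
    · exact Or.inl h1
    · refine Or.inr ⟨(π⁻¹ e.1, π⁻¹ e.2), by simpa using he, ?_⟩
      have h2 := h.neg (π⁻¹ e.1, π⁻¹ e.2) v w
      have e1 : π (π⁻¹ e.1) = e.1 := by simp
      have e2 : π (π⁻¹ e.2) = e.2 := by simp
      simp only [e1, e2] at h2
      exact h2.1 h1
  · rintro (h1 | ⟨e, he, h1⟩)
    · exact Or.inl h1
    · exact Or.inr ⟨_, he, (h.neg e v w).2 h1⟩

theorem toNet_invariant {V W : Type*} {N : SwitchingNetwork (V × V) W} {U : Set V}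
    (h : N.InvariantOn U) : (toNet N).InvariantOn U := by
  intro π hπ
  obtain ⟨ρ, hρ⟩ := h π hπ
  exact ⟨ρ, toNet_lifts hρ⟩

theorem invariantOn_empty {V W : Type*} (N : SwitchingNetwork (V × V) W) :
    N.InvariantOn ∅ := by
  intro π hπ
  have h : π = 1 := by
    ext x
    exact hπ x (Set.notMem_empty x)
  subst h
  exact ⟨1, rfl, rfl, fun _ _ => Iff.rfl, fun _ _ _ => Iff.rfl, fun _ _ _ => Iff.rfl⟩

theorem symCost_le {n : ℕ} {s t : Fin n} {U : Set (Fin n)} {W : Type} [iW : Fintype W]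
    (N : SwitchingNetwork (Fin n × Fin n) W) (h1 : N.InvariantOn U)
    (h2 : N.DecidesOn Set.univ s t) : symCost s t U ≤ Fintype.card W :=
  Nat.sInf_le ⟨W, iW, N, rfl, h1, h2⟩

theorem symCost_spec_empty {n : ℕ} (s t : Fin n) :
    ∃ (W : Type) (_ : Fintype W) (N : SwitchingNetwork (Fin n × Fin n) W),
      Fintype.card W = symCost s t ∅ ∧ N.DecidesOn Set.univ s t := by
  classical
  have hne : {m | ∃ (W : Type) (_ : Fintype W) (N : SwitchingNetwork (Fin n × Fin n) W),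
      Fintype.card W = m ∧ N.InvariantOn ∅ ∧ N.DecidesOn Set.univ s t}.Nonempty := by
    obtain ⟨N, h1, _⟩ := cost_spec (𝒢 := (Set.univ : Set (Set (Fin n × Fin n)))) s t ∅
    exact ⟨_, _, inferInstance, N, rfl, invariantOn_empty N, h1⟩
  obtain ⟨W, iW, N, h1, _, h3⟩ := Nat.sInf_mem hne
  exact ⟨W, iW, N, h1, h3⟩

theorem symCost_spec {n : ℕ} {s t : Fin n} {U : Finset (Fin n)} (hst : s ≠ t) (hs : s ∉ U)
    (ht : t ∉ U) : ∃ (W : Type) (_ : Fintype W) (N : SwitchingNetwork (Fin n × Fin n) W),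
      Fintype.card W = symCost s t (U : Set (Fin n)) ∧ N.InvariantOn (U : Set (Fin n)) ∧
      N.DecidesOn Set.univ s t := by
  have hne : {m | ∃ (W : Type) (_ : Fintype W) (N : SwitchingNetwork (Fin n × Fin n) W),
      Fintype.card W = m ∧ N.InvariantOn (U : Set (Fin n)) ∧
      N.DecidesOn Set.univ s t}.Nonempty := by
    obtain ⟨W₀, iW, N₀, _, h0⟩ := symCost_spec_empty s t
    obtain ⟨W, iW', N, h1, h2, _, _⟩ := upper_exact (j := Nat.clog 2 (U.card + 2)) hst hs ht N₀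
      (Nat.le_add_right _ _) hst h0 (Nat.le_pow_clog (by norm_num) _)
    exact ⟨_, W, iW', N, rfl, h1, h2⟩
  exact Nat.sInf_mem hne

theorem symCost_mono {n : ℕ} {s t : Fin n} {U : Finset (Fin n)} (hst : s ≠ t) (hs : s ∉ U)
    (ht : t ∉ U) : symCost s t ∅ ≤ symCost s t (U : Set (Fin n)) := by
  obtain ⟨W, iW, N, h1, _, h3⟩ := symCost_spec hst hs ht
  rw [← h1]
  exact symCost_le N (invariantOn_empty N) h3

theorem symCost_upper {n : ℕ} {s t : Fin n} {U : Finset (Fin n)} (hst : s ≠ t) (hs : s ∉ U)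
    (ht : t ∉ U) : symCost s t (U : Set (Fin n)) ≤
      symCost s t ∅ * (2 * (U.card + 2) + 1) ^ (Nat.clog 2 (U.card + 2)) := by
  obtain ⟨W₀, iW, N₀, hc, h0⟩ := symCost_spec_empty s t
  obtain ⟨W, iW', N, h1, h2, _, h4⟩ := upper_exact (j := Nat.clog 2 (U.card + 2)) hst hs ht N₀
    (Nat.le_add_right _ _) hst h0 (Nat.le_pow_clog (by norm_num) _)
  rw [← hc]
  exact le_trans (symCost_le N h1 h2) h4

/-- there are at least as many states as vertices -/
theorem vertices_le_symCost {n : ℕ} {s t : Fin n} (hst : s ≠ t) : n ≤ symCost s t ∅ := by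
  obtain ⟨W, iW, N, hc, h0⟩ := symCost_spec_empty s t
  rw [← hc]
  exact card_le_states hst N (fun G _ => h0 G (Set.mem_univ _))

/-- the price of symmetry: upper and lower bounds with sharp constants -/
theorem symCost_bounds (ε : ℝ) (hε : 0 < ε) (hε1 : ε ≤ 1) : ∃ m₀ : ℕ, ∀ (n : ℕ) (s t : Fin n)
    (U : Finset (Fin n)), s ≠ t → s ∉ U → t ∉ U → m₀ ≤ U.card →
    max (symCost s t ∅ : ℝ) ((U.card : ℝ) ^ ((1 - ε) * Real.logb 2 U.card)) ≤
      symCost s t (U : Set (Fin n)) ∧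
    (symCost s t (U : Set (Fin n)) : ℝ) ≤
      symCost s t ∅ * (U.card : ℝ) ^ ((1 + ε) * Real.logb 2 U.card) := by
  obtain ⟨m₁, h₁⟩ := lower_sym ε hε hε1
  obtain ⟨m₂, h₂⟩ := upper_sym ε hε
  refine ⟨max m₁ m₂, fun n s t U hst hs ht hm => ⟨max_le ?_ ?_, ?_⟩⟩
  · exact_mod_cast symCost_mono hst hs ht
  · obtain ⟨W, iW, N, hc, h2, h3⟩ := symCost_spec hst hs ht
    rw [← hc]
    refine h₁ n s t U hst hs ht (le_trans (le_max_left _ _) hm) W (toNet N) (toNet_invariant h2)
      (fun G _ => ?_)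
    rw [toNet_accepts]
    exact h3 G (Set.mem_univ _)
  · obtain ⟨W₀, iW₀, N₀, hc, h0⟩ := symCost_spec_empty s t
    obtain ⟨W, iW, N, h3, h4, _, h5⟩ := h₂ n s t U hst hs ht (le_trans (le_max_right _ _) hm)
      n s t W₀ N₀ (Nat.le_add_right _ _) hst h0
    rw [← hc]
    refine le_trans ?_ h5
    exact_mod_cast symCost_le N h3 h4

/-- logarithmic form -/
theorem symCost_log : ∃ C : ℝ, 0 < C ∧ ∀ (n : ℕ) (s t : Fin n) (U : Finset (Fin n)),
    s ≠ t → s ∉ U → t ∉ U →
    Real.logb 2 (symCost s t ∅) + (Real.logb 2 U.card) ^ 2 ≤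
      C * Real.logb 2 (symCost s t (U : Set (Fin n))) ∧
    Real.logb 2 (symCost s t (U : Set (Fin n))) ≤
      C * (Real.logb 2 (symCost s t ∅) + (Real.logb 2 U.card) ^ 2) := by
  obtain ⟨m₀, hm₀⟩ := symCost_bounds (1 / 2) (by norm_num) (by norm_num)
  set K : ℝ := Real.logb 2 (((2 * (m₀ + 2) + 1) ^ (Nat.clog 2 (m₀ + 2)) : ℕ) : ℝ) with hK
  have hK0 : 0 ≤ K := by
    apply Real.logb_nonneg (by norm_num)
    exact_mod_cast Nat.one_le_pow _ _ (by omega)
  set L₀ : ℝ := (Real.logb 2 (m₀ + 1 : ℕ)) ^ 2 with hL₀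
  have hL₀0 : 0 ≤ L₀ := sq_nonneg _
  refine ⟨3 + K + L₀, by positivity, fun n s t U hst hs ht => ?_⟩
  have hn2 : 2 ≤ n := by
    have h1 := s.2
    have h2 := t.2
    have h3 : (s : ℕ) ≠ t := fun h => hst (Fin.ext h)
    omega
  have hS2 : 2 ≤ symCost s t ∅ := le_trans hn2 (vertices_le_symCost hst)
  set S := symCost s t ∅ with hS
  set T := symCost s t (U : Set (Fin n)) with hT
  have hST : S ≤ T := symCost_mono hst hs ht
  have hlS : 1 ≤ Real.logb 2 S := by
    have := logb_le_of_le (by norm_num) hS2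
    simpa using this
  have hlT : Real.logb 2 S ≤ Real.logb 2 T := logb_le_of_le (by omega) hST
  have hSpos : (0 : ℝ) < S := by exact_mod_cast (by omega : 0 < S)
  have hTpos : (0 : ℝ) < T := by exact_mod_cast (by omega : 0 < T)
  rcases Nat.lt_or_ge U.card (m₀ + 1) with hm | hm
  · have h1 : (Real.logb 2 U.card) ^ 2 ≤ L₀ := by
      rw [hL₀]
      rcases Nat.eq_zero_or_pos U.card with h | h
      · rw [h]; simp; positivity
      · have h2 : 0 ≤ Real.logb 2 U.card := Real.logb_nonneg (by norm_num) (by exact_mod_cast h)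
        exact pow_le_pow_left₀ h2 (logb_le_of_le h hm.le) 2
    have h2 : Real.logb 2 T ≤ Real.logb 2 S + K := by
      have h3 : T ≤ S * (2 * (m₀ + 2) + 1) ^ (Nat.clog 2 (m₀ + 2)) := by
        refine le_trans (symCost_upper hst hs ht) (Nat.mul_le_mul_left _ ?_)
        calc (2 * (U.card + 2) + 1) ^ (Nat.clog 2 (U.card + 2))
            ≤ (2 * (m₀ + 2) + 1) ^ (Nat.clog 2 (U.card + 2)) :=
              Nat.pow_le_pow_left (by omega) _
          _ ≤ (2 * (m₀ + 2) + 1) ^ (Nat.clog 2 (m₀ + 2)) :=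
              Nat.pow_le_pow_right (by omega) (Nat.clog_mono_right 2 (by omega))
      have h4 := logb_le_of_le (by omega) h3
      rw [Nat.cast_mul, Real.logb_mul hSpos.ne' (by positivity)] at h4
      exact h4
    have h0 : 0 ≤ (Real.logb 2 U.card) ^ 2 := sq_nonneg _
    constructor
    · nlinarith
    · nlinarith
  · obtain ⟨h1, h2⟩ := hm₀ n s t U hst hs ht (by omega)
    have hm1 : (0 : ℝ) < U.card := by exact_mod_cast (by omega : 0 < U.card)
    have h3 : (1 / 2) * (Real.logb 2 U.card) ^ 2 ≤ Real.logb 2 T := by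
      have h4 := le_trans (le_max_right _ _) h1
      have h5 := Real.logb_le_logb_of_le (b := 2) (by norm_num) (by positivity) h4
      rw [Real.logb_rpow_eq_mul_logb_of_pos hm1] at h5
      nlinarith
    have h4 : Real.logb 2 T ≤ Real.logb 2 S + (3 / 2) * (Real.logb 2 U.card) ^ 2 := by
      have h5 := Real.logb_le_logb_of_le (b := 2) (by norm_num) hTpos h2
      rw [Real.logb_mul hSpos.ne' (by positivity),
        Real.logb_rpow_eq_mul_logb_of_pos hm1] at h5
      nlinarith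
    have h0 : 0 ≤ (Real.logb 2 U.card) ^ 2 := sq_nonneg _
    constructor
    · nlinarith
    · nlinarith

/-- polynomial size -/
theorem poly_iff (s t : ∀ n : ℕ, Fin (n + 2)) (U : ∀ n : ℕ, Finset (Fin (n + 2)))
    (hst : ∀ n, s n ≠ t n) (hs : ∀ n, s n ∉ U n) (ht : ∀ n, t n ∉ U n) :
    (∃ c : ℕ, ∀ n, symCost (s n) (t n) (U n : Set (Fin (n + 2))) ≤ (n + 2) ^ c) ↔
    (∃ c : ℕ, ∀ n, symCost (s n) (t n) ∅ ≤ (n + 2) ^ c) ∧
      ∃ c : ℝ, ∀ n, (Real.logb 2 (U n).card) ^ 2 ≤ c * Real.logb 2 ((n + 2 : ℕ) : ℝ) := by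
  obtain ⟨C, hC, hlog⟩ := symCost_log
  have hpos : ∀ n : ℕ, 1 ≤ Real.logb 2 ((n + 2 : ℕ) : ℝ) := by
    intro n
    have := logb_le_of_le (by norm_num) (by omega : 2 ≤ n + 2)
    simpa using this
  constructor
  · rintro ⟨c, hc⟩
    refine ⟨⟨c, fun n => le_trans (symCost_mono (hst n) (hs n) (ht n)) (hc n)⟩, C * c,
      fun n => ?_⟩
    obtain ⟨h1, _⟩ := hlog (n + 2) (s n) (t n) (U n) (hst n) (hs n) (ht n)
    have h2 : 0 ≤ Real.logb 2 (symCost (s n) (t n) ∅) := by
      apply Real.logb_nonneg (by norm_num)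
      have := vertices_le_symCost (hst n)
      exact_mod_cast (by omega : 1 ≤ symCost (s n) (t n) ∅)
    have h3 : 0 < symCost (s n) (t n) (U n : Set (Fin (n + 2))) := by
      have := vertices_le_symCost (hst n)
      have := symCost_mono (hst n) (hs n) (ht n)
      omega
    have h4 := logb_le_of_le h3 (hc n)
    rw [Nat.cast_pow, Real.logb_pow] at h4
    calc (Real.logb 2 (U n).card) ^ 2
        ≤ C * Real.logb 2 (symCost (s n) (t n) (U n : Set (Fin (n + 2)))) := by linarith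
      _ ≤ C * (c * Real.logb 2 ((n + 2 : ℕ) : ℝ)) := mul_le_mul_of_nonneg_left h4 hC.le
      _ = C * c * Real.logb 2 ((n + 2 : ℕ) : ℝ) := by ring
  · rintro ⟨⟨c, hc⟩, c', hc'⟩
    obtain ⟨d, hd⟩ := exists_nat_ge (C * (c + c'))
    refine ⟨d, fun n => ?_⟩
    obtain ⟨_, h1⟩ := hlog (n + 2) (s n) (t n) (U n) (hst n) (hs n) (ht n)
    have h2 : 0 < symCost (s n) (t n) ∅ := by
      have := vertices_le_symCost (hst n)
      omega
    have h3 : 0 < symCost (s n) (t n) (U n : Set (Fin (n + 2))) := by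
      have := symCost_mono (hst n) (hs n) (ht n)
      omega
    have h4 := logb_le_of_le h2 (hc n)
    rw [Nat.cast_pow, Real.logb_pow] at h4
    have h5 : Real.logb 2 (symCost (s n) (t n) (U n : Set (Fin (n + 2)))) ≤
        d * Real.logb 2 ((n + 2 : ℕ) : ℝ) := by
      calc Real.logb 2 (symCost (s n) (t n) (U n : Set (Fin (n + 2))))
          ≤ C * (Real.logb 2 (symCost (s n) (t n) ∅) + (Real.logb 2 (U n).card) ^ 2) := h1
        _ ≤ C * (c * Real.logb 2 ((n + 2 : ℕ) : ℝ) + c' * Real.logb 2 ((n + 2 : ℕ) : ℝ)) :=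
            mul_le_mul_of_nonneg_left (add_le_add h4 (hc' n)) hC.le
        _ = (C * (c + c')) * Real.logb 2 ((n + 2 : ℕ) : ℝ) := by ring
        _ ≤ d * Real.logb 2 ((n + 2 : ℕ) : ℝ) :=
            mul_le_mul_of_nonneg_right hd (by linarith [hpos n])
    have h6 : Real.logb 2 (symCost (s n) (t n) (U n : Set (Fin (n + 2)))) ≤
        Real.logb 2 (((n + 2) ^ d : ℕ) : ℝ) := by
      rw [Nat.cast_pow, Real.logb_pow]
      exact h5
    have h7 := (Real.logb_le_logb (b := 2) (by norm_num) (by exact_mod_cast h3)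
      (by positivity)).1 h6
    exact_mod_cast h7

end Pool.Agent.Lib.Pe46137.Sym
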