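import Pool.Agent.Lib.Pe46137.Sym.Defs
import Pool.Agent.Lib.Pe46137.PriceDefs

/-!
Networks that are invariant under the renamings moving only the vertices of a given set.
-/

namespace Pool.Agent.Lib.Pe46137

/-- the guarded network is invariant over `U`: every renaming of the vertices that moves only
vertices of `U` extends to an automorphism of the network -/
def Sym.Network.InvariantOn {V W : Type*} (N : Sym.Network V W) (U : Set V) : Prop :=
  ∀ π : Equiv.Perm V, (∀ x, x ∉ U → π x = x) → ∃ ρ : Equiv.Perm W, N.Lifts π ρ

namespace SwitchingNetwork

variable {V W : Type*}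

/-- `ρ` is an automorphism of the switching network over the renaming `π` of the vertices: it
fixes source and sink, and there is a contact with a given label between `v` and `w` exactly if
there is one with the renamed label between `ρ v` and `ρ w` -/
structure Lifts (N : SwitchingNetwork (V × V) W) (π : Equiv.Perm V) (ρ : Equiv.Perm W) :
    Prop where
  source : ρ N.source = N.source
  sink : ρ N.sink = N.sink
  wire : ∀ v w, N.wire (ρ v) (ρ w) ↔ N.wire v w
  pos : ∀ e v w, N.pos (π e.1, π e.2) (ρ v) (ρ w) ↔ N.pos e v w
  neg : ∀ e v w, N.neg (π e.1, π e.2) (ρ v) (ρ w) ↔ N.neg e v w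

/-- the switching network is invariant over `U`: every renaming of the vertices that moves only
vertices of `U` extends to an automorphism of the network -/
def InvariantOn (N : SwitchingNetwork (V × V) W) (U : Set V) : Prop :=
  ∀ π : Equiv.Perm V, (∀ x, x ∉ U → π x = x) → ∃ ρ : Equiv.Perm W, N.Lifts π ρ

end SwitchingNetwork

end Pool.Agent.Lib.Pe46137
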