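import Pool.Agent.Lib.Pe46137.Sym.PriceNet

/-!
The upper bound for the price of symmetry.
-/

namespace Pool.Agent.Lib.Pe46137.Sym

open Equiv

theorem upper_exact {n : ℕ} {s t : Fin n} {U : Finset (Fin n)} (hst : s ≠ t) (hs : s ∉ U)
    (ht : t ∉ U) {k : ℕ} {a b : Fin k} {W₀ : Type} [Fintype W₀]
    (N₀ : SwitchingNetwork (Fin k × Fin k) W₀) (hk : n ≤ k + U.card) (hab : a ≠ b)
    (hN : N₀.DecidesOn Set.univ a b) {j : ℕ} (hj : U.card + 2 ≤ 2 ^ j) :
    ∃ (W : Type) (_ : Fintype W) (N : SwitchingNetwork (Fin n × Fin n) W),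
      N.InvariantOn (U : Set (Fin n)) ∧ N.DecidesOn Set.univ s t ∧
      (N₀.Avoids Set.univ → N.Avoids Set.univ) ∧
      Fintype.card W ≤ Fintype.card W₀ * (2 * (U.card + 2) + 1) ^ j := by
  classical
  set D : Finset (Fin n) := insert s (insert t U) with hD
  have hcard : D.card = U.card + 2 := by
    rw [hD, Finset.card_insert_of_notMem, Finset.card_insert_of_notMem ht]
    rw [Finset.mem_insert, not_or]
    exact ⟨hst, hs⟩
  have hDn : U.card + 2 ≤ n := by
    rw [← hcard]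
    exact le_trans (Finset.card_le_univ _) (by rw [Fintype.card_fin])
  obtain ⟨S, hS1, -, hS2⟩ := Finset.exists_subsuperset_card_eq (s := ({a, b} : Finset (Fin k)))
    (t := Finset.univ) (n := n - U.card) (Finset.subset_univ _)
    (by rw [Finset.card_pair hab]; omega) (by rw [Finset.card_univ, Fintype.card_fin]; omega)
  have haS : a ∈ S := hS1 (by simp)
  have hbS : b ∈ S := hS1 (by simp)
  set a' : {x // x ∈ S} := ⟨a, haS⟩ with ha'
  set b' : {x // x ∈ S} := ⟨b, hbS⟩ with hb'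
  have hab' : a' ≠ b' := by
    intro h
    exact hab (congrArg Subtype.val h)
  set N₁ := N₀.pull (Subtype.val : {x // x ∈ S} → Fin k) with hN₁
  have hN1 : N₁.DecidesOn Set.univ a' b' := by
    intro G _
    rw [hN₁, swpull_connects N₀ Subtype.val_injective G, hN _ (Set.mem_univ _)]
    exact reachable_img Subtype.val_injective a' b'
  have hW : 2 ≤ Fintype.card W₀ := by
    have h1 := hN ∅ (Set.mem_univ _)
    have h2 : N₀.source ≠ N₀.sink := by
      intro h
      have h3 : N₀.Connects ∅ ∅ᶜ := by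
        unfold SwitchingNetwork.Connects
        rw [h]
        exact Relation.EqvGen.refl _
      have h4 : Reachable (∅ : Set (Fin k × Fin k)) a b := h1.1 h3
      rcases Relation.ReflTransGen.cases_head h4 with h5 | ⟨c, h5, _⟩
      · exact hab h5
      · exact h5
    exact Fintype.one_lt_card_iff.2 ⟨_, _, h2⟩
  have hcards : Fintype.card {x : {x // x ∈ S} // x ≠ a' ∧ x ≠ b'} =
      Fintype.card {y : Fin n // y ∉ D} := by
    rw [Fintype.card_subtype_compl, Fintype.card_coe, hcard, Fintype.card_fin,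
      Fintype.card_subtype]
    have h1 : Finset.univ.filter (fun x : {x // x ∈ S} => x ≠ a' ∧ x ≠ b') =
        (Finset.univ.erase a').erase b' := by
      ext x
      simp only [Finset.mem_filter, Finset.mem_univ, true_and, Finset.mem_erase, and_true]
      tauto
    rw [h1, Finset.card_erase_of_mem (by simp [hab'.symm]),
      Finset.card_erase_of_mem (Finset.mem_univ _), Finset.card_univ, Fintype.card_coe, hS2]
    omega
  have e := Fintype.equivOfCardEq hcards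
  set r : {x // x ∈ S} → Fin n := fun x =>
    if h : x ≠ a' ∧ x ≠ b' then ((e ⟨x, h⟩ : {y : Fin n // y ∉ D}) : Fin n) else s with hr
  have hr1 : ∀ x, x ≠ a' → x ≠ b' → r x ∉ (D : Set (Fin n)) := by
    intro x h1 h2
    have : r x = ((e ⟨x, h1, h2⟩ : {y : Fin n // y ∉ D}) : Fin n) := dif_pos ⟨h1, h2⟩
    rw [this]
    exact (e ⟨x, h1, h2⟩).2
  have hr2 : ∀ y, y ∉ (D : Set (Fin n)) → ∃ x, x ≠ a' ∧ x ≠ b' ∧ r x = y := by
    intro y hy
    obtain ⟨x, hx⟩ := e.surjective ⟨y, hy⟩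
    refine ⟨x.1, x.2.1, x.2.2, ?_⟩
    have : r x.1 = ((e ⟨x.1, x.2⟩ : {y : Fin n // y ∉ D}) : Fin n) := dif_pos x.2
    rw [this]
    exact congrArg Subtype.val hx
  have hsD : s ∈ (D : Set (Fin n)) := by simp [hD]
  have htD : t ∈ (D : Set (Fin n)) := by simp [hD]
  have hUD : (U : Set (Fin n)) ⊆ (D : Set (Fin n)) := by
    intro x hx
    have : x ∈ U := hx
    simp [hD, this]
  have : Fintype {x : Fin n // x ∈ (D : Set (Fin n))} := Fintype.ofFinite _
  have hcX : Fintype.card {x : Fin n // x ∈ (D : Set (Fin n))} = U.card + 2 := by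
    rw [← hcard, ← Nat.card_eq_fintype_card]
    simp
  refine ⟨StG W₀ {x : Fin n // x ∈ (D : Set (Fin n))} j, inferInstance,
    symNet N₁ (D : Set (Fin n)) a' b' r ⟨s, hsD⟩ ⟨t, htD⟩ j, ?_, ?_, ?_, ?_⟩
  · exact symNet_invariant N₁ hr1 hUD ⟨s, hsD⟩ ⟨t, htD⟩ (fun h => hs h) (fun h => ht h) j
  · exact symNet_decides hab' hN1 hr1 hr2 (by rw [hcX]; exact hj) ⟨s, hsD⟩ ⟨t, htD⟩
  · intro h
    refine symNet_avoids N₁ ?_ _ a' b' r _ _ j
    intro e' _ v w
    exact h _ (Set.mem_univ _) v w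
  · have := card_StG_le (W₀ := W₀) (X := {x : Fin n // x ∈ (D : Set (Fin n))}) hW j
    rw [hcX] at this
    exact this

theorem upper_sym (ε : ℝ) (hε : 0 < ε) : ∃ m₀ : ℕ, ∀ (n : ℕ) (s t : Fin n)
    (U : Finset (Fin n)), s ≠ t → s ∉ U → t ∉ U → m₀ ≤ U.card →
    ∀ (k : ℕ) (a b : Fin k) (W₀ : Type) [Fintype W₀]
      (N₀ : SwitchingNetwork (Fin k × Fin k) W₀), n ≤ k + U.card → a ≠ b →
      N₀.DecidesOn Set.univ a b →
      ∃ (W : Type) (_ : Fintype W) (N : SwitchingNetwork (Fin n × Fin n) W),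
        N.InvariantOn (U : Set (Fin n)) ∧ N.DecidesOn Set.univ s t ∧
        (N₀.Avoids Set.univ → N.Avoids Set.univ) ∧
        (Fintype.card W : ℝ) ≤
          Fintype.card W₀ * (U.card : ℝ) ^ ((1 + ε) * Real.logb 2 U.card) := by
  obtain ⟨n₀, hn₀⟩ := exists_nat_ge (max 4 ((2 : ℝ) ^ (8 / ε)))
  refine ⟨n₀, fun n s t U hst hs ht hm k a b W₀ _ N₀ hk hab hN => ?_⟩
  set m := U.card with hmdef
  have hn' : max 4 ((2 : ℝ) ^ (8 / ε)) ≤ m := le_trans hn₀ (by exact_mod_cast hm)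
  have hn4 : (4 : ℝ) ≤ m := le_trans (le_max_left _ _) hn'
  have hn4' : 4 ≤ m := by exact_mod_cast hn4
  have hnε : (2 : ℝ) ^ (8 / ε) ≤ m := le_trans (le_max_right _ _) hn'
  have hnpos : (0 : ℝ) < m := by linarith
  set L := Real.logb 2 m with hL
  have hnL : (m : ℝ) = (2 : ℝ) ^ L := (Real.rpow_logb (by norm_num) (by norm_num) hnpos).symm
  have hL1 : 1 ≤ L := by
    rw [hL, Real.le_logb_iff_rpow_le (by norm_num) hnpos, Real.rpow_one]; linarith
  have hLε : 8 / ε ≤ L := by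
    rw [hL, Real.le_logb_iff_rpow_le (by norm_num) hnpos]; exact hnε
  have hεL : 8 ≤ ε * L := by
    rw [div_le_iff₀ hε] at hLε; linarith
  set J := Nat.clog 2 (m + 2) with hJ
  have hJ1 : (J : ℝ) ≤ L + 2 := by
    have h1 := Nat.pow_pred_clog_lt_self (b := 2) (by norm_num) (x := m + 2) (by omega)
    rw [Nat.pred_eq_sub_one, ← hJ] at h1
    have h1' : 2 ^ (J - 1) ≤ 2 * m := by omega
    have h2 : ((2 : ℝ) ^ (J - 1)) ≤ (2 : ℝ) ^ (L + 1) := by
      rw [Real.rpow_add (by norm_num), ← hnL, Real.rpow_one, mul_comm]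
      exact_mod_cast h1'
    rw [← Real.rpow_natCast] at h2
    have h3 := (Real.rpow_le_rpow_left_iff (by norm_num : (1 : ℝ) < 2)).mp h2
    have h4 : (J : ℝ) ≤ ((J - 1 : ℕ) : ℝ) + 1 := by
      have : J ≤ (J - 1) + 1 := by omega
      exact_mod_cast this
    linarith
  obtain ⟨W, iW, N, h1, h2, h3, h4⟩ := upper_exact (j := J) hst hs ht N₀ hk hab hN
    (Nat.le_pow_clog (by norm_num) (m + 2))
  refine ⟨W, iW, N, h1, h2, h3, ?_⟩
  have h5 : (Fintype.card W : ℝ) ≤ Fintype.card W₀ * (2 * ((m : ℝ) + 2) + 1) ^ J := by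
    exact_mod_cast h4
  refine le_trans h5 (mul_le_mul_of_nonneg_left ?_ (Nat.cast_nonneg _))
  have h6 : 2 * ((m : ℝ) + 2) + 1 ≤ (2 : ℝ) ^ (L + 2) := by
    have h7 : (2 : ℝ) ^ (L + 2) = (2 : ℝ) ^ L * (2 : ℝ) ^ (2 : ℝ) :=
      Real.rpow_add (by norm_num) _ _
    have h8 : (2 : ℝ) ^ (2 : ℝ) = 4 := by
      rw [Real.rpow_two]; norm_num
    rw [h7, h8, ← hnL]
    linarith
  calc (2 * ((m : ℝ) + 2) + 1) ^ J ≤ ((2 : ℝ) ^ (L + 2)) ^ J :=
        pow_le_pow_left₀ (by linarith) h6 J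
    _ = (2 : ℝ) ^ ((L + 2) * J) := by
        rw [← Real.rpow_natCast, ← Real.rpow_mul (by norm_num)]
    _ ≤ (2 : ℝ) ^ ((L + 2) * (L + 2)) := by
        refine Real.rpow_le_rpow_of_exponent_le (by norm_num) ?_
        gcongr
    _ ≤ (2 : ℝ) ^ (L * ((1 + ε) * L)) := by
        refine Real.rpow_le_rpow_of_exponent_le (by norm_num) ?_
        nlinarith
    _ = (m : ℝ) ^ ((1 + ε) * L) := by
        rw [Real.rpow_mul (by norm_num), ← hnL]

end Pool.Agent.Lib.Pe46137.Sym
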