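import Pool.Agent.Lib.Pe46137.Sym.PriceDefs
import Pool.Agent.Lib.Pe46137.Sym.Final

/-!
The lower bound for networks that are invariant over a set of vertices: restriction to the digraphs
on this set together with the two terminals.
-/

namespace Pool.Agent.Lib.Pe46137.Sym

open Equiv

variable {V V' W : Type*}

/-- the image of a digraph under a map of the vertices -/
def img (j : V' → V) (G : Set (V' × V')) : Set (V × V) :=
  {e | ∃ e' ∈ G, e = (j e'.1, j e'.2)}

theorem mem_img {j : V' → V} {G : Set (V' × V')} {e : V × V} :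
    e ∈ img j G ↔ ∃ e' ∈ G, e = (j e'.1, j e'.2) := Iff.rfl

theorem img_mono {j : V' → V} {G H : Set (V' × V')} (h : G ≤ H) : img j G ≤ img j H := by
  rintro e ⟨e', he', rfl⟩
  exact ⟨e', h he', rfl⟩

theorem reflTrans_img {j : V' → V} {G : Set (V' × V')} {a : V'} {y : V}
    (h : Relation.ReflTransGen (fun p q => (p, q) ∈ img j G) (j a) y)
    (hj : Function.Injective j) : ∃ b, y = j b ∧ Reachable G a b := by
  induction h with
  | refl => exact ⟨a, rfl, Relation.ReflTransGen.refl⟩
  | @tail p q _ hpq ih =>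
    obtain ⟨b, rfl, hb⟩ := ih
    obtain ⟨e', he', h2⟩ := hpq
    rw [Prod.mk.injEq] at h2
    have h3 : b = e'.1 := hj h2.1
    refine ⟨e'.2, h2.2, hb.tail ?_⟩
    rw [h3]
    exact he'

theorem reachable_img {j : V' → V} {G : Set (V' × V')} (hj : Function.Injective j) (a b : V') :
    Reachable (img j G) (j a) (j b) ↔ Reachable G a b := by
  constructor
  · intro h
    obtain ⟨c, hc, h2⟩ := reflTrans_img h hj
    rw [hj hc]
    exact h2
  · intro h
    exact Relation.ReflTransGen.lift j (fun p q hpq => ⟨(p, q), hpq, rfl⟩) _ _ h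

theorem transGen_img {j : V' → V} {G : Set (V' × V')} {x y : V}
    (h : Relation.TransGen (fun p q => (p, q) ∈ img j G) x y)
    (hj : Function.Injective j) :
    ∃ a b, x = j a ∧ y = j b ∧ Relation.TransGen (fun p q => (p, q) ∈ G) a b := by
  induction h with
  | single h =>
    obtain ⟨e', he', h2⟩ := h
    rw [Prod.mk.injEq] at h2
    exact ⟨e'.1, e'.2, h2.1, h2.2, Relation.TransGen.single he'⟩
  | @tail p q _ hpq ih =>
    obtain ⟨a, b, h1, h2, h3⟩ := ih
    obtain ⟨e', he', h4⟩ := hpq
    rw [Prod.mk.injEq] at h4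
    have h5 : b = e'.1 := hj (h2.symm.trans h4.1)
    refine ⟨a, e'.2, h1, h4.2, h3.tail ?_⟩
    rw [h5]
    exact he'

theorem acyclic_img {j : V' → V} {G : Set (V' × V')} (hj : Function.Injective j)
    (h : Acyclic G) : Acyclic (img j G) := by
  intro v hv
  obtain ⟨a, b, h1, h2, h3⟩ := transGen_img hv hj
  have h4 : a = b := hj (h1.symm.trans h2)
  rw [← h4] at h3
  exact h a h3

/-- the restriction of a network to the digraphs on the vertex set `V'` -/
def Network.pull (N : Network V W) (j : V' → V) : Network V' W where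
  source := N.source
  sink := N.sink
  free v w := {G | img j G ∈ N.free v w}
  guard e v w := {G | img j G ∈ N.guard (j e.1, j e.2) v w}
  free_lower v w := fun _ _ h h' => N.free_lower v w (img_mono h) h'
  guard_lower _ v w := fun _ _ h h' => N.guard_lower _ v w (img_mono h) h'

theorem pull_accepts (N : Network V W) (j : V' → V) (G : Set (V' × V')) :
    (N.pull j).Accepts G ↔ N.Accepts (img j G) := by
  have h : (N.pull j).Closed G = N.Closed (img j G) := by
    funext v w
    apply propext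
    constructor
    · rintro (h | ⟨e, he, h⟩)
      · exact Or.inl h
      · exact Or.inr ⟨_, ⟨e, he, rfl⟩, h⟩
    · rintro (h | ⟨e, ⟨e', he', rfl⟩, h⟩)
      · exact Or.inl h
      · exact Or.inr ⟨e', he', h⟩
  unfold Network.Accepts
  rw [h]
  rfl

theorem pull_invariant {N : Network V W} {U : Set V} (hN : N.InvariantOn U) {j : V' → V}
    (hj : Function.Injective j) {s t : V'}
    (hU : ∀ x, x ∈ Set.range j → x ∉ U → x = j s ∨ x = j t) : (N.pull j).Invariant s t := by
  classical
  intro π' hs ht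
  set f : V' ≃ Set.range j := Equiv.ofInjective j hj with hf
  have hfj : ∀ a, ((f a : Set.range j) : V) = j a := fun a => rfl
  set π : Perm V := π'.extendDomain f with hπ
  have h1 : ∀ a, π (j a) = j (π' a) := by
    intro a
    rw [← hfj a, ← hfj (π' a)]
    exact Equiv.Perm.extendDomain_apply_image π' f a
  have h2 : ∀ x, x ∉ Set.range j → π x = x := by
    intro x hx
    exact Equiv.Perm.extendDomain_apply_not_subtype π' f hx
  obtain ⟨ρ, hρ⟩ := hN π (by
    intro x hx
    by_cases hxr : x ∈ Set.range j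
    · rcases hU x hxr hx with h | h
      · rw [h, h1, hs]
      · rw [h, h1, ht]
    · exact h2 x hxr)
  have h3 : ∀ G : Set (V' × V'), {e : V × V | (π e.1, π e.2) ∈ img j G} =
      img j {e | (π' e.1, π' e.2) ∈ G} := by
    intro G
    ext ⟨x, y⟩
    constructor
    · rintro ⟨e', he', h⟩
      rw [Prod.mk.injEq] at h
      have e1 : x = j (π'⁻¹ e'.1) := by
        apply π.injective
        rw [h1, h.1]
        simp
      have e2 : y = j (π'⁻¹ e'.2) := by
        apply π.injective
        rw [h1, h.2]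
        simp
      refine ⟨(π'⁻¹ e'.1, π'⁻¹ e'.2), ?_, by rw [e1, e2]⟩
      simpa using he'
    · rintro ⟨e', he', h⟩
      rw [Prod.mk.injEq] at h
      refine ⟨_, he', ?_⟩
      simp only
      rw [h.1, h.2, h1, h1]
  refine ⟨ρ, hρ.source, hρ.sink, fun v w G => ?_, fun e v w G => ?_⟩
  · change img j G ∈ N.free (ρ v) (ρ w) ↔ img j _ ∈ N.free v w
    rw [hρ.free, h3]
  · change img j G ∈ N.guard (j (π' e.1), j (π' e.2)) (ρ v) (ρ w) ↔
      img j _ ∈ N.guard (j e.1, j e.2) v w
    have h4 := hρ.guard (j e.1, j e.2) v w (img j G)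
    rw [h1, h1, h3] at h4
    exact h4

theorem lower_sym (ε : ℝ) (hε : 0 < ε) (hε1 : ε ≤ 1) : ∃ m₀ : ℕ, ∀ (n : ℕ) (s t : Fin n)
    (U : Finset (Fin n)), s ≠ t → s ∉ U → t ∉ U → m₀ ≤ U.card →
    ∀ (W : Type) [Fintype W] (N : Network (Fin n) W), N.InvariantOn (U : Set (Fin n)) →
      (∀ G : Set (Fin n × Fin n), Acyclic G → (N.Accepts G ↔ Reachable G s t)) →
      (U.card : ℝ) ^ ((1 - ε) * Real.logb 2 U.card) ≤ Fintype.card W := by
  classical
  obtain ⟨n₀, hn₀⟩ := lower_asymp ε hε
  refine ⟨max n₀ 2, fun n s t U hst hs ht hm W _ N hN hdec => ?_⟩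
  set D : Finset (Fin n) := insert s (insert t U) with hD
  have hcard : D.card = U.card + 2 := by
    rw [hD, Finset.card_insert_of_notMem, Finset.card_insert_of_notMem ht]
    rw [Finset.mem_insert, not_or]
    exact ⟨hst, hs⟩
  have e : Fin (U.card + 2) ≃ {x // x ∈ D} := (Finset.equivFinOfCardEq hcard).symm
  set j : Fin (U.card + 2) → Fin n := fun a => (e a : Fin n) with hj
  have hinj : Function.Injective j := fun a b h => e.injective (Subtype.ext h)
  have hsD : s ∈ D := by rw [hD]; exact Finset.mem_insert_self _ _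
  have htD : t ∈ D := by rw [hD]; exact Finset.mem_insert_of_mem (Finset.mem_insert_self _ _)
  set s' := e.symm ⟨s, hsD⟩ with hs'
  set t' := e.symm ⟨t, htD⟩ with ht'
  have js : j s' = s := by rw [hj, hs']; simp
  have jt : j t' = t := by rw [hj, ht']; simp
  have hst' : s' ≠ t' := by
    intro h
    apply hst
    rw [← js, ← jt, h]
  have hn : n₀ ≤ U.card + 2 := le_trans (le_max_left _ _) (le_trans hm (Nat.le_add_right _ _))
  have h := hn₀ (U.card + 2) hn s' t' hst' W (N.pull j) (pull_invariant hN hinj (by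
    rintro x ⟨a, rfl⟩ hx
    have h1 : j a ∈ D := (e a).2
    rw [hD, Finset.mem_insert, Finset.mem_insert] at h1
    rcases h1 with h1 | h1 | h1
    · left; rw [js]; exact h1
    · right; rw [jt]; exact h1
    · exact absurd (Finset.mem_coe.2 h1) hx)) (by
    intro G hG
    rw [pull_accepts, hdec _ (acyclic_img hinj hG), ← js, ← jt, reachable_img hinj])
  refine le_trans ?_ h
  have hm2 : 2 ≤ U.card := le_trans (le_max_right _ _) hm
  have h1 : (1 : ℝ) ≤ U.card := by exact_mod_cast (by omega : 1 ≤ U.card)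
  have h0 : (0 : ℝ) < U.card := by linarith
  have h2 : (U.card : ℝ) ≤ ((U.card + 2 : ℕ) : ℝ) := by push_cast; linarith
  have h3 : Real.logb 2 U.card ≤ Real.logb 2 ((U.card + 2 : ℕ) : ℝ) :=
    Real.logb_le_logb_of_le (by norm_num) h0 h2
  have h4 : 0 ≤ Real.logb 2 U.card := Real.logb_nonneg (by norm_num) h1
  have h5 : 0 ≤ 1 - ε := by linarith
  calc (U.card : ℝ) ^ ((1 - ε) * Real.logb 2 U.card)
      ≤ ((U.card + 2 : ℕ) : ℝ) ^ ((1 - ε) * Real.logb 2 U.card) :=
        Real.rpow_le_rpow h0.le h2 (mul_nonneg h5 h4)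
    _ ≤ ((U.card + 2 : ℕ) : ℝ) ^ ((1 - ε) * Real.logb 2 ((U.card + 2 : ℕ) : ℝ)) := by
        refine Real.rpow_le_rpow_of_exponent_le (le_trans h1 h2) ?_
        exact mul_le_mul_of_nonneg_left h3 h5

end Pool.Agent.Lib.Pe46137.Sym
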