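import Pool.Agent.Lib.Pe46137.Sym.PriceUp

/-!
The network of the upper bound.
-/

namespace Pool.Agent.Lib.Pe46137

/-- the restriction of a switching network to the digraphs on the vertex set `V'` -/
def SwitchingNetwork.pull {V V' W : Type*} (N : SwitchingNetwork (V × V) W) (j : V' → V) :
    SwitchingNetwork (V' × V') W where
  source := N.source
  sink := N.sink
  wire v w := N.wire v w ∨ ∃ e : V × V, (∀ e' : V' × V', e ≠ (j e'.1, j e'.2)) ∧ N.neg e v w
  pos e v w := N.pos (j e.1, j e.2) v w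
  neg e v w := N.neg (j e.1, j e.2) v w

namespace Sym

open Equiv

theorem swpull_connects {V V' W : Type*} (N : SwitchingNetwork (V × V) W) {j : V' → V}
    (hj : Function.Injective j) (G : Set (V' × V')) :
    (N.pull j).Connects G Gᶜ ↔ N.Connects (img j G) (img j G)ᶜ := by
  have h : (N.pull j).Closed G Gᶜ = N.Closed (img j G) (img j G)ᶜ := by
    funext v w
    apply propext
    constructor
    · rintro ((h | ⟨e, he, h⟩) | ⟨e, he, h⟩ | ⟨e, he, h⟩)
      · exact Or.inl h
      · refine Or.inr (Or.inr ⟨e, ?_, h⟩)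
        rintro ⟨e', -, he'⟩
        exact he e' he'
      · exact Or.inr (Or.inl ⟨_, ⟨e, he, rfl⟩, h⟩)
      · refine Or.inr (Or.inr ⟨_, ?_, h⟩)
        rintro ⟨e', he', h2⟩
        rw [Prod.mk.injEq] at h2
        apply he
        have h3 : e = e' := Prod.ext (hj h2.1) (hj h2.2)
        rw [h3]
        exact he'
    · rintro (h | ⟨e, ⟨e', he', rfl⟩, h⟩ | ⟨e, he, h⟩)
      · exact Or.inl (Or.inl h)
      · exact Or.inr (Or.inl ⟨e', he', h⟩)
      · by_cases hc : ∃ e' : V' × V', e = (j e'.1, j e'.2)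
        · obtain ⟨e', rfl⟩ := hc
          refine Or.inr (Or.inr ⟨e', ?_, h⟩)
          intro h2
          exact he ⟨e', h2, rfl⟩
        · push Not at hc
          exact Or.inl (Or.inr ⟨e, hc, h⟩)
  unfold SwitchingNetwork.Connects
  rw [h]
  rfl

section

variable {V K : Type}

open Classical in
/-- the vertices `a`, `b` of `K` are sent to `u`, `v`, the others are sent by `r` -/
noncomputable def iota (a b : K) (r : K → V) (u v : V) : K → V :=
  fun k => if k = a then u else if k = b then v else r k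

theorem iota_a {a b : K} {r : K → V} {u v : V} : iota a b r u v a = u := if_pos rfl

theorem iota_b {a b : K} (hab : a ≠ b) {r : K → V} {u v : V} : iota a b r u v b = v := by
  rw [iota, if_neg hab.symm, if_pos rfl]

theorem iota_r {a b k : K} (ha : k ≠ a) (hb : k ≠ b) {r : K → V} {u v : V} :
    iota a b r u v k = r k := by
  rw [iota, if_neg ha, if_neg hb]

theorem iota_ne_b {a b k : K} (hb : k ≠ b) {r : K → V} {u v v' : V} :
    iota a b r u v k = iota a b r u v' k := by
  by_cases ha : k = a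
  · rw [ha, iota_a, iota_a]
  · rw [iota_r ha hb, iota_r ha hb]

/-- the digraph on `K` induced by `G` -/
def subG (a b : K) (r : K → V) (G : Set (V × V)) (u v : V) : Set (K × K) :=
  {e | (iota a b r u v e.1, iota a b r u v e.2) ∈ G}

/-- `v` is reachable from `u` by a walk with inner vertices in the range of `r` -/
def GX (D : Set V) (a b : K) (r : K → V) (G : Set (V × V)) :
    Set ({x : V // x ∈ D} × {x : V // x ∈ D}) :=
  {p | Reachable (subG a b r G p.1 p.2) a b}

theorem reach_GX {D : Set V} {a b : K} (hab : a ≠ b) {r : K → V}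
    (hr1 : ∀ k, k ≠ a → k ≠ b → r k ∉ D) (hr2 : ∀ y, y ∉ D → ∃ k, k ≠ a ∧ k ≠ b ∧ r k = y)
    (G : Set (V × V)) (u v : {x : V // x ∈ D}) :
    Reachable (GX D a b r G) u v ↔ Reachable G (u : V) (v : V) := by
  constructor
  · intro h
    induction h with
    | refl => exact Relation.ReflTransGen.refl
    | @tail p q _ hpq ih =>
      refine ih.trans ?_
      have h1 : Reachable (subG a b r G p q) a b := hpq
      have h2 := Relation.ReflTransGen.lift (p := fun x y => (x, y) ∈ G)
        (iota a b r (p : V) (q : V)) (fun x y hxy => hxy) _ _ h1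
      have h3 : Reachable G (iota a b r (p : V) (q : V) a) (iota a b r (p : V) (q : V) b) := h2
      rw [iota_a, iota_b hab] at h3
      exact h3
  · intro h
    have key : ∀ y : V, Reachable G (u : V) y → ∃ w : {x : V // x ∈ D},
        Reachable (GX D a b r G) u w ∧ ∃ k : K, k ≠ b ∧ ∀ v : {x : V // x ∈ D},
          iota a b r (w : V) (v : V) k = y ∧ Reachable (subG a b r G (w : V) (v : V)) a k := by
      intro y hy
      induction hy with
      | refl => exact ⟨u, Relation.ReflTransGen.refl, a, hab, fun v =>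
          ⟨iota_a, Relation.ReflTransGen.refl⟩⟩
      | @tail p q _ hpq ih =>
        obtain ⟨w, hw, k, hkb, hk⟩ := ih
        by_cases hq : q ∈ D
        · refine ⟨⟨q, hq⟩, hw.tail ?_, a, hab, fun v => ⟨iota_a, Relation.ReflTransGen.refl⟩⟩
          change Reachable (subG a b r G (w : V) q) a b
          obtain ⟨h1, h2⟩ := hk ⟨q, hq⟩
          refine h2.tail ?_
          change (iota a b r (w : V) q k, iota a b r (w : V) q b) ∈ G
          rw [iota_b hab]
          have h1' : iota a b r (w : V) q k = p := h1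
          rw [h1']
          exact hpq
        · obtain ⟨k', h1, h2, h3⟩ := hr2 q hq
          refine ⟨w, hw, k', h2, fun v => ⟨?_, ?_⟩⟩
          · rw [iota_r h1 h2, h3]
          · refine (hk v).2.tail ?_
            change (iota a b r (w : V) (v : V) k, iota a b r (w : V) (v : V) k') ∈ G
            rw [(hk v).1, iota_r h1 h2, h3]
            exact hpq
    obtain ⟨w, hw, k, hkb, hk⟩ := key v h
    obtain ⟨h1, h2⟩ := hk u
    by_cases hka : k = a
    · rw [hka, iota_a] at h1
      have h3 : w = v := Subtype.ext h1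
      rw [← h3]
      exact hw
    · rw [iota_r hka hkb] at h1
      exfalso
      apply hr1 k hka hkb
      rw [h1]
      exact v.2

variable {W₀ : Type}

/-- base contacts that are permanently closed -/
def Bw (N₀ : SwitchingNetwork (K × K) W₀) (D : Set V) (u v : {x : V // x ∈ D}) (z z' : W₀) :
    Prop :=
  (u = v ∧ z = N₀.source ∧ z' = N₀.sink) ∨ (u ≠ v ∧ N₀.wire z z')

/-- base contacts labelled by variables -/
def Bp (N₀ : SwitchingNetwork (K × K) W₀) (D : Set V) (a b : K) (r : K → V) (e : V × V)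
    (u v : {x : V // x ∈ D}) (z z' : W₀) : Prop :=
  u ≠ v ∧ ∃ e₀ : K × K, e = (iota a b r (u : V) (v : V) e₀.1, iota a b r (u : V) (v : V) e₀.2) ∧
    N₀.pos e₀ z z'

/-- base contacts labelled by negated variables -/
def Bn (N₀ : SwitchingNetwork (K × K) W₀) (D : Set V) (a b : K) (r : K → V) (e : V × V)
    (u v : {x : V // x ∈ D}) (z z' : W₀) : Prop :=
  u ≠ v ∧ ∃ e₀ : K × K, e = (iota a b r (u : V) (v : V) e₀.1, iota a b r (u : V) (v : V) e₀.2) ∧
    N₀.neg e₀ z z'

/-- the recursive network -/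
def symNet (N₀ : SwitchingNetwork (K × K) W₀) (D : Set V) (a b : K) (r : K → V)
    (s t : {x : V // x ∈ D}) (j : ℕ) :
    SwitchingNetwork (V × V) (StG W₀ {x : V // x ∈ D} j) where
  source := sttG _ N₀.source j
  sink := ennG _ N₀.sink j
  wire := Rec True N₀.source N₀.sink (Bw N₀ D) j s t
  pos e := Rec False N₀.source N₀.sink (Bp N₀ D a b r e) j s t
  neg e := Rec False N₀.source N₀.sink (Bn N₀ D a b r e) j s t

/-- all closed base contacts -/
def BG (N₀ : SwitchingNetwork (K × K) W₀) (D : Set V) (a b : K) (r : K → V) (G : Set (V × V))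
    (u v : {x : V // x ∈ D}) (z z' : W₀) : Prop :=
  Bw N₀ D u v z z' ∨ ∃ i : {e // e ∈ G} ⊕ {e // e ∈ Gᶜ},
    Sum.elim (fun e : {e // e ∈ G} => Bp N₀ D a b r e.1)
      (fun e : {e // e ∈ Gᶜ} => Bn N₀ D a b r e.1) i u v z z'

theorem BG_connected {N₀ : SwitchingNetwork (K × K) W₀} {D : Set V} {a b : K} {r : K → V}
    (hN : N₀.DecidesOn Set.univ a b) (G : Set (V × V)) (u v : {x : V // x ∈ D}) :
    Relation.EqvGen (BG N₀ D a b r G u v) N₀.source N₀.sink ↔
      (u = v ∨ (u, v) ∈ GX D a b r G) := by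
  by_cases huv : u = v
  · refine ⟨fun _ => Or.inl huv, fun _ => ?_⟩
    exact Relation.EqvGen.rel _ _ (Or.inl (Or.inl ⟨huv, rfl, rfl⟩))
  · have h : BG N₀ D a b r G u v =
        N₀.Closed (subG a b r G (u : V) (v : V)) (subG a b r G (u : V) (v : V))ᶜ := by
      funext z z'
      apply propext
      constructor
      · rintro ((⟨h1, _⟩ | ⟨_, h⟩) | ⟨i | i, hi⟩)
        · exact absurd h1 huv
        · exact Or.inl h
        · obtain ⟨_, e₀, h1, h2⟩ : Bp N₀ D a b r i.1 u v z z' := hi
          refine Or.inr (Or.inl ⟨e₀, ?_, h2⟩)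
          change (_, _) ∈ G
          rw [← h1]
          exact i.2
        · obtain ⟨_, e₀, h1, h2⟩ : Bn N₀ D a b r i.1 u v z z' := hi
          refine Or.inr (Or.inr ⟨e₀, ?_, h2⟩)
          change ¬ ((_, _) ∈ G)
          rw [← h1]
          exact i.2
      · rintro (h | ⟨e₀, h1, h2⟩ | ⟨e₀, h1, h2⟩)
        · exact Or.inl (Or.inr ⟨huv, h⟩)
        · exact Or.inr ⟨Sum.inl ⟨_, h1⟩, huv, e₀, rfl, h2⟩
        · exact Or.inr ⟨Sum.inr ⟨_, h1⟩, huv, e₀, rfl, h2⟩
    rw [h]
    have h2 := hN (subG a b r G (u : V) (v : V)) (Set.mem_univ _)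
    unfold SwitchingNetwork.Connects at h2
    rw [h2]
    constructor
    · intro h3
      exact Or.inr h3
    · rintro (h3 | h3)
      · exact absurd h3 huv
      · exact h3

theorem symNet_decides {N₀ : SwitchingNetwork (K × K) W₀} {D : Set V} {a b : K} (hab : a ≠ b)
    {r : K → V} (hN : N₀.DecidesOn Set.univ a b)
    (hr1 : ∀ k, k ≠ a → k ≠ b → r k ∉ D) (hr2 : ∀ y, y ∉ D → ∃ k, k ≠ a ∧ k ≠ b ∧ r k = y)
    [Fintype {x : V // x ∈ D}] {j : ℕ} (hj : Fintype.card {x : V // x ∈ D} ≤ 2 ^ j)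
    (s t : {x : V // x ∈ D}) : (symNet N₀ D a b r s t j).DecidesOn Set.univ (s : V) (t : V) := by
  intro G _
  rw [← reach_GX hab hr1 hr2 G s t, ← Lv_iff hj s t,
    ← Rec_connected N₀.source N₀.sink (BG_connected hN G) j s t]
  have h : (symNet N₀ D a b r s t j).Closed G Gᶜ =
      Rec True N₀.source N₀.sink (BG N₀ D a b r G) j s t := by
    funext z z'
    apply propext
    rw [Rec_union N₀.source N₀.sink (B := BG N₀ D a b r G) (B1 := Bw N₀ D)
      (B2 := Sum.elim (fun e : {e // e ∈ G} => Bp N₀ D a b r e.1)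
      (fun e : {e // e ∈ Gᶜ} => Bn N₀ D a b r e.1)) (fun u v z z' => Iff.rfl)]
    constructor
    · rintro (h | ⟨e, he, h⟩ | ⟨e, he, h⟩)
      · exact Or.inl h
      · exact Or.inr ⟨Sum.inl ⟨e, he⟩, h⟩
      · exact Or.inr ⟨Sum.inr ⟨e, he⟩, h⟩
    · rintro (h | ⟨e | e, h⟩)
      · exact Or.inl h
      · exact Or.inr (Or.inl ⟨e.1, e.2, h⟩)
      · exact Or.inr (Or.inr ⟨e.1, e.2, h⟩)
  unfold SwitchingNetwork.Connects
  rw [h]
  rfl

theorem symNet_invariant (N₀ : SwitchingNetwork (K × K) W₀) {D U : Set V} {a b : K} {r : K → V}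
    (hr1 : ∀ k, k ≠ a → k ≠ b → r k ∉ D) (hUD : U ⊆ D) (s t : {x : V // x ∈ D})
    (hs : (s : V) ∉ U) (ht : (t : V) ∉ U) (j : ℕ) : (symNet N₀ D a b r s t j).InvariantOn U := by
  intro π hπ
  have hπU : ∀ x, x ∈ U ↔ π x ∈ U := by
    intro x
    constructor
    · intro hx
      by_contra hc
      have h1 := hπ _ hc
      have h2 : π x = x := π.injective h1
      rw [h2] at hc
      exact hc hx
    · intro hx
      by_contra hc
      rw [hπ _ hc] at hx
      exact hc hx
  have hπD : ∀ x, x ∈ D ↔ π x ∈ D := by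
    intro x
    by_cases hx : x ∈ U
    · exact ⟨fun _ => hUD ((hπU x).1 hx), fun _ => hUD hx⟩
    · rw [hπ x hx]
  set π' : Perm {x : V // x ∈ D} := π.subtypePerm (fun x => (hπD x).symm) with hπ'
  have hcoe : ∀ x : {x : V // x ∈ D}, ((π' x : {x : V // x ∈ D}) : V) = π x := fun x => rfl
  have hs' : π' s = s := Subtype.ext (hπ _ hs)
  have ht' : π' t = t := Subtype.ext (hπ _ ht)
  have hio : ∀ (u v : {x : V // x ∈ D}) (k : K),
      iota a b r ((π' u : {x : V // x ∈ D}) : V) ((π' v : {x : V // x ∈ D}) : V) k =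
        π (iota a b r (u : V) (v : V) k) := by
    intro u v k
    by_cases hka : k = a
    · rw [hka, iota_a, iota_a, hcoe]
    · by_cases hkb : k = b
      · rw [hkb]
        rw [hkb] at hka
        rw [iota_b (Ne.symm hka), iota_b (Ne.symm hka), hcoe]
      · rw [iota_r hka hkb, iota_r hka hkb, hπ _ (fun h => hr1 k hka hkb (hUD h))]
  have hB : ∀ (P : K × K → W₀ → W₀ → Prop) (e : V × V) (u v : {x : V // x ∈ D}) (z z' : W₀),
      ((π' u ≠ π' v ∧ ∃ e₀ : K × K, (π e.1, π e.2) =
        (iota a b r ((π' u : {x : V // x ∈ D}) : V) ((π' v : {x : V // x ∈ D}) : V) e₀.1,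
          iota a b r ((π' u : {x : V // x ∈ D}) : V) ((π' v : {x : V // x ∈ D}) : V) e₀.2) ∧
        P e₀ z z') ↔ (u ≠ v ∧ ∃ e₀ : K × K,
        e = (iota a b r (u : V) (v : V) e₀.1, iota a b r (u : V) (v : V) e₀.2) ∧
        P e₀ z z')) := by
    intro P e u v z z'
    rw [π'.injective.ne_iff]
    simp only [hio, π.injective.eq_iff, Prod.ext_iff]
  refine ⟨actG W₀ π' j, actG_stt π' _ j, actG_enn π' _ j, fun v w => ?_, fun e v w => ?_,
    fun e v w => ?_⟩
  · have := Rec_act True N₀.source N₀.sink π' (B := Bw N₀ D) (B' := Bw N₀ D) (by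
      intro u v z z'
      unfold Bw
      rw [π'.injective.eq_iff, π'.injective.ne_iff]) j s t v w
    rw [hs', ht'] at this
    exact this
  · have := Rec_act False N₀.source N₀.sink π' (B := Bp N₀ D a b r (π e.1, π e.2))
      (B' := Bp N₀ D a b r e) (fun u v z z' => hB N₀.pos e u v z z') j s t v w
    rw [hs', ht'] at this
    exact this
  · have := Rec_act False N₀.source N₀.sink π' (B := Bn N₀ D a b r (π e.1, π e.2))
      (B' := Bn N₀ D a b r e) (fun u v z z' => hB N₀.neg e u v z z') j s t v w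
    rw [hs', ht'] at this
    exact this

theorem symNet_avoids (N₀ : SwitchingNetwork (K × K) W₀) (hN : N₀.Avoids Set.univ) (D : Set V)
    (a b : K) (r : K → V) (s t : {x : V // x ∈ D}) (j : ℕ) :
    (symNet N₀ D a b r s t j).Avoids Set.univ := by
  intro e _ v w
  refine Rec_empty N₀.source N₀.sink (B := Bn N₀ D a b r e) ?_ j s t v w
  rintro u v z z' ⟨_, e₀, _, h⟩
  exact hN e₀ (Set.mem_univ _) z z' h

end

end Sym

end Pool.Agent.Lib.Pe46137
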