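import Pool.Agent.Lib.Pe46137.Sym.PriceLow

/-!
The upper bound for networks that are invariant over a set of vertices: Savitch's recursion over
this set, with an arbitrary network for the remaining vertices at the bottom.
-/

namespace Pool.Agent.Lib.Pe46137.Sym

open Equiv

/-- the states of the recursive network with base states `W₀` -/
def StG (W₀ X : Type) : ℕ → Type
  | 0 => W₀
  | j + 1 => Bool ⊕ (X × Bool × StG W₀ X j)

variable {W₀ X : Type}

/-- the start of the recursive network -/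
def sttG (X : Type) (s0 : W₀) : ∀ j, StG W₀ X j
  | 0 => s0
  | _ + 1 => Sum.inl true

/-- the end of the recursive network -/
def ennG (X : Type) (t0 : W₀) : ∀ j, StG W₀ X j
  | 0 => t0
  | _ + 1 => Sum.inl false

/-- the contacts of the recursive network; the linking contacts are present if `p` holds -/
def Rec (p : Prop) (s0 t0 : W₀) (B : X → X → W₀ → W₀ → Prop) :
    ∀ j, X → X → StG W₀ X j → StG W₀ X j → Prop
  | 0, u, v, z, z' => B u v z z'
  | j + 1, u, v, z, z' => match z, z' with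
    | Sum.inl b, Sum.inr (_, c, a) => p ∧ b = true ∧ c = true ∧ a = sttG X s0 j
    | Sum.inr (_, c, a), Sum.inl b => p ∧ c = false ∧ b = false ∧ a = ennG X t0 j
    | Sum.inr (w, c, a), Sum.inr (w', c', a') =>
      (p ∧ w = w' ∧ c = true ∧ c' = false ∧ a = ennG X t0 j ∧ a' = sttG X s0 j) ∨
      (w = w' ∧ c = true ∧ c' = true ∧ Rec p s0 t0 B j u w a a') ∨
      (w = w' ∧ c = false ∧ c' = false ∧ Rec p s0 t0 B j w v a a')
    | Sum.inl _, Sum.inl _ => False

/-- the action of a permutation -/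
def actG (W₀ : Type) (π : Perm X) : ∀ j, Perm (StG W₀ X j)
  | 0 => Equiv.refl _
  | j + 1 => Equiv.sumCongr (Equiv.refl _) (Equiv.prodCongr π (Equiv.prodCongr (Equiv.refl _)
      (actG W₀ π j)))

theorem actG_stt (π : Perm X) (s0 : W₀) (j : ℕ) : actG W₀ π j (sttG X s0 j) = sttG X s0 j := by
  cases j <;> rfl

theorem actG_enn (π : Perm X) (t0 : W₀) (j : ℕ) : actG W₀ π j (ennG X t0 j) = ennG X t0 j := by
  cases j <;> rfl

theorem actG_eq_stt (π : Perm X) (s0 : W₀) (j : ℕ) (a : StG W₀ X j) :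
    actG W₀ π j a = sttG X s0 j ↔ a = sttG X s0 j := by
  constructor
  · intro h
    apply (actG W₀ π j).injective
    rw [h, actG_stt]
  · rintro rfl
    exact actG_stt π s0 j

theorem actG_eq_enn (π : Perm X) (t0 : W₀) (j : ℕ) (a : StG W₀ X j) :
    actG W₀ π j a = ennG X t0 j ↔ a = ennG X t0 j := by
  constructor
  · intro h
    apply (actG W₀ π j).injective
    rw [h, actG_enn]
  · rintro rfl
    exact actG_enn π t0 j

theorem Rec_act (p : Prop) (s0 t0 : W₀) (π : Perm X) {B B' : X → X → W₀ → W₀ → Prop}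
    (hB : ∀ u v z z', B (π u) (π v) z z' ↔ B' u v z z') : ∀ (j : ℕ) (u v : X)
    (z z' : StG W₀ X j), Rec p s0 t0 B j (π u) (π v) (actG W₀ π j z) (actG W₀ π j z') ↔
      Rec p s0 t0 B' j u v z z' := by
  intro j
  induction j with
  | zero =>
    intro u v z z'
    exact hB u v z z'
  | succ j ih =>
    intro u v z z'
    rcases z with b | ⟨w, c, a⟩ <;> rcases z' with b' | ⟨w', c', a'⟩
    · exact Iff.rfl
    · change (p ∧ b = true ∧ c' = true ∧ actG W₀ π j a' = sttG X s0 j) ↔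
        (p ∧ b = true ∧ c' = true ∧ a' = sttG X s0 j)
      rw [actG_eq_stt]
    · change (p ∧ c = false ∧ b' = false ∧ actG W₀ π j a = ennG X t0 j) ↔
        (p ∧ c = false ∧ b' = false ∧ a = ennG X t0 j)
      rw [actG_eq_enn]
    · change ((p ∧ π w = π w' ∧ c = true ∧ c' = false ∧ actG W₀ π j a = ennG X t0 j ∧
          actG W₀ π j a' = sttG X s0 j) ∨
        (π w = π w' ∧ c = true ∧ c' = true ∧
          Rec p s0 t0 B j (π u) (π w) (actG W₀ π j a) (actG W₀ π j a')) ∨
        (π w = π w' ∧ c = false ∧ c' = false ∧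
          Rec p s0 t0 B j (π w) (π v) (actG W₀ π j a) (actG W₀ π j a'))) ↔
        ((p ∧ w = w' ∧ c = true ∧ c' = false ∧ a = ennG X t0 j ∧ a' = sttG X s0 j) ∨
        (w = w' ∧ c = true ∧ c' = true ∧ Rec p s0 t0 B' j u w a a') ∨
        (w = w' ∧ c = false ∧ c' = false ∧ Rec p s0 t0 B' j w v a a'))
      rw [actG_eq_stt, actG_eq_enn, ih, ih, π.injective.eq_iff]

theorem Rec_union {ι : Type} (s0 t0 : W₀) {B B1 : X → X → W₀ → W₀ → Prop}
    {B2 : ι → X → X → W₀ → W₀ → Prop}
    (hB : ∀ u v z z', B u v z z' ↔ (B1 u v z z' ∨ ∃ i, B2 i u v z z')) : ∀ (j : ℕ) (u v : X)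
    (z z' : StG W₀ X j), Rec True s0 t0 B j u v z z' ↔
      (Rec True s0 t0 B1 j u v z z' ∨ ∃ i, Rec False s0 t0 (B2 i) j u v z z') := by
  intro j
  induction j with
  | zero =>
    intro u v z z'
    exact hB u v z z'
  | succ j ih =>
    intro u v z z'
    rcases z with b | ⟨w, c, a⟩ <;> rcases z' with b' | ⟨w', c', a'⟩
    · change False ↔ (False ∨ ∃ _ : ι, False)
      simp
    · change (True ∧ b = true ∧ c' = true ∧ a' = sttG X s0 j) ↔
        ((True ∧ b = true ∧ c' = true ∧ a' = sttG X s0 j) ∨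
          ∃ _ : ι, (False ∧ b = true ∧ c' = true ∧ a' = sttG X s0 j))
      simp
    · change (True ∧ c = false ∧ b' = false ∧ a = ennG X t0 j) ↔
        ((True ∧ c = false ∧ b' = false ∧ a = ennG X t0 j) ∨
          ∃ _ : ι, (False ∧ c = false ∧ b' = false ∧ a = ennG X t0 j))
      simp
    · change ((True ∧ w = w' ∧ c = true ∧ c' = false ∧ a = ennG X t0 j ∧ a' = sttG X s0 j) ∨
        (w = w' ∧ c = true ∧ c' = true ∧ Rec True s0 t0 B j u w a a') ∨
        (w = w' ∧ c = false ∧ c' = false ∧ Rec True s0 t0 B j w v a a')) ↔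
        (((True ∧ w = w' ∧ c = true ∧ c' = false ∧ a = ennG X t0 j ∧ a' = sttG X s0 j) ∨
        (w = w' ∧ c = true ∧ c' = true ∧ Rec True s0 t0 B1 j u w a a') ∨
        (w = w' ∧ c = false ∧ c' = false ∧ Rec True s0 t0 B1 j w v a a')) ∨
        ∃ i, ((False ∧ w = w' ∧ c = true ∧ c' = false ∧ a = ennG X t0 j ∧ a' = sttG X s0 j) ∨
        (w = w' ∧ c = true ∧ c' = true ∧ Rec False s0 t0 (B2 i) j u w a a') ∨
        (w = w' ∧ c = false ∧ c' = false ∧ Rec False s0 t0 (B2 i) j w v a a')))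
      rw [ih, ih]
      constructor
      · rintro (h | ⟨h1, h2, h3, h4 | ⟨i, h4⟩⟩ | ⟨h1, h2, h3, h4 | ⟨i, h4⟩⟩)
        · exact Or.inl (Or.inl h)
        · exact Or.inl (Or.inr (Or.inl ⟨h1, h2, h3, h4⟩))
        · exact Or.inr ⟨i, Or.inr (Or.inl ⟨h1, h2, h3, h4⟩)⟩
        · exact Or.inl (Or.inr (Or.inr ⟨h1, h2, h3, h4⟩))
        · exact Or.inr ⟨i, Or.inr (Or.inr ⟨h1, h2, h3, h4⟩)⟩
      · rintro ((h | ⟨h1, h2, h3, h4⟩ | ⟨h1, h2, h3, h4⟩) |
          ⟨i, ⟨h0, _⟩ | ⟨h1, h2, h3, h4⟩ | ⟨h1, h2, h3, h4⟩⟩)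
        · exact Or.inl h
        · exact Or.inr (Or.inl ⟨h1, h2, h3, Or.inl h4⟩)
        · exact Or.inr (Or.inr ⟨h1, h2, h3, Or.inl h4⟩)
        · exact h0.elim
        · exact Or.inr (Or.inl ⟨h1, h2, h3, Or.inr ⟨i, h4⟩⟩)
        · exact Or.inr (Or.inr ⟨h1, h2, h3, Or.inr ⟨i, h4⟩⟩)

theorem Rec_empty (s0 t0 : W₀) {B : X → X → W₀ → W₀ → Prop}
    (hB : ∀ u v z z', ¬ B u v z z') : ∀ (j : ℕ) (u v : X)
    (z z' : StG W₀ X j), ¬ Rec False s0 t0 B j u v z z' := by
  intro j
  induction j with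
  | zero =>
    intro u v z z'
    exact hB u v z z'
  | succ j ih =>
    intro u v z z'
    rcases z with b | ⟨w, c, a⟩ <;> rcases z' with b' | ⟨w', c', a'⟩
    · exact id
    · rintro ⟨h, _⟩
      exact h
    · rintro ⟨h, _⟩
      exact h
    · rintro (⟨h, _⟩ | ⟨_, _, _, h⟩ | ⟨_, _, _, h⟩)
      · exact h
      · exact ih _ _ _ _ h
      · exact ih _ _ _ _ h

theorem Rec_connected (s0 t0 : W₀) {B : X → X → W₀ → W₀ → Prop} {G : Set (X × X)}
    (hB : ∀ u v, Relation.EqvGen (B u v) s0 t0 ↔ (u = v ∨ (u, v) ∈ G)) : ∀ (j : ℕ) (u v : X),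
    Relation.EqvGen (Rec True s0 t0 B j u v) (sttG X s0 j) (ennG X t0 j) ↔ Lv G j u v := by
  intro j
  induction j with
  | zero =>
    intro u v
    exact hB u v
  | succ j ih =>
    intro u v
    constructor
    · intro h
      by_contra hc
      have hc' : ∀ w, Lv G j u w → ¬ Lv G j w v := fun w h1 h2 => hc ⟨w, h1, h2⟩
      set A : Set (Bool ⊕ (X × Bool × StG W₀ X j)) := {z | z = Sum.inl true ∨
        (∃ w a, z = Sum.inr (w, true, a) ∧
          Relation.EqvGen (Rec True s0 t0 B j u w) (sttG X s0 j) a) ∨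
        (∃ w a, z = Sum.inr (w, false, a) ∧ Lv G j u w ∧
          Relation.EqvGen (Rec True s0 t0 B j w v) (sttG X s0 j) a)} with hA
      have m1 : ∀ b, Sum.inl b ∈ A ↔ b = true := by
        intro b
        simp [hA]
      have m2 : ∀ w a, Sum.inr (w, true, a) ∈ A ↔
          Relation.EqvGen (Rec True s0 t0 B j u w) (sttG X s0 j) a := by
        intro w a
        simp [hA]
      have m3 : ∀ w a, Sum.inr (w, false, a) ∈ A ↔ (Lv G j u w ∧
          Relation.EqvGen (Rec True s0 t0 B j w v) (sttG X s0 j) a) := by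
        intro w a
        simp [hA]
      have := eqv_closed' (W := Bool ⊕ (X × Bool × StG W₀ X j)) A (fun z z' hz => ?_) h
      · have h2 : ((Sum.inl true : Bool ⊕ (X × Bool × StG W₀ X j)) ∈ A) ↔
          (Sum.inl false ∈ A) := this
        rw [m1, m1] at h2
        simp at h2
      · rcases z with b | ⟨w, c, a⟩ <;> rcases z' with b' | ⟨w', c', a'⟩
        · exact hz.elim
        · obtain ⟨-, rfl, rfl, rfl⟩ : True ∧ b = true ∧ c' = true ∧ a' = sttG X s0 j := hz
          rw [m1, m2]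
          simp [Relation.EqvGen.refl]
        · obtain ⟨-, rfl, rfl, rfl⟩ : True ∧ c = false ∧ b' = false ∧ a = ennG X t0 j := hz
          rw [m1, m3, ih]
          simp only [iff_false, not_and, Bool.false_eq_true]
          exact hc' w
        · have h' : (True ∧ w = w' ∧ c = true ∧ c' = false ∧ a = ennG X t0 j ∧
              a' = sttG X s0 j) ∨
            (w = w' ∧ c = true ∧ c' = true ∧ Rec True s0 t0 B j u w a a') ∨
            (w = w' ∧ c = false ∧ c' = false ∧ Rec True s0 t0 B j w v a a') := hz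
          rcases h' with ⟨-, rfl, rfl, rfl, rfl, rfl⟩ | ⟨rfl, rfl, rfl, h'⟩ | ⟨rfl, rfl, rfl, h'⟩
          · rw [m2, m3, ih]
            simp [Relation.EqvGen.refl]
          · rw [m2, m2]
            exact eqv_iff' (r := Rec True s0 t0 B j u w) h' _
          · rw [m3, m3, eqv_iff' (r := Rec True s0 t0 B j w v) h']
    · rintro ⟨w, h1, h2⟩
      rw [← ih] at h1 h2
      have e1 : Relation.EqvGen (Rec True s0 t0 B (j + 1) u v) (Sum.inr (w, true, sttG X s0 j))
          (Sum.inr (w, true, ennG X t0 j)) := by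
        refine eqv_map' (r := Rec True s0 t0 B j u w)
          (fun a => (Sum.inr (w, true, a) : StG W₀ X (j + 1))) (fun a b hab => ?_) h1
        exact Or.inr (Or.inl ⟨rfl, rfl, rfl, hab⟩)
      have e2 : Relation.EqvGen (Rec True s0 t0 B (j + 1) u v) (Sum.inr (w, false, sttG X s0 j))
          (Sum.inr (w, false, ennG X t0 j)) := by
        refine eqv_map' (r := Rec True s0 t0 B j w v)
          (fun a => (Sum.inr (w, false, a) : StG W₀ X (j + 1))) (fun a b hab => ?_) h2
        exact Or.inr (Or.inr ⟨rfl, rfl, rfl, hab⟩)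
      have c1 : Rec True s0 t0 B (j + 1) u v (Sum.inl true) (Sum.inr (w, true, sttG X s0 j)) :=
        ⟨trivial, rfl, rfl, rfl⟩
      have c2 : Rec True s0 t0 B (j + 1) u v (Sum.inr (w, true, ennG X t0 j))
          (Sum.inr (w, false, sttG X s0 j)) :=
        Or.inl ⟨trivial, rfl, rfl, rfl, rfl, rfl⟩
      have c3 : Rec True s0 t0 B (j + 1) u v (Sum.inr (w, false, ennG X t0 j))
          (Sum.inl false) :=
        ⟨trivial, rfl, rfl, rfl⟩
      exact (Relation.EqvGen.rel _ _ c1).trans _ _ _ (e1.trans _ _ _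
        ((Relation.EqvGen.rel _ _ c2).trans _ _ _ (e2.trans _ _ _ (Relation.EqvGen.rel _ _ c3))))

instance instFintypeStG [Fintype W₀] [Fintype X] : ∀ j, Fintype (StG W₀ X j)
  | 0 => inferInstanceAs (Fintype W₀)
  | j + 1 =>
    haveI := instFintypeStG j
    inferInstanceAs (Fintype (Bool ⊕ (X × Bool × StG W₀ X j)))

theorem card_StG_zero [Fintype W₀] [Fintype X] :
    Fintype.card (StG W₀ X 0) = Fintype.card W₀ := rfl

theorem card_StG_succ [Fintype W₀] [Fintype X] (j : ℕ) :
    Fintype.card (StG W₀ X (j + 1)) = 2 + Fintype.card X * (2 * Fintype.card (StG W₀ X j)) := by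
  have : Fintype.card (StG W₀ X (j + 1)) = Fintype.card (Bool ⊕ (X × Bool × StG W₀ X j)) := rfl
  rw [this, Fintype.card_sum, Fintype.card_prod, Fintype.card_prod, Fintype.card_bool]

theorem card_StG_le [Fintype W₀] [Fintype X] (hW : 2 ≤ Fintype.card W₀) (j : ℕ) :
    Fintype.card (StG W₀ X j) ≤ Fintype.card W₀ * (2 * Fintype.card X + 1) ^ j := by
  have h2 : ∀ j, 2 ≤ Fintype.card (StG W₀ X j) := by
    intro j
    cases j with
    | zero => rw [card_StG_zero]; exact hW
    | succ j => rw [card_StG_succ]; omega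
  induction j with
  | zero => rw [card_StG_zero]; simp
  | succ j ih =>
    rw [card_StG_succ]
    calc 2 + Fintype.card X * (2 * Fintype.card (StG W₀ X j))
        ≤ Fintype.card (StG W₀ X j) + Fintype.card X * (2 * Fintype.card (StG W₀ X j)) := by
          have := h2 j
          omega
      _ = (2 * Fintype.card X + 1) * Fintype.card (StG W₀ X j) := by ring
      _ ≤ (2 * Fintype.card X + 1) * (Fintype.card W₀ * (2 * Fintype.card X + 1) ^ j) :=
          Nat.mul_le_mul_left _ ih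
      _ = Fintype.card W₀ * (2 * Fintype.card X + 1) ^ (j + 1) := by ring

end Pool.Agent.Lib.Pe46137.Sym
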